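import Pool.Agent.Helper9.DY.Str
import Pool.Agent.Helper9.DY.CaseII

/-!
# The roots of the plane of `d1` and `d2` (O-roots) (MP_d13a5e_al)

`of_stat : OFStat Ψ B`: either there are neighbours `a`, `h` among the positive roots of `<d1, d2>` with `0 ≤ φ a`,
`φ h < 0`, or (infinite order) the line of `x` and `x'` passes through the limit gap, and then there is an O-root `h` with
`φ h < 0` such that `x` (in fact both `x` and `x'`) is in the cone of `h` and `d2`.
-/

set_option autoImplicit false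

namespace DY

open Set

/-! ### Real lemmas -/

section Real

variable {c : ℝ}

/-- the limit of the quotients -/
private theorem om64 (hc : 1 ≤ c) : ∃ w : ℝ, 0 < w ∧ w ≤ 1 ∧ w ^ 2 - 2 * c * w + 1 = 0 := by
  have h0 : 0 ≤ c ^ 2 - 1 := by nlinarith
  have h1 := Real.sq_sqrt h0
  have h2 := Real.sqrt_nonneg (c ^ 2 - 1)
  refine ⟨c - Real.sqrt (c ^ 2 - 1), ?_, ?_, ?_⟩
  · nlinarith
  · nlinarith
  · nlinarith

private theorem om_sq64 {w : ℝ} (hw : w ^ 2 - 2 * c * w + 1 = 0) (k : ℕ) :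
    w * sq c (k + 1) - sq c k = w ^ (k + 1) := by
  induction k with
  | zero => simp
  | succ k ih =>
    rw [sq_succ, pow_succ]
    linear_combination w * ih - sq c (k + 1) * hw

/-- a sequence bound -/
private theorem sq_lin64 (hc : 1 ≤ c) (k : ℕ) : (k : ℝ) ≤ sq c k := by
  induction k with
  | zero => simp
  | succ k ih =>
    have := (sq_incr hc k).2
    push_cast
    linarith

private theorem arch64 {a b : ℝ} (hc : 1 ≤ c) (h : ∀ k, 0 ≤ sq c (k + 1) * a + b) : 0 ≤ a := by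
  by_contra ha
  rw [not_le] at ha
  obtain ⟨k, hk⟩ := exists_nat_gt (b / (-a))
  rw [div_lt_iff₀ (by linarith)] at hk
  have h1 := h k
  have h2 := sq_lin64 hc (k + 1)
  push_cast at h2
  have h3 : (sq c (k + 1) - k) * a ≤ 0 := mul_nonpos_of_nonneg_of_nonpos (by linarith) ha.le
  nlinarith

/-- a point outside of the limit gap -/
theorem limgap64 {f1 f2 x1 x2 : ℝ} (hc : 1 ≤ c) (hf2 : f2 < 0)
    (hF : ∀ k, 0 ≤ sq c (k + 1) * f1 + sq c k * f2) (hx1 : 0 ≤ x1) (hx2 : 0 ≤ x2)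
    (hφ : x1 * f1 + x2 * f2 ≤ 0) (hQ : 0 < x1 ^ 2 + x2 ^ 2 - 2 * c * x1 * x2) :
    ∃ k, x1 * sq c (k + 1) ≤ x2 * sq c k := by
  by_contra hcon
  push Not at hcon
  obtain ⟨w, w0, w1, hw⟩ := om64 hc
  have hpow : ∀ k : ℕ, w ^ (k + 1) ≤ 1 := fun k => pow_le_one₀ w0.le w1
  have a1 : 0 ≤ x1 - w * x2 := by
    refine arch64 (b := x2) hc fun k => ?_
    have h1 := hcon k
    have h2 := om_sq64 hw k
    have h3 := hpow k
    have h4 : x2 * w ^ (k + 1) ≤ x2 * 1 := mul_le_mul_of_nonneg_left h3 hx2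
    have h5 : x2 * w ^ (k + 1) = x2 * (w * sq c (k + 1) - sq c k) := by rw [h2]
    nlinarith
  have a2 : 0 ≤ f1 + w * f2 := by
    refine arch64 (b := -f2) hc fun k => ?_
    have h1 := hF k
    have h2 := om_sq64 hw k
    have h3 := hpow k
    have h4 : (-f2) * w ^ (k + 1) ≤ (-f2) * 1 := mul_le_mul_of_nonneg_left h3 (by linarith)
    have h5 : (-f2) * w ^ (k + 1) = (-f2) * (w * sq c (k + 1) - sq c k) := by rw [h2]
    nlinarith
  have a3 : (x1 - w * x2) * (w * x1 - x2) = w * (x1 ^ 2 + x2 ^ 2 - 2 * c * x1 * x2) := by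
    linear_combination (-(x1 * x2)) * hw
  have a4 : 0 < (x1 - w * x2) * (w * x1 - x2) := by
    rw [a3]
    exact mul_pos w0 hQ
  have a5 : 0 < w * x1 - x2 := pos_of_mul_pos_right a4 a1
  have a6 : 0 < (-f2) * (w * x1 - x2) := mul_pos (by linarith) a5
  have a7 : 0 ≤ x1 * (f1 + w * f2) := mul_nonneg hx1 a2
  nlinarith

/-- the condition is kept -/
private theorem limstep64 {x1 x2 : ℝ} (hc : 1 ≤ c) (hx2 : 0 ≤ x2) {k : ℕ}
    (h : x1 * sq c (k + 1) ≤ x2 * sq c k) : x1 * sq c (k + 2) ≤ x2 * sq c (k + 1) := by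
  have h1 := sq_cassini c k
  have h2 := sq_ge_one hc k
  have h3 := sq_ge_one hc (k + 1)
  have e1 : k + 1 + 1 = k + 2 := rfl
  rw [e1] at h3
  have h4 : sq c (k + 2) * (x1 * sq c (k + 1)) ≤ sq c (k + 2) * (x2 * sq c k) :=
    mul_le_mul_of_nonneg_left h (by linarith)
  have h5 : sq c (k + 1) * (x1 * sq c (k + 2)) ≤ sq c (k + 1) * (x2 * sq c (k + 1)) := by
    have h6 : sq c (k + 1) * (x2 * sq c (k + 1)) = x2 * (sq c (k + 1) ^ 2 - sq c k * sq c (k + 2)) +
      sq c (k + 2) * (x2 * sq c k) := by ring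
    rw [h6, h1]
    nlinarith
  exact le_of_mul_le_mul_left h5 (by linarith)

private theorem limmono64 {x1 x2 : ℝ} (hc : 1 ≤ c) (hx2 : 0 ≤ x2) {k : ℕ}
    (h : x1 * sq c (k + 1) ≤ x2 * sq c k) (n : ℕ) :
    x1 * sq c (k + n + 1) ≤ x2 * sq c (k + n) := by
  induction n with
  | zero => exact h
  | succ n ih => exact limstep64 hc hx2 ih

end Real

variable {E : Type*} [AddCommGroup E] [Module ℝ E]
variable {Ψ : Set E} {B : E →ₗ[ℝ] E →ₗ[ℝ] ℝ} {ρ φ : E →ₗ[ℝ] ℝ} {t d1 d2 x x' : E}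

/-- the pencil of `d1` and `d2` -/
theorem Loc.cpO64 (L : Loc Ψ B ρ φ t d1 d2 x x') : CP Ψ B d1 d2 (-B d1 d2) :=
  (Tri.cp (L.tri.swapW'.swapW : Tri Ψ B d1 d2 t))

theorem ORt.pos64 {be1 be2 : ℝ} (h : ORt Ψ B d1 d2 be1 be2) (t : E) :
    be1 • d1 + be2 • d2 ∈ C01 t d1 d2 :=
  ⟨0, be1, be2, by module, Or.inl rfl, h.z1, h.z2⟩

/-- what the pencil of `t` and an O-root gives -/
theorem Loc.strO64 (L : Loc Ψ B ρ φ t d1 d2 x x') {be1 be2 : ℝ} (h : ORt Ψ B d1 d2 be1 be2) :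
    Str (-B t d1 * be1 + -B t d2 * be2) (be1 * φ d1 + be2 * φ d2) (be1 * ρ d1 + be2 * ρ d2) := by
  have hne : be1 • d1 + be2 • d2 ≠ t := by
    intro h0
    have := L.tri.indep (-1) be1 be2 (by
      have : (-1 : ℝ) • t + be1 • d1 + be2 • d2 = (be1 • d1 + be2 • d2) - t := by module
      rw [this, h0, sub_self])
    linarith [this.1]
  have h1 := L.str _ h.mem (h.pos64 t) hne
  have e1 : -B t (be1 • d1 + be2 • d2) = -B t d1 * be1 + -B t d2 * be2 := by
    rw [map_add, map_smul, map_smul, smul_eq_mul, smul_eq_mul]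
    ring
  have e2 : φ (be1 • d1 + be2 • d2) = be1 * φ d1 + be2 * φ d2 := by
    rw [map_add, map_smul, map_smul, smul_eq_mul, smul_eq_mul]
  have e3 : ρ (be1 • d1 + be2 • d2) = be1 * ρ d1 + be2 * ρ d2 := by
    rw [map_add, map_smul, map_smul, smul_eq_mul, smul_eq_mul]
  rw [e1, e2, e3] at h1
  exact h1

/-- the pencil of `t` and an O-root -/
theorem Loc.cpt64 (L : Loc Ψ B ρ φ t d1 d2 x x') {be1 be2 : ℝ} (h : ORt Ψ B d1 d2 be1 be2) :
    CP Ψ B t (be1 • d1 + be2 • d2) (-B t d1 * be1 + -B t d2 * be2) := by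
  have h1 := L.tri.cp_opp h.mem rfl (e0Z1 h.z1) (e0Z1 h.z2)
  have e1 : -B t (be1 • d1 + be2 • d2) = -B t d1 * be1 + -B t d2 * be2 := by
    rw [map_add, map_smul, map_smul, smul_eq_mul, smul_eq_mul]
    ring
  rw [e1] at h1
  exact h1

/-! ### neighbours -/

private def Sg64 (α β : ℝ) : Prop :=
  (α = 0 ∧ β = 1 ∨ α = 1 ∧ β = 0 ∨ 1 ≤ α ∧ 1 ≤ β) ∨
    (-α = 0 ∧ -β = 1 ∨ -α = 1 ∧ -β = 0 ∨ 1 ≤ -α ∧ 1 ≤ -β)

private theorem Sg64.swap {α β : ℝ} (h : Sg64 α β) : Sg64 β α := by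
  unfold Sg64 at h ⊢
  tauto

private theorem Sg64.neg {α β : ℝ} (h : Sg64 (-α) β) : Sg64 α (-β) := by
  unfold Sg64 at h ⊢
  rw [neg_neg] at h
  rw [neg_neg]
  tauto

/-- neighbours, one of them with the other sign, are canonical -/
private theorem CP.nb64 {t h : E} {b : ℝ} (hC : CP Ψ B t h b) (n : ℕ) :
    ∀ y ∈ Ψ, ∀ α β : ℝ, y = α • pu b t h n + β • pu b t h (n + 1) → Sg64 α (-β) := by
  have hS := hC.sys
  have ht1 := hS.one t hC.ht
  have hh1 := hS.one h hC.hh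
  have hb := hC.hb
  have hb' : B h t = -b := by rw [hS.symm]; exact hb
  induction n with
  | zero =>
    intro y hy α β e
    -- reflection at `h`
    have h1 := hS.refl h hC.hh y hy
    have h2 : rf B h y = β • t + (-α) • h := by
      rw [e]
      unfold rf pu
      simp only [map_add, map_smul, hb', hh1, smul_eq_mul, sq_zero, sq_one, zero_add]
      rw [sq_two]
      module
    exact (Sg64.neg (Sg64.swap (hC.canon _ h1 β (-α) h2)))
  | succ n ih =>
    intro y hy α β e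
    have hm := hC.mem (n + 1)
    have h1 := hS.refl _ hm y hy
    have h3 : B (pu b t h (n + 1)) (pu b t h (n + 1)) = 1 := hS.one _ hm
    have h4 : B (pu b t h (n + 1)) (pu b t h (n + 2)) = b := by
      have e1 : n + 1 + 1 = n + 2 := rfl
      have h5 := sq_cassini b (n + 1)
      have h6 := sq_succ b (n + 1)
      have h7 := sq_norm b (n + 1)
      unfold pu
      simp only [map_add, map_smul, LinearMap.add_apply, LinearMap.smul_apply, hb', hb, ht1, hh1,
        smul_eq_mul]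
      rw [e1] at h5 h7 ⊢
      have e2 : n + 1 + 2 = n + 2 + 1 := rfl
      rw [e2] at h5 h6
      rw [h6]
      linear_combination b * h7
    have h2 : rf B (pu b t h (n + 1)) y = (-β) • pu b t h n + (-α) • pu b t h (n + 1) := by
      rw [e]
      have e1 : n + 1 + 1 = n + 2 := rfl
      rw [e1]
      have h5 := pu_succ b t h n
      unfold rf
      rw [map_add, map_smul, map_smul, h3, h4, smul_eq_mul, smul_eq_mul, h5]
      module
    have h5 := ih _ h1 (-β) (-α) h2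
    rw [neg_neg] at h5
    unfold Sg64 at h5 ⊢
    rw [neg_neg]
    rw [neg_neg] at h5
    tauto

private theorem uniq64 {al1 al2 be1 be2 : ℝ} (ra : ORt Ψ B d1 d2 al1 al2)
    (fa : 0 ≤ al1 * φ d1 + al2 * φ d2) (fh : be1 * φ d1 + be2 * φ d2 < 0)
    (det : al1 * be2 - al2 * be1 = 1)
    (K : ∀ y ∈ Ψ, ∀ α β : ℝ, y = α • (al1 • d1 + al2 • d2) + β • (be1 • d1 + be2 • d2) →
      Sg64 α (-β)) (y1 y2 : ℝ) (hy : ORt Ψ B d1 d2 y1 y2) (hφ : y1 * φ d1 + y2 * φ d2 = 0) :
    y1 = al1 ∧ y2 = al2 := by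
  set u := y1 * be2 - y2 * be1 with hu
  set v := al1 * y2 - al2 * y1 with hv
  have e1 : y1 = u * al1 + v * be1 := by
    rw [hu, hv]
    linear_combination (-y1) * det
  have e2 : y2 = u * al2 + v * be2 := by
    rw [hu, hv]
    linear_combination (-y2) * det
  have e3 : u * (al1 * φ d1 + al2 * φ d2) + v * (be1 * φ d1 + be2 * φ d2) = 0 := by
    rw [e1, e2] at hφ
    linarith
  have h1 := K _ hy.mem u v (by
    nth_rewrite 1 [e1, e2]
    module)
  rcases h1 with (⟨h1, h2⟩ | ⟨h1, h2⟩ | ⟨h1, h2⟩) | (⟨h1, h2⟩ | ⟨h1, h2⟩ | ⟨h1, h2⟩)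
  · exfalso
    have h3 : v = -1 := by linarith
    rw [h1, h3] at e3
    linarith
  · have h3 : v = 0 := by linarith
    rw [h1, h3] at e1 e2
    exact ⟨by linarith, by linarith⟩
  · exfalso
    have h3 := mul_nonneg (by linarith : 0 ≤ u) fa
    have h4 := mul_pos_of_neg_of_neg (by linarith : v < 0) fh
    linarith
  · exfalso
    have h3 : u = 0 := by linarith
    have h4 : v = 1 := by linarith
    rw [h3, h4] at e3
    linarith
  · exfalso
    have h3 : u = -1 := by linarith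
    have h4 : v = 0 := by linarith
    rw [h3, h4] at e1 e2
    have k1 := e0Z1 ra.z1
    have k2 := e0Z1 ra.z2
    have k3 := e0Z1 hy.z1
    have k4 := e0Z1 hy.z2
    have l1 : al1 = 0 := by linarith
    have l2 : al2 = 0 := by linarith
    have := ra.nrm
    rw [l1, l2] at this
    norm_num at this
  · exfalso
    have h3 := mul_nonneg (by linarith : 0 ≤ -u) fa
    have h4 := mul_neg_of_pos_of_neg (by linarith : 0 < v) fh
    linarith

theorem Crd.zbar64 {b1 b2 b0 q1 q2 g x1 x2 : ℝ} (h : Crd b1 b2 b0 q1 q2 g x1 x2) :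
    0 ≤ g ∧ 0 ≤ x1 ∧ 0 ≤ x2 ∧ 0 < x1 ^ 2 + x2 ^ 2 - 2 * b0 * x1 * x2 := by
  have h0 := e0Z1 h.zg
  refine ⟨h0, e0Z1 h.z1, e0Z1 h.z2, ?_⟩
  have h1 := h.nrm
  have h2 := mul_nonneg h0 (sub_nonneg.2 h.obt)
  nlinarith

theorem Crd.le_zero64 {b1 b2 b0 g x1 x2 : ℝ} (h : Crd b1 b2 b0 (-φ d1) (-φ d2) g x1 x2) :
    x1 * φ d1 + x2 * φ d2 ≤ 0 := by
  have h0 := e0Z1 h.zg
  have h1 := h.fz
  nlinarith

/-- **O-roots** with the index: `a`, `h` are the roots number `k` and `k + 1` in the sequence which starts with `d1` or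
(`1 ≤ -B d1 d2`) the roots number `k + 1` and `k` in the sequence which starts with `d2`; or `x` and `x'` are both in the
cone of `h` and `d2` -/
theorem Loc.oroots64 (L : Loc Ψ B ρ φ t d1 d2 x x') (h1 : 0 ≤ φ d1) (h2 : φ d2 < 0)
    {g x1 x2 g' x1' x2' : ℝ}
    (c : Crd (-B t d1) (-B t d2) (-B d1 d2) (-φ d1) (-φ d2) g x1 x2)
    (c' : Crd (-B t d1) (-B t d2) (-B d1 d2) (-φ d1) (-φ d2) g' x1' x2') :
    (∃ (k : ℕ) (al1 al2 be1 be2 : ℝ), OFA Ψ B φ d1 d2 al1 al2 be1 be2 ∧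
      (∀ i ≤ k, 1 ≤ sq (-B d1 d2) (i + 1)) ∧
      ((al1 = sq (-B d1 d2) (k + 1) ∧ al2 = sq (-B d1 d2) k ∧ be1 = sq (-B d1 d2) (k + 2) ∧
          be2 = sq (-B d1 d2) (k + 1)) ∨
        (1 ≤ -B d1 d2 ∧ al1 = sq (-B d1 d2) (k + 1) ∧ al2 = sq (-B d1 d2) (k + 2) ∧
          be1 = sq (-B d1 d2) k ∧ be2 = sq (-B d1 d2) (k + 1)))) ∨
    (1 ≤ -B d1 d2 ∧ ∃ be1 be2, ORt Ψ B d1 d2 be1 be2 ∧ 1 ≤ be1 ∧ be1 * φ d1 + be2 * φ d2 < 0 ∧
      x1 * be2 ≤ x2 * be1 ∧ x1' * be2 ≤ x2' * be1) := by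
  classical
  have hC := L.cpO64
  set b := -B d1 d2 with hb
  have hbB : B d1 d2 = -b := by rw [hb, neg_neg]
  -- O-roots
  have rt1 : ∀ k, Z1 (sq b k) → Z1 (sq b (k + 1)) → ORt Ψ B d1 d2 (sq b (k + 1)) (sq b k) := by
    intro k z z'
    refine ⟨?_, z', z, ?_⟩
    · have := hC.symm.mem k
      unfold pu at this
      rw [add_comm]
      exact this
    · have := sq_norm b k
      rw [hbB]
      linarith
  have rt2 : ∀ k, Z1 (sq b k) → Z1 (sq b (k + 1)) → ORt Ψ B d1 d2 (sq b k) (sq b (k + 1)) := by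
    intro k z z'
    refine ⟨hC.mem k, z, z', ?_⟩
    have := sq_norm b k
    rw [hbB]
    linarith
  have fwd : ∀ j, Z1 (sq b j) → Z1 (sq b (j + 1)) → Z1 (sq b (j + 2)) →
      0 ≤ sq b (j + 1) * φ d1 + sq b j * φ d2 → sq b (j + 2) * φ d1 + sq b (j + 1) * φ d2 < 0 →
      OFA Ψ B φ d1 d2 (sq b (j + 1)) (sq b j) (sq b (j + 2)) (sq b (j + 1)) := by
    intro j z z' z'' f1 f2
    have h3 := sq_cassini b j
    have h4 := sq_succ b j
    have hdet : sq b (j + 1) * sq b (j + 1) - sq b j * sq b (j + 2) = 1 := by linarith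
    refine ⟨rt1 j z z', rt1 (j + 1) z' z'', f1, f2, hdet, ?_,
      uniq64 (rt1 j z z') f1 f2 hdet fun y hy α β e => ?_⟩
    · have h5 : sq b (j + 2) + sq b j = 2 * b * sq b (j + 1) := by linarith
      rw [hbB]
      linear_combination sq b (j + 1) * h5 + b * h3
    · refine CP.nb64 hC.symm j y hy α β ?_
      rw [e]
      unfold pu
      module
  have bwd : ∀ j, Z1 (sq b j) → Z1 (sq b (j + 1)) → Z1 (sq b (j + 2)) →
      0 ≤ sq b (j + 1) * φ d1 + sq b (j + 2) * φ d2 → sq b j * φ d1 + sq b (j + 1) * φ d2 < 0 →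
      OFA Ψ B φ d1 d2 (sq b (j + 1)) (sq b (j + 2)) (sq b j) (sq b (j + 1)) := by
    intro j z z' z'' f1 f2
    have h3 := sq_cassini b j
    have h4 := sq_succ b j
    have hdet : sq b (j + 1) * sq b (j + 1) - sq b (j + 2) * sq b j = 1 := by linarith
    refine ⟨rt2 (j + 1) z' z'', rt2 j z z', f1, f2, hdet, ?_,
      uniq64 (rt2 (j + 1) z' z'') f1 f2 hdet fun y hy α β e => ?_⟩
    · have h5 : sq b (j + 2) + sq b j = 2 * b * sq b (j + 1) := by linarith
      rw [hbB]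
      linear_combination sq b (j + 1) * h5 + b * h3
    · have h5 := CP.nb64 hC j y hy β α (by
        rw [e]
        unfold pu
        module)
      unfold Sg64 at h5 ⊢
      rw [neg_neg] at h5 ⊢
      tauto
  rcases hC.sq_dich with ⟨hc, hs⟩ | ⟨m, hm2, -, -, hs⟩
  · -- infinite order
    have hz : ∀ k, Z1 (sq b k) := by
      intro k
      cases k with
      | zero => exact Or.inl rfl
      | succ k => exact Or.inr (hs k)
    by_cases hF : ∃ k, sq b (k + 1) * φ d1 + sq b k * φ d2 < 0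
    · left
      have f1 := Nat.find_spec hF
      have f2 := fun k hk => Nat.find_min hF (m := k) hk
      set n := Nat.find hF with hn
      cases hn' : n with
      | zero =>
        rw [hn'] at f1
        simp at f1
        linarith
      | succ j =>
        rw [hn'] at f1 f2
        exact ⟨j, _, _, _, _, fwd j (hz _) (hz _) (hz _) (not_lt.1 (f2 j (by omega))) f1,
          fun i _ => hs i, Or.inl ⟨rfl, rfl, rfl, rfl⟩⟩
    · push Not at hF
      by_cases hF' : ∃ k, 0 ≤ sq b k * φ d1 + sq b (k + 1) * φ d2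
      · left
        have f1 := Nat.find_spec hF'
        have f2 := fun k hk => Nat.find_min hF' (m := k) hk
        set n := Nat.find hF' with hn
        cases hn' : n with
        | zero =>
          rw [hn'] at f1
          simp at f1
          linarith
        | succ j =>
          rw [hn'] at f1 f2
          exact ⟨j, _, _, _, _, bwd j (hz _) (hz _) (hz _) f1 (not_le.1 (f2 j (by omega))),
            fun i _ => hs i, Or.inr ⟨hc, rfl, rfl, rfl, rfl⟩⟩
      · right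
        push Not at hF'
        obtain ⟨z0, z1, z2, z3⟩ := c.zbar64
        obtain ⟨z0', z1', z2', z3'⟩ := c'.zbar64
        obtain ⟨k, hk⟩ := limgap64 hc h2 hF z1 z2 c.le_zero64 z3
        obtain ⟨k', hk'⟩ := limgap64 hc h2 hF z1' z2' c'.le_zero64 z3'
        have m1 := limmono64 hc z2 hk (k' + 1)
        have m2 := limmono64 hc z2' hk' (k + 1)
        have e1 : k' + (k + 1) = k + (k' + 1) := by omega
        rw [e1] at m2
        exact ⟨hc, _, _, rt2 (k + (k' + 1)) (hz _) (hz _), hs _, hF' _, m1, m2⟩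
  · -- finite order
    left
    have hlast : sq b (m + 1 + 1) * φ d1 + sq b (m + 1) * φ d2 < 0 := by
      have e1 : m + 1 + 1 = m + 2 := rfl
      rw [e1, hm2]
      have := hs m le_rfl
      nlinarith
    have hF : ∃ k, sq b (k + 1) * φ d1 + sq b k * φ d2 < 0 := ⟨m + 1, hlast⟩
    have hle : Nat.find hF ≤ m + 1 := Nat.find_min' hF hlast
    have f1 := Nat.find_spec hF
    have f2 := fun k hk => Nat.find_min hF (m := k) hk
    set n := Nat.find hF with hn
    cases hn' : n with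
    | zero =>
      rw [hn'] at f1
      simp at f1
      linarith
    | succ j =>
      rw [hn'] at f1 f2 hle
      have hz : ∀ k ≤ m + 2, Z1 (sq b k) := by
        intro k hk
        cases k with
        | zero => exact Or.inl rfl
        | succ k =>
          rcases Nat.lt_or_ge k (m + 1) with h3 | h3
          · exact Or.inr (hs k (by omega))
          · have : k = m + 1 := by omega
            rw [this]
            exact Or.inl hm2
      exact ⟨j, _, _, _, _, fwd j (hz _ (by omega)) (hz _ (by omega)) (hz _ (by omega))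
        (not_lt.1 (f2 j (by omega))) f1, fun i hi => hs i (by omega), Or.inl ⟨rfl, rfl, rfl, rfl⟩⟩

/-- **[OF]** -/
theorem of_stat (Ψ : Set E) (B : E →ₗ[ℝ] E →ₗ[ℝ] ℝ) : OFStat Ψ B := by
  intro ρ φ t d1 d2 x x' g x1 x2 g' x1' x2' X
  rcases X.L.oroots64 X.h1 X.h2 X.c X.c' with ⟨k, al1, al2, be1, be2, h, -, -⟩ |
    ⟨hc, be1, be2, h3, h4, h5, h6, h7⟩
  · exact Or.inl ⟨al1, al2, be1, be2, h⟩
  · refine Or.inr ⟨hc, ?_, be1, be2, h3, h4, h5, h6⟩
    intro h0
    have h8 := X.c'.fz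
    rw [h0] at h8
    have h9 := X.h2
    have h10 : be1 * (x1' * φ d1 + x2' * φ d2) = x1' * (be1 * φ d1 + be2 * φ d2) +
      (x2' * be1 - x1' * be2) * φ d2 := by ring
    have h11 : x1' * (be1 * φ d1 + be2 * φ d2) < 0 :=
      mul_neg_of_pos_of_neg (by linarith [X.p1']) h5
    have h12 : (x2' * be1 - x1' * be2) * φ d2 ≤ 0 :=
      mul_nonpos_of_nonneg_of_nonpos (by linarith) h9.le
    have h13 : be1 * (x1' * φ d1 + x2' * φ d2) = 0 := by
      have : x1' * φ d1 + x2' * φ d2 = 0 := by linarith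
      rw [this, mul_zero]
    linarith

end DY
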