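import Mathlib

/-!
# Real inequalities for GAP2, `m1 = 3`, index `j = 4`, `φ(w) < 0` (MP_d13a5e_al)
-/

set_option autoImplicit false

namespace Pool.Agent.Helper64.DY.J4R

/-- index 1 at `w` -/
theorem t0 {s Y W v u w2 : ℝ} (hs : 0 < s) (hs3 : 3 ≤ s ^ 2) (hw2 : w2 = s * Y - W) (hu : Y = v + u)
    (hv : 1 ≤ v) (hz : u = 0 ∨ 1 ≤ u) (hH : 2 < s * (s * Y - 2 * W))
    (hN : W ^ 2 + Y ^ 2 - s * W * Y = 1 + v * u) (hM : u = 0 → s * w2 - Y = 0 ∨ 1 ≤ s * w2 - Y) : s ≤ w2 := by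
  rcases hz with h0 | h1
  · by_contra hcon
    rw [not_le] at hcon
    have hY : 1 ≤ Y := by linarith only [hu, hv, h0]
    have h3 : s * w2 - Y = 0 ∨ 1 ≤ s * w2 - Y := hM h0
    have h4 : s * (s * Y - 2 * W) = 2 * (s * w2) - s ^ 2 * Y := by rw [hw2]; ring
    have h5 : 0 < s * w2 - Y := by nlinarith only [hu, hv, hH, hN, h0, h4]
    have h6 : 1 ≤ s * w2 - Y := by
      rcases h3 with h | h <;> linarith
    have h7 : W * w2 = Y ^ 2 - 1 := by
      rw [h0] at hN
      rw [hw2]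
      linarith only [hN]
    have h8 : s * (Y - 1) < W := by linarith only [hw2, hcon]
    have hw0 : 0 < w2 := by
      have : 0 < s * w2 := by linarith only [hY, h6]
      exact (mul_pos_iff_of_pos_left hs).1 this
    rcases hY.lt_or_eq with h9 | h9
    · have h10 : s * (Y - 1) * w2 < W * w2 := mul_lt_mul_of_pos_right h8 hw0
      have h11 : (Y - 1) * (s * w2) < (Y - 1) * (Y + 1) := by
        rw [h7] at h10
        nlinarith only [h10]
      have h12 := lt_of_mul_lt_mul_left h11 (by linarith only [h9] : 0 ≤ Y - 1)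
      linarith only [h6, h12]
    · rw [← h9] at h7 hw2
      have : W = 0 := by
        have h10 : W * w2 = 0 := by linarith only [h7]
        rcases mul_eq_zero.1 h10 with h | h
        · exact h
        · linarith only [hw0, h]
      rw [this] at hw2
      linarith only [hw2, hcon]
  · have hY : 2 ≤ Y := by linarith only [hu, hv, h1]
    have h2 : s * s < s * w2 := by
      have h3 : s * (s * Y - 2 * W) = 2 * (s * w2) - s ^ 2 * Y := by rw [hw2]; ring
      nlinarith only [hH, hY, h3]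
    exact (lt_of_mul_lt_mul_left h2 hs.le).le

/-- index 2 at `w` -/
theorem t2 {s Y W v u w2 : ℝ} (hs3 : 3 ≤ s ^ 2) (hw2 : w2 = s * Y - W) (hu : Y = v + u)
    (hv : 1 ≤ v) (hz : 1 ≤ u) (hH : 2 < s * (s * Y - 2 * W)) (hC : s * w2 < s ^ 2 + v) : False := by
  have h3 : s * (s * Y - 2 * W) = 2 * (s * w2) - s ^ 2 * Y := by rw [hw2]; ring
  have h4 : 0 ≤ (v - 1) * (s ^ 2 - 2) := mul_nonneg (by linarith only [hv]) (by linarith only [hs3])
  nlinarith only [hu, hz, hH, hC, h3, h4]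

/-- `w2 < z`, `s Y < 2 w2` -/
theorem mono {s Y W w2 z : ℝ} (hw2 : w2 = s * Y - W) (h1 : w2 < z) (h2 : s * Y < 2 * w2) :
    z * (s * Y - z) < W * w2 := by
  have h3 : 0 < (z - w2) * (z + w2 - s * Y) := mul_pos (by linarith only [h1]) (by linarith only [h1, h2])
  have h4 : W = s * Y - w2 := by linarith only [hw2]
  rw [h4]
  nlinarith only [h3]

/-- index 3 at `w` -/
theorem t3 {s l Y W v u w2 : ℝ} (hs : 0 < s) (hl : l = s ^ 2 - 1) (hs3 : 3.24 ≤ s ^ 2) (hw2 : w2 = s * Y - W)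
    (hu : Y = v + u) (hv : 1 ≤ v) (hz : 1 ≤ u) (hH : 2 < s * (s * Y - 2 * W))
    (hN : W ^ 2 + Y ^ 2 - s * W * Y = 1 + v * u) (hC : l * w2 < s * (l + v)) : False := by
  have hl2 : 2.24 ≤ l := by linarith only [hl, hs3]
  have hl0 : 0 < l := by linarith only [hl2]
  obtain ⟨η, hη⟩ : ∃ η, v = l * η := ⟨v / l, by field_simp⟩
  have hη0 : 0 < η := by
    have : 0 < l * η := by rw [← hη]; linarith only [hv]
    exact (mul_pos_iff_of_pos_left hl0).1 this
  have hC' : w2 < s * (1 + η) := by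
    have h1 : l * w2 < l * (s * (1 + η)) := by
      rw [hη] at hC
      nlinarith only [hC]
    exact lt_of_mul_lt_mul_left h1 hl0.le
  have h3 : s * (s * Y - 2 * W) = 2 * (s * w2) - s ^ 2 * Y := by rw [hw2]; ring
  have h4 : s * Y < 2 * w2 := by
    have h5 : s * (s * Y) < s * (2 * w2) := by nlinarith only [hs, hw2, hH]
    exact lt_of_mul_lt_mul_left h5 hs.le
  have h5 := mono hw2 hC' h4
  have h6 : W * w2 = Y ^ 2 - 1 - v * u := by
    rw [hw2]
    linarith only [hN]
  rw [h6, hu, hη] at h5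
  have hG : s * (1 + η) * (s * (l * η + u) - s * (1 + η)) - ((l * η + u) ^ 2 - 1 - l * η * u) =
      (u - 1) * (l + 1 - 2 - (u - 1) + η) + η * (1 + (l + 1) * (l - 2) - η) := by
    have : s ^ 2 = l + 1 := by linarith only [hl]
    have e1 : s * (1 + η) * (s * (l * η + u) - s * (1 + η)) = s ^ 2 * (1 + η) * ((l * η + u) - (1 + η)) := by ring
    rw [e1, this]
    ring
  -- linear bound
  have h7 : s * w2 < s * (s * (1 + η)) := mul_lt_mul_of_pos_left hC' hs
  have h8 : (l + 1) * (u + (l - 2) * η) < 2 * (l + 1) - 2 := by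
    have e1 : s * (s * (1 + η)) = (l + 1) * (1 + η) := by rw [hl]; ring
    rw [e1] at h7
    have e2 : s ^ 2 = l + 1 := by linarith only [hl]
    rw [h3, e2, hu, hη] at hH
    nlinarith only [hH, h7]
  have h9 : 0 ≤ (u - 1) * (l + 1 - 2 - (u - 1) + η) := by
    refine mul_nonneg (by linarith only [hz]) ?_
    have : (l + 1) * (u - 1) < (l + 1) * 1 := by
      have : 0 ≤ (l + 1) * ((l - 2) * η) := by
        have := mul_nonneg (by linarith only [hl2] : 0 ≤ l - 2) hη0.le
        exact mul_nonneg (by linarith only [hl0]) this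
      nlinarith only [h8, this]
    have := lt_of_mul_lt_mul_left this (by linarith only [hl0])
    linarith only [hl2, hη0, this]
  have h10 : 0 ≤ η * (1 + (l + 1) * (l - 2) - η) := by
    refine mul_nonneg hη0.le ?_
    by_contra hcon
    rw [not_le] at hcon
    have k1 : (l + 1) * ((l - 2) * (1 + (l + 1) * (l - 2))) ≤ (l + 1) * ((l - 2) * η) := by
      refine mul_le_mul_of_nonneg_left ?_ (by linarith only [hl0])
      exact mul_le_mul_of_nonneg_left (by linarith only [hcon]) (by linarith only [hl2])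
    have k2 : (l + 1) * ((l - 2) * η) < l - 1 := by nlinarith only [hz, hl0, h8]
    have k3 : 0.24 ≤ l - 2 := by linarith only [hl2]
    have k4 : l - 1 ≤ (l + 1) * ((l - 2) * (1 + (l + 1) * (l - 2))) := by
      obtain ⟨m, hm⟩ : ∃ m, m = l - 2.24 := ⟨_, rfl⟩
      have hm0 : 0 ≤ m := by linarith only [k3, hm]
      have : l = m + 2.24 := by linarith only [hm]
      rw [this]
      nlinarith only [mul_nonneg hm0 hm0, mul_nonneg (mul_nonneg hm0 hm0) hm0, mul_nonneg (mul_nonneg hm0 hm0) (mul_nonneg hm0 hm0)]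
    linarith only [k1, k2, k4]
  linarith only [h5, hG, h9, h10]

/-- large label: `e ≤ 1 / 2` -/
theorem t_big {s e Y W v u w2 : ℝ} (hs : 0 < s) (hs3 : 4 ≤ s ^ 2) (he : e ≤ 1 / 2) (hw2 : w2 = s * Y - W)
    (hu : Y = v + u) (hv : 1 ≤ v) (hz : 1 ≤ u) (hH : 2 < s * (s * Y - 2 * W))
    (hN : W ^ 2 + Y ^ 2 - s * W * Y = 1 + v * u) (hC : w2 < s * (1 + e * v)) : False := by
  obtain ⟨b, hb⟩ : ∃ b, b = s * Y - 2 * W := ⟨_, rfl⟩
  have hb0 : 0 < b := by
    rw [← hb] at hH
    exact (mul_pos_iff_of_pos_left hs).1 (by linarith only [hH])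
  have h1 : b ^ 2 = (s ^ 2 - 4) * Y ^ 2 + 4 + 4 * (v * u) := by
    rw [hb]
    linear_combination 4 * hN
  have h2 : b = 2 * w2 - s * Y := by rw [hb, hw2]; ring
  have h3 : b < s := by
    have h4 : e * v ≤ 1 / 2 * v := mul_le_mul_of_nonneg_right he (by linarith only [hv])
    have h5 : s * (1 + e * v) ≤ s * (1 + 1 / 2 * v) := mul_le_mul_of_nonneg_left (by linarith only [h4]) hs.le
    have h6 : s * (v + 1) ≤ s * Y := mul_le_mul_of_nonneg_left (by linarith only [hu, hz]) hs.le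
    linarith only [hC, h2, h5, h6]
  have h4 : b ^ 2 < s ^ 2 := by nlinarith only [hb0, h3]
  have h5 : 1 ≤ v * u := by nlinarith only [hv, hz]
  have h6 : 4 ≤ Y ^ 2 := by nlinarith only [hu, hv, hz]
  have h7 : (s ^ 2 - 4) * 4 ≤ (s ^ 2 - 4) * Y ^ 2 := mul_le_mul_of_nonneg_left h6 (by linarith only [hs3])
  nlinarith only [hs3, h1, h4, h5, h7]

/-- `m2 ≥ 8` -/
theorem t_8 {s l e Y W v u w2 : ℝ} (hs : 0 < s) (hl : l = s ^ 2 - 1) (hs3 : 3.414 ≤ s ^ 2) (hs4 : s ^ 2 ≤ 4)
    (he : e ≤ 0.5314) (hw2 : w2 = s * Y - W)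
    (hu : Y = v + u) (hv : 1 ≤ v) (hz : 1 ≤ u) (hH : 2 < s * (s * Y - 2 * W))
    (hN : W ^ 2 + Y ^ 2 - s * W * Y = 1 + v * u) (hU : l * w2 ≤ s * ((l ^ 2 - 1) * u))
    (hC : w2 < s * (1 + e * v)) : False := by
  have hl2 : 2.414 ≤ l := by linarith only [hl, hs3]
  have hl3 : l ≤ 3 := by linarith only [hl, hs4]
  have h3 : s * (s * Y - 2 * W) = 2 * (s * w2) - s ^ 2 * Y := by rw [hw2]; ring
  have h4 : s * Y < 2 * w2 := by
    have h5 : s * (s * Y) < s * (2 * w2) := by nlinarith only [hH, h3]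
    exact lt_of_mul_lt_mul_left h5 hs.le
  have hC' : w2 < s * (1 + 0.5314 * v) := by
    have h5 : e * v ≤ 0.5314 * v := mul_le_mul_of_nonneg_right he (by linarith only [hv])
    have h6 : s * (1 + e * v) ≤ s * (1 + 0.5314 * v) := mul_le_mul_of_nonneg_left (by linarith only [h5]) hs.le
    linarith only [hC, h6]
  have h5 := mono hw2 hC' h4
  have h6 : W * w2 = Y ^ 2 - 1 - v * u := by
    rw [hw2]
    linarith only [hN]
  rw [h6, hu] at h5
  have e1 : s * (1 + 0.5314 * v) * (s * (v + u) - s * (1 + 0.5314 * v)) =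
      s ^ 2 * ((1 + 0.5314 * v) * ((u - 1) + 0.4686 * v)) := by ring
  rw [e1] at h5
  have k0 : 0 ≤ (1 + 0.5314 * v) * ((u - 1) + 0.4686 * v) :=
    mul_nonneg (by linarith only [hv]) (by linarith only [hv, hz])
  have k1 : 3.414 * ((1 + 0.5314 * v) * ((u - 1) + 0.4686 * v)) ≤
      s ^ 2 * ((1 + 0.5314 * v) * ((u - 1) + 0.4686 * v)) := mul_le_mul_of_nonneg_right hs3 k0
  -- the two linear bounds
  have h7 : s * w2 < s * (s * (1 + 0.5314 * v)) := mul_lt_mul_of_pos_left hC' hs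
  have hL2 : u < 1.5 + 0.0628 * v := by
    have k2 : s ^ 2 * (v + u) + 2 < s ^ 2 * (2 + 1.0628 * v) := by
      rw [hu] at hH h3
      nlinarith only [hH, h3, h7]
    have k3 : s ^ 2 * (v + u + 0.5) ≤ s ^ 2 * (v + u) + 2 := by linarith only [hs4]
    have k4 := lt_of_mul_lt_mul_left (lt_of_le_of_lt k3 k2) (by positivity)
    linarith only [k4]
  have hL1 : 3 * v + 1.5 < 13 * u := by
    have k2 : s * (l * w2) ≤ s * (s * ((l ^ 2 - 1) * u)) := mul_le_mul_of_nonneg_left hU hs.le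
    have k3 : l * (s ^ 2 * (v + u) + 2) < s ^ 2 * (2 * ((l ^ 2 - 1) * u)) := by
      have k4 : l * 2 < l * (s * (s * Y - 2 * W)) := mul_lt_mul_of_pos_left hH (by linarith only [hl2])
      rw [h3, hu] at k4
      nlinarith only [k2, k4]
    have k5 : s ^ 2 * (l * (v + u + 0.5)) ≤ l * (s ^ 2 * (v + u) + 2) := by nlinarith only [hl, hs3, hs4]
    have k6 := lt_of_mul_lt_mul_left (lt_of_le_of_lt k5 k3) (by positivity)
    have k7 : 3 * (l ^ 2 - 1) ≤ 8 * l := by nlinarith only [hl2, hl3]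
    have k8 : 3 * (l ^ 2 - 1) * u ≤ 8 * l * u := mul_le_mul_of_nonneg_right k7 (by linarith only [hz])
    have k9 : l * (3 * (v + u + 0.5)) < l * (16 * u) := by nlinarith only [k6, k8]
    have k10 := lt_of_mul_lt_mul_left k9 (by linarith only [hl2])
    linarith only [k10]
  have k11 : 0 ≤ (u - 1) * v := mul_nonneg (by linarith only [hz]) (by linarith only [hv])
  have k12 : v * (3 * v + 1.5) ≤ v * (13 * u) := mul_le_mul_of_nonneg_left hL1.le (by linarith only [hv])
  have k13 : (u - 1) * u ≤ (u - 1) * (1.5 + 0.0628 * v) := mul_le_mul_of_nonneg_left hL2.le (by linarith only [hz])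
  nlinarith only [h5, k1, hL1, k11, k12, k13]

/-- the flat bound with numbers -/
theorem q7 {s u v : ℝ} (hs1 : 1.8019 < s) (hs2 : s < 1.802) (hz : 1 ≤ u) (hv : 0.802 * u ≤ v)
    (h8 : s ^ 2 * u * (s * (v + u) - s ^ 2 * u) ≤ (v + u) ^ 2 - 1 - v * u) :
    5.8504 * (u * (v - 0.802 * u)) ≤ (v + u) ^ 2 - 1 - v * u := by
  have hs : 0 < s := by linarith only [hs1]
  have hs3 : 3.24684 ≤ s ^ 2 := by nlinarith only [hs1]
  have e1 : s ^ 2 * u * (s * (v + u) - s ^ 2 * u) = s ^ 3 * (u * (v - (s - 1) * u)) := by ring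
  rw [e1] at h8
  have k2 : 5.8504 ≤ s ^ 3 := by
    have : s ^ 3 = s * s ^ 2 := by ring
    rw [this]
    nlinarith only [hs, hs3]
  have k3 : u * (v - 0.802 * u) ≤ u * (v - (s - 1) * u) := by
    refine mul_le_mul_of_nonneg_left ?_ (by linarith only [hz])
    have : (s - 1) * u ≤ 0.802 * u := mul_le_mul_of_nonneg_right (by linarith only [hs2]) (by linarith only [hz])
    linarith only [this]
  have k4 : 0 ≤ u * (v - 0.802 * u) := mul_nonneg (by linarith only [hz]) (by linarith only [hv])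
  have k5 : 5.8504 * (u * (v - 0.802 * u)) ≤ s ^ 3 * (u * (v - (s - 1) * u)) := by
    calc 5.8504 * (u * (v - 0.802 * u)) ≤ s ^ 3 * (u * (v - 0.802 * u)) := mul_le_mul_of_nonneg_right k2 k4
      _ ≤ _ := mul_le_mul_of_nonneg_left k3 (by positivity)
  linarith only [h8, k5]

theorem n1 {u v : ℝ} (hz : 1 ≤ u) (h1 : v + u < 3.604 * u)
    (h : 5.8504 * (u * (v - 0.802 * u)) ≤ (v + u) ^ 2 - 1 - v * u) : v ≤ 2 * u := by
  by_contra hcon
  rw [not_le] at hcon
  have k1 : 0 < (v - 2 * u) * (2.604 * u - v) := mul_pos (by linarith only [hcon]) (by linarith only [h1])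
  have k2 : 0 < u * (v - 2 * u) := mul_pos (by linarith only [hz]) (by linarith only [hcon])
  have k3 : 0 < u * u := by positivity
  linarith only [h, k1, k2, k3]

theorem n2 {u v : ℝ} (hz : 1 ≤ u) (h1 : v ≤ 2 * u) (h4 : u < 1.4)
    (h : 5.8504 * (u * (v - 0.802 * u)) ≤ (v + u) ^ 2 - 1 - v * u) : v ≤ 1.62 * u := by
  by_contra hcon
  rw [not_le] at hcon
  have k1 : 0 ≤ (v - 1.62 * u) * (2 * u - v) := mul_nonneg (by linarith only [hcon]) (by linarith only [h1])
  have k6 : u * u ≤ 1.4 * 1.4 := mul_le_mul h4.le h4.le (by linarith only [hz]) (by norm_num)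
  have k7 : 0 < u * (v - 1.62 * u) := mul_pos (by linarith only [hz]) (by linarith only [hcon])
  linarith only [h, k1, k6, k7]

theorem n3 {u v : ℝ} (hz : 1.4 ≤ u) (hv : 1 ≤ v) (h1 : v ≤ 2 * u) (h2 : u < 1.3842 + 0.2236 * v)
    (hG : 3.2468 * ((1 + 0.6118 * v) * ((u - 1) + 0.3882 * v)) < (v + u) ^ 2 - 1 - v * u) : False := by
  have k1 : v * v ≤ v * (2 * u) := mul_le_mul_of_nonneg_left h1 (by linarith only [hv])
  rcases le_or_gt u 2.2 with h9 | h9
  · have k2 : 0 ≤ (u - 1.4) * (2.2 - u) := mul_nonneg (by linarith only [hz]) (by linarith only [h9])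
    have k3 : 0 ≤ (v - 1) * (u - 1.4) := mul_nonneg (by linarith only [hv]) (by linarith only [hz])
    nlinarith only [hz, h1, h2, hG]
  · have k4 : 3.6 ≤ v := by linarith only [h2, h9]
    have k5 : u ≤ 2.6 := by linarith only [h1, h2]
    have k3 : 0 ≤ (v - 3.6) * (u - 1.4) := mul_nonneg (by linarith only [k4]) (by linarith only [h9])
    have k2 : 0 ≤ (u - 2.2) * (2.6 - u) := mul_nonneg (by linarith only [h9]) (by linarith only [k5])
    nlinarith only [hz, h2, hG, k1]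

theorem n4 {u v : ℝ} (hz : 1 ≤ u) (hv : 1 ≤ v) (h1 : v ≤ 1.62 * u) (h4 : u < 1.4)
    (h : 3.2468 * (1 + v * u) ≤ (v + u) ^ 2) : False := by
  have k1 : v * v ≤ v * (1.62 * u) := mul_le_mul_of_nonneg_left h1 (by linarith only [hv])
  have k2 : v * u ≤ 1.62 * u * u := mul_le_mul_of_nonneg_right h1 (by linarith only [hv, h1])
  have k6 : u * u ≤ 1.4 * 1.4 := mul_le_mul h4.le h4.le (by linarith only [hz]) (by norm_num)
  have k7 : 0 ≤ v * u := mul_nonneg (by linarith only [h, k1, k2, k6]) (by linarith only [h, k1, k2, k6])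
  nlinarith only [hv, h1, h4, h]

/-- `m2 = 7` -/
theorem t_7 {s e Y W v u w2 : ℝ} (hs1 : 1.8019 < s) (hs2 : s < 1.802)
    (he : e ≤ 0.6118) (hw2 : w2 = s * Y - W)
    (hu : Y = v + u) (hv : 1 ≤ v) (hz : 1 ≤ u) (hH : 2 < s * (s * Y - 2 * W))
    (hN : W ^ 2 + Y ^ 2 - s * W * Y = 1 + v * u) (hU : w2 ≤ s ^ 2 * u) (hY : Y ≤ s * W)
    (hC : w2 < s * (1 + e * v)) : False := by
  have hs : 0 < s := by linarith only [hs1]
  have hs3 : 3.2468 ≤ s ^ 2 := by nlinarith only [hs1]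
  have hs4 : s ^ 2 ≤ 3.2473 := by nlinarith only [hs1, hs2]
  have h3 : s * (s * Y - 2 * W) = 2 * (s * w2) - s ^ 2 * Y := by rw [hw2]; ring
  have h4 : s * Y < 2 * w2 := by
    have h5 : s * (s * Y) < s * (2 * w2) := by
      have : s * (s * Y) = s ^ 2 * Y := by ring
      rw [this]
      linarith only [hH, h3]
    exact lt_of_mul_lt_mul_left h5 hs.le
  have hC' : w2 < s * (1 + 0.6118 * v) := by
    have h5 : e * v ≤ 0.6118 * v := mul_le_mul_of_nonneg_right he (by linarith only [hv])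
    have h6 : s * (1 + e * v) ≤ s * (1 + 0.6118 * v) := mul_le_mul_of_nonneg_left (by linarith only [h5]) hs.le
    linarith only [hC, h6]
  have h5 := mono hw2 hC' h4
  have h6 : W * w2 = Y ^ 2 - 1 - v * u := by
    rw [hw2]
    linarith only [hN]
  have hG : 3.2468 * ((1 + 0.6118 * v) * ((u - 1) + 0.3882 * v)) < (v + u) ^ 2 - 1 - v * u := by
    rw [h6, hu] at h5
    have e1 : s * (1 + 0.6118 * v) * (s * (v + u) - s * (1 + 0.6118 * v)) =
        s ^ 2 * ((1 + 0.6118 * v) * ((u - 1) + 0.3882 * v)) := by ring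
    rw [e1] at h5
    have k0 : 0 ≤ (1 + 0.6118 * v) * ((u - 1) + 0.3882 * v) :=
      mul_nonneg (by linarith only [hv]) (by linarith only [hv, hz])
    have k1 : 3.2468 * ((1 + 0.6118 * v) * ((u - 1) + 0.3882 * v)) ≤
        s ^ 2 * ((1 + 0.6118 * v) * ((u - 1) + 0.3882 * v)) := mul_le_mul_of_nonneg_right hs3 k0
    linarith
  -- linear bound
  have h7 : s * w2 < s * (s * (1 + 0.6118 * v)) := mul_lt_mul_of_pos_left hC' hs
  have hL2 : u < 1.3842 + 0.2236 * v := by
    have k2 : s ^ 2 * (v + u) + 2 < s ^ 2 * (2 + 1.2236 * v) := by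
      have e2 : s * (s * (1 + 0.6118 * v)) = s ^ 2 * (1 + 0.6118 * v) := by ring
      rw [e2] at h7
      rw [h3, hu] at hH
      linarith only [hH, h7]
    have k3 : s ^ 2 * (v + u + 0.6158) ≤ s ^ 2 * (v + u) + 2 := by linarith only [hs4]
    have k4 := lt_of_mul_lt_mul_left (lt_of_le_of_lt k3 k2) (by positivity)
    linarith
  -- the flat `u`
  have h8 : s ^ 2 * u * (s * Y - s ^ 2 * u) ≤ W * w2 := by
    have k1 : 0 ≤ (s ^ 2 * u - w2) * (s ^ 2 * u + w2 - s * Y) := mul_nonneg (by linarith only [hU]) (by linarith only [hU, h4])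
    have k2 : W = s * Y - w2 := by linarith only [hw2]
    have k3 : (s ^ 2 * u - w2) * (s ^ 2 * u + w2 - s * Y) =
      (s * Y - w2) * w2 - s ^ 2 * u * (s * Y - s ^ 2 * u) := by ring
    rw [k2]
    linarith only [k1]
  have hL1 : v + u < 3.604 * u := by
    have k1 : s * Y < s * (2 * s * u) := by
      have e2 : s * (2 * s * u) = 2 * (s ^ 2 * u) := by ring
      rw [e2]
      linarith only [hU, h4]
    have k2 := lt_of_mul_lt_mul_left k1 hs.le
    rw [hu] at k2
    have k3 : 2 * s * u ≤ 3.604 * u := mul_le_mul_of_nonneg_right (by linarith only [hs2]) (by linarith only [hz])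
    linarith only [k2, k3]
  rw [h6, hu] at h8
  have hv2 : v ≤ 2 * u := by
    rcases le_or_gt (0.802 * u) v with h9 | h9
    · exact n1 hz hL1 (q7 hs1 hs2 hz h9 h8)
    · linarith only [hL1, h9]
  rcases le_or_gt 1.4 u with hu4 | hu4
  · exact n3 hu4 hv hv2 hL2 hG
  · have hv3 : v ≤ 1.62 * u := by
      rcases le_or_gt (0.802 * u) v with h9 | h9
      · exact n2 hz hv2 hu4 (q7 hs1 hs2 hz h9 h8)
      · linarith only [hv2, h9]
    refine n4 hz hv hv3 hu4 ?_
    have h9 : s ^ 2 * (1 + v * u) ≤ (v + u) ^ 2 := by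
      have k2 : 0 ≤ (s * W - Y) * (s ^ 2 * Y - s * W - Y) := by
        refine mul_nonneg (by linarith only [hY]) ?_
        have k4 : s ^ 2 * Y - s * W = s * w2 := by rw [hw2]; ring
        rw [k4]
        have k5 : s * (s * Y) < s * (2 * w2) := mul_lt_mul_of_pos_left h4 hs
        have k6 : 2 * Y ≤ s * (s * Y) := by
          have : s * (s * Y) = s ^ 2 * Y := by ring
          rw [this]
          exact mul_le_mul_of_nonneg_right (by linarith only [hs3]) (by linarith only [hu, hv, hz])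
        linarith only [k5, k6]
      have k3 : (s * W - Y) * (s ^ 2 * Y - s * W - Y) =
          s ^ 2 * (W * (s * Y - W)) - (s ^ 2 - 1) * Y ^ 2 := by ring
      rw [k3, ← hw2, h6] at k2
      rw [hu] at k2
      linarith only [k2]
    have k8 : 3.2468 * (1 + v * u) ≤ s ^ 2 * (1 + v * u) := by
      refine mul_le_mul_of_nonneg_right hs3 ?_
      have : 0 ≤ v * u := mul_nonneg (by linarith only [hv]) (by linarith only [hz])
      linarith only [this]
    linarith only [h9, k8]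

end Pool.Agent.Helper64.DY.J4R
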