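import Mathlib

/-!
# Real inequalities for GAP2, `m1 = 3`, index `j = 5`, `φ(w) < 0` (MP_d13a5e_al)
-/

set_option autoImplicit false

namespace Pool.Agent.Helper64.DY.J5R

/-- bounds for `τ = (s + 1) / (s ^ 2 + s - 1)` -/
theorem tau {s τ : ℝ} (hs1 : 1.8 ≤ s) (hs2 : s ≤ 2) (hτ : (s ^ 2 + s - 1) * τ = s + 1) :
    0.6 ≤ τ ∧ s * τ ≤ 2 ∧ 2 * τ ≤ s ∧ 0 < τ := by
  have h0 : 0 < s ^ 2 + s - 1 := by nlinarith
  have h1 : 0.6 ≤ τ := by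
    have : (s ^ 2 + s - 1) * 0.6 ≤ (s ^ 2 + s - 1) * τ := by
      rw [hτ]
      nlinarith
    exact le_of_mul_le_mul_left this h0
  refine ⟨h1, ?_, ?_, by linarith⟩
  · have : (s ^ 2 + s - 1) * (s * τ) ≤ (s ^ 2 + s - 1) * 2 := by
      have e1 : (s ^ 2 + s - 1) * (s * τ) = s * ((s ^ 2 + s - 1) * τ) := by ring
      rw [e1, hτ]
      nlinarith
    exact le_of_mul_le_mul_left this h0
  · have : (s ^ 2 + s - 1) * (2 * τ) ≤ (s ^ 2 + s - 1) * s := by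
      have e1 : (s ^ 2 + s - 1) * (2 * τ) = 2 * ((s ^ 2 + s - 1) * τ) := by ring
      rw [e1, hτ]
      nlinarith
    exact le_of_mul_le_mul_left this h0

/-- index 1 -/
theorem t0 {s τ Y v u : ℝ} (hs1 : 1.8 ≤ s) (hs2 : s ≤ 2) (hτ : (s ^ 2 + s - 1) * τ = s + 1)
    (hv : 1 ≤ v) (hu : 0 ≤ u) (hH : v + 2 * u + 2 * τ < s * Y) (hC : Y < 1 + τ * u) : False := by
  obtain ⟨h1, h2, -, -⟩ := tau hs1 hs2 hτ
  have h3 : s * Y < s * (1 + τ * u) := mul_lt_mul_of_pos_left hC (by linarith)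
  have h4 : s * τ * u ≤ 2 * u := mul_le_mul_of_nonneg_right h2 hu
  nlinarith

/-- index 2, `u ≥ 1` -/
theorem t2 {s τ Y v u : ℝ} (hs1 : 1.8 ≤ s) (hs2 : s ≤ 2) (hτ : (s ^ 2 + s - 1) * τ = s + 1)
    (hv : 1 ≤ v) (hu : 1 ≤ u) (hH : v + 2 * u + 2 * τ < s * Y) (hC : s ^ 2 * Y < s ^ 2 * (1 + τ * u) + v) :
    False := by
  obtain ⟨h1, h2, h3, h4⟩ := tau hs1 hs2 hτ
  have h5 : s * (v + 2 * u + 2 * τ) < s * (s * Y) := mul_lt_mul_of_pos_left hH (by linarith)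
  have h6 : 0 ≤ (2 - s * τ) * (u - 1) := mul_nonneg (by linarith) (by linarith)
  have h7 : 0 ≤ s * ((2 - s * τ) * (u - 1)) := mul_nonneg (by linarith) h6
  have h8 : 0 ≤ s * ((2 - s) * (1 + τ)) := mul_nonneg (by linarith) (mul_nonneg (by linarith) (by linarith))
  have h9 : 0 < v * (s - 1) := mul_pos (by linarith) (by linarith)
  nlinarith

/-- index 2, `u = 0` -/
theorem t20 {s Y v : ℝ} (hs1 : 1.8 ≤ s) (hs2 : s ≤ 2) (hv : 1 ≤ v) (hN : v ^ 2 + Y ^ 2 - s * v * Y = 1)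
    (hk : s * (s ^ 2 - 2) * v < (s ^ 2 - 1) * Y) (hC : s ^ 2 * Y < s ^ 2 + v) : False := by
  have hσ : 3.24 ≤ s ^ 2 := by nlinarith
  have hσ4 : s ^ 2 ≤ 4 := by nlinarith
  have hY : s * v < 2 * Y := by
    have h1 : (s ^ 2 - 1) * (s * v) ≤ 2 * (s * (s ^ 2 - 2) * v) := by
      have : 0 ≤ s * v * (s ^ 2 - 3) := mul_nonneg (mul_nonneg (by linarith) (by linarith)) (by linarith)
      linarith
    have h2 : (s ^ 2 - 1) * (s * v) < (s ^ 2 - 1) * (2 * Y) := by linarith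
    exact lt_of_mul_lt_mul_left h2 (by linarith)
  -- the linear bound
  have h1 : v < 1.5 := by
    by_contra hcon
    rw [not_lt] at hcon
    have k1 : s ^ 2 * (s * (s ^ 2 - 2) * v) < s ^ 2 * ((s ^ 2 - 1) * Y) := mul_lt_mul_of_pos_left hk (by linarith)
    have k2 : (s ^ 2 - 1) * (s ^ 2 * Y) < (s ^ 2 - 1) * (s ^ 2 + v) := mul_lt_mul_of_pos_left hC (by linarith)
    have k3 : v * (s ^ 2 * (s * (s ^ 2 - 2)) - (s ^ 2 - 1)) < (s ^ 2 - 1) * s ^ 2 := by linarith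
    have k5 : s * (s ^ 2 - 2) ≥ 1.8 * (s ^ 2 - 2) := mul_le_mul_of_nonneg_right hs1 (by linarith)
    have k6 : s ^ 2 * (1.8 * (s ^ 2 - 2)) ≤ s ^ 2 * (s * (s ^ 2 - 2)) := mul_le_mul_of_nonneg_left k5 (by linarith)
    have k4 : 0 ≤ s ^ 2 * (s * (s ^ 2 - 2)) - (s ^ 2 - 1) := by nlinarith
    have k7 : 1.5 * (s ^ 2 * (s * (s ^ 2 - 2)) - (s ^ 2 - 1)) ≤ v * (s ^ 2 * (s * (s ^ 2 - 2)) - (s ^ 2 - 1)) :=
      mul_le_mul_of_nonneg_right hcon k4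
    nlinarith
  -- the quadratic bound
  have k1 : 0 < (s ^ 2 + v - s ^ 2 * Y) * (s ^ 2 + v + s ^ 2 * Y - s ^ 2 * (s * v)) := by
    refine mul_pos (by linarith) ?_
    have : s ^ 2 * (s * v) < s ^ 2 * (2 * Y) := mul_lt_mul_of_pos_left hY (by linarith)
    linarith
  have k2 : (s ^ 2 + v - s ^ 2 * Y) * (s ^ 2 + v + s ^ 2 * Y - s ^ 2 * (s * v)) =
      v * (2 * s ^ 2 - s * s ^ 4 + v * (1 - s * s ^ 2 + s ^ 4)) := by
    linear_combination (-(s ^ 4)) * hN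
  rw [k2] at k1
  have k3 := (mul_pos_iff_of_pos_left (by linarith : 0 < v)).1 k1
  have k4 : 0 ≤ 1 - s * s ^ 2 + s ^ 4 := by nlinarith
  have k5 : v * (1 - s * s ^ 2 + s ^ 4) ≤ 1.5 * (1 - s * s ^ 2 + s ^ 4) := mul_le_mul_of_nonneg_right h1.le k4
  have k6 : 1.8 * s ^ 4 ≤ s * s ^ 4 := mul_le_mul_of_nonneg_right hs1 (by positivity)
  have k7 : 1.8 * s ^ 2 ≤ s * s ^ 2 := mul_le_mul_of_nonneg_right hs1 (by positivity)
  nlinarith

/-- index `≥ 3`, `u = 0` -/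
theorem te0 {s e Y v : ℝ} (hs1 : 1.8 ≤ s) (hs2 : s ≤ 2) (hv : 1 ≤ v) (hN : v ^ 2 + Y ^ 2 - s * v * Y = 1)
    (hee : e ^ 2 - (s ^ 2 - 1) * e + 1 = 0) (he0 : 0 < e) (hse : s * e ≤ 1.1087)
    (hk : (s ^ 2 - 1) * v < s * Y) (hC : Y < 1 + e * v) : False := by
  have hσ : 3.24 ≤ s ^ 2 := by nlinarith
  have hσ4 : s ^ 2 ≤ 4 := by nlinarith
  have h1 : v < 1.6 := by
    by_contra hcon
    rw [not_lt] at hcon
    have k1 : s * Y < s * (1 + e * v) := mul_lt_mul_of_pos_left hC (by linarith)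
    have k2 : v * (s ^ 2 - 1 - s * e) < s := by nlinarith
    have k3 : 1.6 * (s ^ 2 - 1 - s * e) ≤ v * (s ^ 2 - 1 - s * e) :=
      mul_le_mul_of_nonneg_right hcon (by linarith)
    nlinarith
  have hY : s * v < 2 * Y := by
    have k1 : s * (s * v) < s * (2 * Y) := by
      have : 0 ≤ v * (s ^ 2 - 2) := mul_nonneg (by linarith) (by linarith)
      nlinarith
    exact lt_of_mul_lt_mul_left k1 (by linarith)
  have k1 : 0 < (1 + e * v - Y) * (1 + e * v + Y - s * v) := mul_pos (by linarith) (by linarith)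
  have k2 : (1 + e * v - Y) * (1 + e * v + Y - s * v) = v * (2 * e - s + v * (e ^ 2 - s * e + 1)) := by
    linear_combination (-1 : ℝ) * hN
  rw [k2] at k1
  have k3 := (mul_pos_iff_of_pos_left (by linarith : 0 < v)).1 k1
  have k4 : e ^ 2 - s * e + 1 = e * (s ^ 2 - s - 1) := by linear_combination hee
  rw [k4] at k3
  have k5 : v * (e * (s ^ 2 - s - 1)) ≤ 1.6 * (e * (s ^ 2 - s - 1)) := by
    refine mul_le_mul_of_nonneg_right h1.le (mul_nonneg he0.le ?_)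
    nlinarith
  have k6 : s < e * (1.6 * (s ^ 2 - s - 1) + 2) := by linarith
  have k7 : s * s < s * (e * (1.6 * (s ^ 2 - s - 1) + 2)) := mul_lt_mul_of_pos_left k6 (by linarith)
  have k8 : s * e * (1.6 * (s ^ 2 - s - 1) + 2) ≤ 1.1087 * (1.6 * (s ^ 2 - s - 1) + 2) := by
    refine mul_le_mul_of_nonneg_right hse ?_
    nlinarith
  nlinarith

/-- index `≥ 3`, `u ≥ 1`, `s e ≤ 1` -/
theorem te1 {s e τ Y v u : ℝ} (hs1 : 1.8 ≤ s) (hs2 : s ≤ 2) (hτ : (s ^ 2 + s - 1) * τ = s + 1)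
    (hv : 1 ≤ v) (hu : 1 ≤ u) (hse : s * e ≤ 1) (hH : v + 2 * u + 2 * τ < s * Y)
    (hC : Y < 1 + τ * u + e * v) : False := by
  obtain ⟨h1, h2, h3, h4⟩ := tau hs1 hs2 hτ
  have h5 : s * Y < s * (1 + τ * u + e * v) := mul_lt_mul_of_pos_left hC (by linarith)
  have h6 : 0 ≤ (2 - s * τ) * (u - 1) := mul_nonneg (by linarith) (by linarith)
  have h8 : 0 ≤ (2 - s) * (1 + τ) := mul_nonneg (by linarith) (by linarith)
  have h9 : 0 ≤ v * (1 - s * e) := mul_nonneg (by linarith) (by linarith)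
  nlinarith

/-- index `≥ 3`, `u ≥ 1`, `m2 = 7` -/
theorem te7 {s e τ Y v u : ℝ} (hs1 : 1.8019 < s) (hs2 : s < 1.802) (hτ : (s ^ 2 + s - 1) * τ = s + 1)
    (hv : 1 ≤ v) (hu : 1 ≤ u) (he : e ≤ 0.6118) (he0 : 0 < e) (hH : v + 2 * u + 2 * τ < s * Y)
    (hk : 2.8 * u ≤ v → (s ^ 2 - 1) * v ≤ s * Y)
    (hC : Y < 1 + τ * u + e * v) : False := by
  obtain ⟨h1, h2, h3, h4⟩ := tau (by linarith) (by linarith) hτ
  have hτ1 : 0.69 ≤ τ := by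
    have h0 : 0 < s ^ 2 + s - 1 := by nlinarith
    have : (s ^ 2 + s - 1) * 0.69 ≤ (s ^ 2 + s - 1) * τ := by
      rw [hτ]
      nlinarith
    exact le_of_mul_le_mul_left this h0
  have hτ2 : τ ≤ 0.6935 := by
    have h0 : 0 < s ^ 2 + s - 1 := by nlinarith
    have : (s ^ 2 + s - 1) * τ ≤ (s ^ 2 + s - 1) * 0.6935 := by
      rw [hτ]
      nlinarith
    exact le_of_mul_le_mul_left this h0
  have hse : s * e ≤ 1.1025 := by nlinarith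
  have h5 : s * Y < s * (1 + τ * u + e * v) := mul_lt_mul_of_pos_left hC (by linarith)
  have hst : s * τ ≤ 1.2497 := by nlinarith
  have h6 : 2.8 * u ≤ v := by
    have k1 : v * (s * e - 1) ≤ v * 0.1025 := mul_le_mul_of_nonneg_left (by linarith) (by linarith)
    have k2 : u * (s * τ) ≤ u * 1.2497 := mul_le_mul_of_nonneg_left hst (by linarith)
    nlinarith
  have h7 := hk h6
  have k1 : v * (s ^ 2 - 1 - s * e) < s * (1 + τ * u) := by nlinarith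
  have k2 : v * 1.144 ≤ v * (s ^ 2 - 1 - s * e) := by
    refine mul_le_mul_of_nonneg_left ?_ (by linarith)
    nlinarith
  have k3 : u * (s * τ) ≤ u * 1.2497 := mul_le_mul_of_nonneg_left hst (by linarith)
  nlinarith

/-- `s e ≤ 1` for `m2 ≥ 8` -/
theorem se8 {s e : ℝ} (hs0 : 0 < s) (hs : 3.414 ≤ s ^ 2) (hee : e ^ 2 - (s ^ 2 - 1) * e + 1 = 0) (he0 : 0 < e)
    (he1 : e ≤ 1) : s * e ≤ 1 := by
  by_contra hcon
  rw [not_le] at hcon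
  have h1 : 1.8477 < s := by nlinarith
  have h2 : (s * e) ^ 2 - s * (s ^ 2 - 1) * (s * e) + s ^ 2 = 0 := by linear_combination s ^ 2 * hee
  have h3 : s * e ≤ s := by nlinarith
  obtain ⟨q, hq⟩ : ∃ q, q = s * e := ⟨_, rfl⟩
  rw [← hq] at h2 h3 hcon
  have h4 : 0 ≤ (q - 1) * (s - q) := mul_nonneg (by linarith) (by linarith)
  -- `q^2 ≤ (s + 1) q - s`
  have h5 : q * (s * (s ^ 2 - 1) - (s + 1)) ≤ s ^ 2 - s := by nlinarith
  have h6 : 0 < s * (s ^ 2 - 1) - (s + 1) := by nlinarith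
  have h7 : 1 * (s * (s ^ 2 - 1) - (s + 1)) < q * (s * (s ^ 2 - 1) - (s + 1)) :=
    mul_lt_mul_of_pos_right hcon h6
  have h8 : s ^ 2 + 1 ≤ s * (s ^ 2 - 1) := by nlinarith
  linarith

/-- `e ≤ 0.5314` for `m2 ≥ 8` -/
theorem e8 {s e : ℝ} (hs : 3.414 ≤ s ^ 2) (hee : e ^ 2 - (s ^ 2 - 1) * e + 1 = 0) (he0 : 0 < e)
    (he1 : e ≤ 1) : e ≤ 0.5314 := by
  by_contra hcon
  rw [not_le] at hcon
  have h1 : 2.414 * e ≤ (s ^ 2 - 1) * e := mul_le_mul_of_nonneg_right (by linarith) he0.le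
  nlinarith

/-- `e ≤ 0.6118` for `m2 = 7` -/
theorem e7 {s e : ℝ} (hs : 1.8019 < s) (hee : e ^ 2 - (s ^ 2 - 1) * e + 1 = 0) (he0 : 0 < e)
    (he1 : e ≤ 1) : e ≤ 0.6118 := by
  by_contra hcon
  rw [not_le] at hcon
  have h0 : 2.24684 ≤ s ^ 2 - 1 := by nlinarith
  have h1 : 2.24684 * e ≤ (s ^ 2 - 1) * e := mul_le_mul_of_nonneg_right h0 he0.le
  nlinarith

/-- `e ≤ 1 / 2` for `s ≥ 2` -/
theorem e2 {s e : ℝ} (hs : 4 ≤ s ^ 2) (hee : e ^ 2 - (s ^ 2 - 1) * e + 1 = 0) (he0 : 0 < e)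
    (he1 : e ≤ 1) : e ≤ 1 / 2 := by
  by_contra hcon
  rw [not_le] at hcon
  have h1 : 3 * e ≤ (s ^ 2 - 1) * e := mul_le_mul_of_nonneg_right (by linarith) he0.le
  nlinarith

end Pool.Agent.Helper64.DY.J5R
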