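import Pool.Agent.Helper64.DY.G3
import Pool.Agent.Helper64.DY.J4R
import Pool.Agent.Helper64.DY.J5R
import Pool.Agent.Helper62.DY.CaseI

/-!
# GAP2, `m1 = 3`, `φ(w) < 0`, index `j = 4` and `j = 5`: real statements with root coordinates (MP_d13a5e_al)
-/

set_option autoImplicit false

namespace Pool.Agent.Helper64.DY.J45

open _root_.DY (Z1 C01 Tri rf Loc Crd Xs Good Str sq)
open Pool.Agent.Helper62.DY (RT rt_of_tri sq_rec sq_zero)

/-- labels with `s ^ 2 > 3`: `m = 7` or `s ^ 2 ≥ 2 + √2` -/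
theorem lab7 {b1 b2 bO : ℝ} {R : ℝ → ℝ → ℝ → Prop} (h : RT b1 b2 bO R) {s : ℝ} (hs : s = 2 * b2) (hs0 : 0 < s)
    (hs1 : 3 < s ^ 2) : (s ^ 3 - s ^ 2 - 2 * s + 1 = 0 ∧ 1.8019 < s ∧ s < 1.802) ∨ 3.414 ≤ s ^ 2 := by
  have e2 := h.e2
  have r1 := h.r0 _ _ _ e2
  have q1 : 2 * b1 * 0 + 2 * b2 * 1 - 0 = s := by rw [hs]; ring
  rw [q1] at r1
  have r2 := h.r2 _ _ _ r1
  have q2 : 2 * b2 * s + 2 * bO * 0 - 1 = s ^ 2 - 1 := by rw [hs]; ring
  rw [q2] at r2
  have r3 := h.r0 _ _ _ r2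
  have q3 : 2 * b1 * 0 + 2 * b2 * (s ^ 2 - 1) - s = s ^ 3 - 2 * s := by rw [hs]; ring
  rw [q3] at r3
  have r4 := h.r2 _ _ _ r3
  have q4 : 2 * b2 * (s ^ 3 - 2 * s) + 2 * bO * 0 - (s ^ 2 - 1) = s ^ 4 - 3 * s ^ 2 + 1 := by rw [hs]; ring
  rw [q4] at r4
  have r5 := h.r0 _ _ _ r4
  have q5 : 2 * b1 * 0 + 2 * b2 * (s ^ 4 - 3 * s ^ 2 + 1) - (s ^ 3 - 2 * s) = s * (s ^ 2 - 1) * (s ^ 2 - 3) := by
    rw [hs]; ring
  rw [q5] at r5
  have r6 := h.r2 _ _ _ r5
  have q6 : 2 * b2 * (s * (s ^ 2 - 1) * (s ^ 2 - 3)) + 2 * bO * 0 - (s ^ 4 - 3 * s ^ 2 + 1) =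
      s ^ 6 - 5 * s ^ 4 + 6 * s ^ 2 - 1 := by
    rw [hs]; ring
  rw [q6] at r6
  have h6 : 0 < s * (s ^ 2 - 1) * (s ^ 2 - 3) := mul_pos (mul_pos hs0 (by linarith only [hs1])) (by linarith only [hs1])
  have hs17 : 1.73 < s := by nlinarith only [hs0, hs1]
  rcases (h.z0 r6 h6).2.2 with h7 | h7
  · left
    have h8 : (s ^ 3 - s ^ 2 - 2 * s + 1) * (s ^ 3 + s ^ 2 - 2 * s - 1) = 0 := by linarith only [h7]
    have h9 : 0 < s ^ 3 + s ^ 2 - 2 * s - 1 := by
      have : s ^ 3 = s * s ^ 2 := by ring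
      rw [this]
      nlinarith only [hs17]
    have h10 : s ^ 3 - s ^ 2 - 2 * s + 1 = 0 := by
      rcases mul_eq_zero.1 h8 with h | h
      · exact h
      · linarith only [h9, h]
    refine ⟨h10, ?_, ?_⟩
    · by_contra hcon
      rw [not_lt] at hcon
      have k1 : 0 ≤ (1.8019 - s) * (s - 1.73) := mul_nonneg (by linarith only [hcon]) (by linarith only [hs17])
      have k2 : 0 ≤ (1.8019 - s) * (s ^ 2 - 3) := mul_nonneg (by linarith only [hcon]) (by linarith only [hs1])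
      nlinarith only [h10, k1]
    · by_contra hcon
      rw [not_lt] at hcon
      have k1 : 0 ≤ (s - 1.802) * (s - 1) := mul_nonneg (by linarith only [hcon]) (by linarith only [hcon])
      have k2 : 0 ≤ (s - 1.802) * (s ^ 2 - 3) := mul_nonneg (by linarith only [hcon]) (by linarith only [hcon, k1])
      nlinarith only [h10, hcon]
  · right
    have h8 : 0 ≤ (s ^ 2 - 1) * (s ^ 4 - 4 * s ^ 2 + 2) := by linarith only [h7]
    have h9 := (mul_nonneg_iff_of_pos_left (by linarith only [hs1] : 0 < s ^ 2 - 1)).1 h8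
    by_contra hcon
    rw [not_le] at hcon
    have k1 : 0 ≤ (3.414 - s ^ 2) * (s ^ 2 - 3) := mul_nonneg (by linarith only [hcon]) (by linarith only [hs1])
    nlinarith only [h9, k1]

/-- the strips of `w` -/
theorem strips {l al r c f : ℝ} (hS : Str c f r) (hc : c = l / 2) (hl : 2 < l) (hf : f = -al) (hal : 0 < al) :
    (l * al < 1 → 0 < r) ∧ (1 ≤ l * al → (l ^ 2 - 1) * al < l → -1 < (l + 1) * r) ∧
      (1 ≤ l * al → l ≤ (l ^ 2 - 1) * al → (l ^ 3 - 2 * l) * al < l ^ 2 - 1 → -1 < l * r) ∧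
      ∀ e, e ^ 2 - l * e + 1 = 0 → 0 < e → e ≤ 1 → -e ≤ r := by
  have sq0 : sq c 0 = 0 := rfl
  have sq1 : sq c 1 = 1 := rfl
  have sq2 : sq c 2 = l := by
    rw [sq_rec, sq1, sq0, hc]
    ring
  have sq3 : sq c 3 = l ^ 2 - 1 := by
    rw [sq_rec, sq1, sq2, hc]
    ring
  have sq4 : sq c 4 = l ^ 3 - 2 * l := by
    rw [sq_rec, sq3, sq2, hc]
    ring
  have hf0 : f < 0 := by linarith only [hf, hal]
  have p2 : 0 < l ^ 2 - 1 := by nlinarith only [hl]
  have p3 : 0 < l ^ 2 - 2 := by nlinarith only [hl]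
  have p4 : 0 < l ^ 3 - 2 * l := by
    have : l ^ 3 - 2 * l = l * (l ^ 2 - 2) := by ring
    rw [this]
    exact mul_pos (by linarith only [hl]) p3
  refine ⟨?_, ?_, ?_, ?_⟩
  · intro h1
    have hG : Good c f 1 := by
      refine ⟨?_, ?_, ?_⟩
      · intro i hi
        interval_cases i
        · rw [sq1]; norm_num
        · rw [sq2]; linarith only [hl]
      · intro i hi
        interval_cases i
        rw [sq1, sq0]
        linarith only [hf0]
      · rw [sq2, sq1, hf]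
        linarith only [h1]
    exact hG.nk_one hS hf0
  · intro h1 h2
    have hG : Good c f 2 := by
      refine ⟨?_, ?_, ?_⟩
      · intro i hi
        interval_cases i
        · rw [sq1]; norm_num
        · rw [sq2]; linarith only [hl]
        · rw [sq3]; linarith only [p3]
      · intro i hi
        interval_cases i
        · rw [sq1, sq0]
          linarith only [hf0]
        · rw [sq2, sq1, hf]
          linarith only [h1]
      · rw [sq3, sq2, hf]
        linarith only [h2]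
    have h3 := hG.nk hS hf0
    rw [sq3, sq2] at h3
    have h4 : 0 < (l - 1) * ((l + 1) * r + 1) := by linarith only [h3]
    have := (mul_pos_iff_of_pos_left (by linarith only [hl] : 0 < l - 1)).1 h4
    linarith only [this]
  · intro h1 h2 h3
    have hG : Good c f 3 := by
      refine ⟨?_, ?_, ?_⟩
      · intro i hi
        interval_cases i
        · rw [sq1]; norm_num
        · rw [sq2]; linarith only [hl]
        · rw [sq3]; linarith only [p3]
        · rw [sq4]; linarith only [p4]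
      · intro i hi
        interval_cases i
        · rw [sq1, sq0]
          linarith only [hf0]
        · rw [sq2, sq1, hf]
          linarith only [h1]
        · rw [sq3, sq2, hf]
          linarith only [h2]
      · rw [sq4, sq3, hf]
        linarith only [h3]
    have h3 := hG.nk hS hf0
    rw [sq4, sq3] at h3
    have h4 : 0 < (l ^ 2 - 2) * (l * r + 1) := by linarith only [h3]
    have := (mul_pos_iff_of_pos_left p3).1 h4
    linarith only [this]
  · intro e he he0 he1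
    refine G3.ult_of he he0 he1 ?_ ?_
    · have := hS.ult (by linarith only [hc, hl])
      rw [hc] at this
      linarith only [this]
    · have := hS.foot
      linarith only [hc, this]

/-- `2 x2 > s g` and the slope -/
theorem slope {s g x1 x2 : ℝ} (hs : 0 < s) (p1 : 1 ≤ x1) (p2 : 1 ≤ x2) (hg : 0 ≤ g)
    (n0 : g ^ 2 + x1 ^ 2 + x2 ^ 2 - g * x1 - s * g * x2 = 1) (hc : 2 * g ≤ x1 + s * x2) (hd1 : 2 * x1 ≤ g) :
    0 < x2 - s * x1 := by
  have hx2 : 0 < 2 * x2 - s * g := by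
    have k1 : x2 * (2 * x2 - s * g) = 2 + g * (x1 + s * x2 - 2 * g) + x1 * (g - 2 * x1) := by
      linear_combination 2 * n0
    have k2 : 0 ≤ g * (x1 + s * x2 - 2 * g) := mul_nonneg hg (by linarith only [hc])
    have k3 : 0 ≤ x1 * (g - 2 * x1) := mul_nonneg (by linarith only [p1]) (by linarith only [hd1])
    by_contra hcon
    rw [not_lt] at hcon
    have := mul_nonpos_of_nonneg_of_nonpos (by linarith only [p2] : 0 ≤ x2) hcon
    linarith only [k1, k2, k3, this]
  have k2 : s * (2 * x1) ≤ s * g := mul_le_mul_of_nonneg_left hd1 hs.le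
  linarith only [hx2, k2]

private theorem z1n {α : ℝ} (h : Z1 α) : 0 ≤ α := by
  rcases h with h | h <;> linarith only [h]

/-- **index 4** -/
theorem real4 {b2 : ℝ} {R : ℝ → ℝ → ℝ → Prop} (h : RT (1 / 2) b2 0 R) {s : ℝ} (es : s = 2 * b2) (hs0 : 0 < s)
    (hs3 : 3 < s ^ 2) {g x1 x2 f1 f2 r1 r2 : ℝ} (hR : R g x1 x2) (p1 : 1 ≤ x1) (p2 : 1 ≤ x2)
    (hc : 2 * g ≤ x1 + s * x2) (hd1 : 2 * x1 ≤ g) (hf : g + x1 * f1 + x2 * f2 = 0) (h1 : 0 ≤ f1)
    (hP : (s ^ 2 - 1) * f2 + s < 0) (hQ : 0 < (s ^ 3 - 2 * s) * f2 + (s ^ 2 - 1))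
    (hF : -(s * f2) * (1 + ((x1 + s * x2) / 2 - g)) - 1 < s * (x2 - s * g / 2)) (hr2 : -1 < s * r2)
    (hS : Str ((s ^ 2 - 1) / 2) (1 + f1 + s * f2) (1 + r1 + s * r2))
    (hX : g + x1 * r1 + x2 * r2 ≤ 1) : False := by
  have n0 := h.n _ _ _ hR
  have n0' : g ^ 2 + x1 ^ 2 + x2 ^ 2 - g * x1 - s * g * x2 = 1 := by
    rw [es]
    linarith only [n0]
  have hg0 : 0 ≤ g := z1n (h.z1 hR (by linarith only [p1])).1
  have hsl := slope hs0 p1 p2 hg0 n0' hc hd1
  -- coordinates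
  have q1 := h.r2 _ _ _ hR
  have e1 : 2 * b2 * g + 2 * 0 * x1 - x2 = s * g - x2 := by rw [es]; ring
  rw [e1] at q1
  obtain ⟨w2, hw2⟩ : ∃ w2, w2 = s * g - x2 := ⟨_, rfl⟩
  rw [← hw2] at q1
  have q2 := h.r0 _ _ _ q1
  have e2 : 2 * (1 / 2) * x1 + 2 * b2 * w2 - g = x1 + s * w2 - g := by rw [es]; ring
  rw [e2] at q2
  obtain ⟨Y, hY⟩ : ∃ Y, Y = x1 + s * w2 - g := ⟨_, rfl⟩
  rw [← hY] at q2
  have q3 := h.r2 _ _ _ q2
  have e3 : 2 * b2 * Y + 2 * 0 * x1 - w2 = s * Y - w2 := by rw [es]; ring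
  rw [e3] at q3
  obtain ⟨W, hW⟩ : ∃ W, W = s * Y - w2 := ⟨_, rfl⟩
  rw [← hW] at q3
  have n3 := h.n _ _ _ q3
  have zz := h.z1 q3 (by linarith only [p1])
  have hY0 := z1n zz.1
  have hW0 := z1n zz.2.2
  have hYp : 0 < Y := by
    rcases hY0.lt_or_eq with h5 | h5
    · exact h5
    · exfalso
      rw [← h5] at n3 hW hY
      have k1 : W ^ 2 + x1 ^ 2 = 1 := by linarith only [n3]
      have k2 : x1 = 1 := by nlinarith only [zz, k1]
      have k3 : W = 0 := by
        have : W ^ 2 = 0 := by nlinarith only [k1, k2]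
        exact pow_eq_zero_iff (two_ne_zero) |>.1 this
      rw [k3] at hW
      have k4 : w2 = 0 := by linarith only [hW]
      rw [k4, k2] at hY
      linarith only [p1, hd1, hY]
  have q4 := h.r1 _ _ _ q3
  have e4 : 2 * (1 / 2) * Y + 2 * 0 * W - x1 = Y - x1 := by ring
  rw [e4] at q4
  obtain ⟨u, hu⟩ : ∃ u, u = Y - x1 := ⟨_, rfl⟩
  rw [← hu] at q4
  have hzu : Z1 u := (h.z0 q4 hYp).2.1
  have hu0 := z1n hzu
  have hYu : Y = x1 + u := by linarith only [hu]
  have hY1 : 1 ≤ Y := by linarith only [zz, hu0, hYu]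
  have hN : W ^ 2 + Y ^ 2 - s * W * Y = 1 + x1 * u := by
    rw [hu]
    rw [es]
    linarith only [n3]
  have hw2' : w2 = s * Y - W := by linarith
  -- `P`
  obtain ⟨P, hPd⟩ : ∃ P, P = -((s ^ 2 - 1) * f2 + s) := ⟨_, rfl⟩
  have hP0 : 0 < P := by linarith only [hP, hPd]
  have hl : 2 < s ^ 2 - 1 := by linarith only [hs3]
  have hH : 2 < s * (s * Y - 2 * W) := by
    have k1 := mul_lt_mul_of_pos_left hF (by linarith only [hl] : 0 < s ^ 2 - 1)
    have k2 : (s ^ 2 - 1) * (s * (x2 - s * g / 2)) =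
        s * (s * Y / 2 - W) + s ^ 2 * ((x1 + s * x2) / 2 - g) := by
      rw [hW, hY, hw2]
      ring
    have k3 : (s ^ 2 - 1) * (-(s * f2) * (1 + ((x1 + s * x2) / 2 - g)) - 1) =
        s * (P + s) * (1 + ((x1 + s * x2) / 2 - g)) - (s ^ 2 - 1) := by
      rw [hPd]
      ring
    rw [k2, k3] at k1
    have k4 : 0 ≤ s * P * (1 + ((x1 + s * x2) / 2 - g)) := by
      refine mul_nonneg (mul_nonneg hs0.le hP0.le) ?_
      linarith only [hc]
    nlinarith
  -- `al`
  obtain ⟨al, hal⟩ : ∃ al, al = -(1 + f1 + s * f2) := ⟨_, rfl⟩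
  have hal1 : x1 * al = (g - x1) + f2 * (x2 - s * x1) := by
    rw [hal]
    linear_combination (-1 : ℝ) * hf
  have hal2 : x1 * al = W * P + Y * ((s ^ 3 - 2 * s) * f2 + (s ^ 2 - 1)) := by
    rw [hal1, hPd, hW, hY, hw2]
    ring
  have hal0 : 0 < al := by
    have : 0 < x1 * al := by
      rw [hal2]
      have k1 := mul_nonneg hW0 hP0.le
      have k2 := mul_pos hYp hQ
      linarith only [k1, k2]
    exact (mul_pos_iff_of_pos_left (by linarith only [zz])).1 this
  have hS' := strips (l := s ^ 2 - 1) (al := al) hS rfl hl (by linarith only [hal]) hal0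
  obtain ⟨r, hr⟩ : ∃ r, r = 1 + r1 + s * r2 := ⟨_, rfl⟩
  rw [← hr] at hS'
  -- the corner
  have hcor : w2 + s * x1 * r < s := by
    have k1 : s * (g + x1 * r1 + x2 * r2) = s * (g - x1) + s * x1 * r + (x2 - s * x1) * (s * r2) := by
      rw [hr]
      ring
    have k2 := mul_lt_mul_of_pos_left hr2 hsl
    have k3 := mul_le_mul_of_nonneg_left hX hs0.le
    rw [hw2]
    linarith only [k1, k2, k3]
  have hs1 : 1 < s := by nlinarith only [hs0, hs3]
  have hYs : 0 < s * w2 - Y := by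
    have : s * (s * Y - 2 * W) = 2 * (s * w2) - s ^ 2 * Y := by rw [hw2']; ring
    nlinarith only [hY1, hl, hH, this]
  have hw20 : 0 < w2 := by
    have : 0 < s * w2 := by linarith only [hY1, hYs]
    exact (mul_pos_iff_of_pos_left hs0).1 this
  rcases lt_or_ge ((s ^ 2 - 1) * al) 1 with hA | hA
  · -- index 1
    have hr0 := hS'.1 hA
    have k1 : s ≤ w2 := by
      refine J4R.t0 hs0 hs3.le hw2' hYu p1 hzu hH hN ?_
      intro h0
      rw [h0] at q4
      have q5 := h.r2 _ _ _ q4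
      have e5 : 2 * b2 * Y + 2 * 0 * 0 - W = w2 := by rw [hw2', es]; ring
      rw [e5] at q5
      have q6 := h.r0 _ _ _ q5
      have e6 : 2 * (1 / 2) * 0 + 2 * b2 * w2 - Y = s * w2 - Y := by rw [es]; ring
      rw [e6] at q6
      exact (h.z2 q6 hw20).1
    have k2 : 0 < s * x1 * r := mul_pos (mul_pos hs0 (by linarith only [zz])) hr0
    linarith only [hcor, k1, k2]
  · -- `u ≥ 1`
    have hu1 : 1 ≤ u := by
      rcases hzu with h5 | h5
      · exfalso
        have k1 : (s ^ 2 - 1) * (x1 * al) = (s ^ 2 - 1) * (W * P) + Y * (1 - (s ^ 3 - 2 * s) * P) := by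
          rw [hal2, hPd]
          ring
        have k2 : x1 * 1 ≤ x1 * ((s ^ 2 - 1) * al) := mul_le_mul_of_nonneg_left hA (by linarith only [zz])
        have k3 : P * ((s ^ 3 - 2 * s) * Y - (s ^ 2 - 1) * W) ≤ 0 := by nlinarith only [hYu, hY1, hA, h5, k1]
        have k4 : 0 < (s ^ 3 - 2 * s) * Y - (s ^ 2 - 1) * W := by
          have k5 : 0 < s * Y - 2 * W := (mul_pos_iff_of_pos_left hs0).1 (by linarith only [hH])
          have k6 : 0 < (s ^ 2 - 1) * (s * Y - 2 * W) := mul_pos (by linarith only [hl]) k5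
          have k7 : 0 ≤ s * Y * (s ^ 2 - 3) := mul_nonneg (mul_nonneg hs0.le hY0) (by linarith only [hl])
          linarith only [k6, k7]
        have := mul_pos hP0 k4
        linarith only [k3, this]
      · exact h5
    rcases lt_or_ge (((s ^ 2 - 1) ^ 2 - 1) * al) (s ^ 2 - 1) with hB | hB
    · -- index 2
      have k1 := hS'.2.1 hA hB
      have k2 : s ^ 2 - 1 + 1 = s ^ 2 := by ring
      rw [k2] at k1
      have k3 := mul_lt_mul_of_pos_left k1 (by linarith only [zz] : 0 < x1)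
      have k4 := mul_lt_mul_of_pos_left hcor hs0
      exact J4R.t2 hs3.le hw2' hYu p1 hu1 hH (by linarith only [k3, k4])
    · have hl7 := lab7 h es hs0 hs3
      have hs324 : 3.24 ≤ s ^ 2 := by
        rcases hl7 with ⟨-, h5, -⟩ | h5
        · nlinarith only [h5]
        · linarith only [h5]
      rcases lt_or_ge (((s ^ 2 - 1) ^ 3 - 2 * (s ^ 2 - 1)) * al) ((s ^ 2 - 1) ^ 2 - 1) with hC | hC
      · -- index 3
        have k1 := hS'.2.2.1 hA hB hC
        have k3 := mul_lt_mul_of_pos_left k1 (mul_pos hs0 (by linarith only [zz]) : 0 < s * x1)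
        have k4 := mul_lt_mul_of_pos_left hcor (by linarith only [hs324] : 0 < s ^ 2 - 1)
        exact J4R.t3 hs0 rfl hs324 hw2' hYu p1 hu1 hH hN (by linarith only [k3, k4])
      · -- index ≥ 4
        obtain ⟨e, he, he0, he1⟩ := G3.exists_e (l := s ^ 2 - 1) (by linarith only [hs324])
        have k1 := hS'.2.2.2 e he he0 he1
        have hCe : w2 < s * (1 + e * x1) := by
          have k2 : s * x1 * (-e) ≤ s * x1 * r := mul_le_mul_of_nonneg_left k1 (by positivity)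
          linarith only [hcor, k2]
        rcases le_or_gt 4 (s ^ 2) with h4 | h4
        · exact J4R.t_big hs0 h4 (J5R.e2 h4 he he0 he1) hw2' hYu p1 hu1 hH hN hCe
        · -- the bound from `φ d1 ≥ 0`
          have hU : (s ^ 2 - 1) * w2 ≤ s * (((s ^ 2 - 1) ^ 2 - 1) * u) := by
            have hq : 0 < (s ^ 2 - 1) ^ 3 - 2 * (s ^ 2 - 1) := by
              have : (s ^ 2 - 1) ^ 3 - 2 * (s ^ 2 - 1) = (s ^ 2 - 1) * ((s ^ 2 - 1) ^ 2 - 2) := by ring
              rw [this]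
              exact mul_pos (by linarith only [hs324]) (by nlinarith only [he])
            have m1 : g ≤ -f2 * x2 := by
              have : 0 ≤ x1 * f1 := mul_nonneg (by linarith only [zz]) h1
              linarith only [hf, this]
            have m2 : g * (x2 - s * x1) ≤ -f2 * x2 * (x2 - s * x1) := mul_le_mul_of_nonneg_right m1 hsl.le
            have m3 : x1 * x2 * ((s ^ 2 - 1) ^ 2 - 1) ≤
                x1 * x2 * (((s ^ 2 - 1) ^ 3 - 2 * (s ^ 2 - 1)) * al) :=
              mul_le_mul_of_nonneg_left hC (by positivity)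
            have m4 : x1 * x2 * (((s ^ 2 - 1) ^ 3 - 2 * (s ^ 2 - 1)) * al) =
                ((s ^ 2 - 1) ^ 3 - 2 * (s ^ 2 - 1)) * (x2 * (g - x1) - -f2 * x2 * (x2 - s * x1)) := by
              have : x1 * x2 * (((s ^ 2 - 1) ^ 3 - 2 * (s ^ 2 - 1)) * al) =
                ((s ^ 2 - 1) ^ 3 - 2 * (s ^ 2 - 1)) * x2 * (x1 * al) := by ring
              rw [this, hal1]
              ring
            have m5 : ((s ^ 2 - 1) ^ 3 - 2 * (s ^ 2 - 1)) * (x2 * (g - x1) - -f2 * x2 * (x2 - s * x1)) ≤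
                ((s ^ 2 - 1) ^ 3 - 2 * (s ^ 2 - 1)) * (x1 * w2) := by
              refine mul_le_mul_of_nonneg_left ?_ hq.le
              rw [hw2]
              linarith only [m2]
            have m6 : x1 * (x2 * ((s ^ 2 - 1) ^ 2 - 1)) ≤
                x1 * (((s ^ 2 - 1) ^ 3 - 2 * (s ^ 2 - 1)) * w2) := by
              rw [m4] at m3
              linarith only [m3, m5]
            have m7 := le_of_mul_le_mul_left m6 (by linarith only [zz] : 0 < x1)
            have m8 : x2 = (s ^ 2 - 1) * w2 - s * u := by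
              have k5 : x2 = s * g - w2 := by linarith only [hw2]
              have k6 : g = s * w2 - u := by linarith only [hY, hu]
              rw [k5, k6]
              ring
            rw [m8] at m7
            linarith only [m7]
          rcases hl7 with ⟨h5, h6, h7⟩ | h5
          · -- m2 = 7
            refine J4R.t_7 h6 h7 (J5R.e7 h6 he he0 he1) hw2' hYu p1 hu1 hH hN ?_ ?_ hCe
            · have k2 : (s ^ 2 - 1) ^ 2 - 1 = (s ^ 2 - 1) * s := by
                linear_combination s * h5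
              rw [k2] at hU
              have k3 : (s ^ 2 - 1) * w2 ≤ (s ^ 2 - 1) * (s ^ 2 * u) := by linarith only [hU]
              exact le_of_mul_le_mul_left k3 (by linarith only [hs324])
            · have q5 := h.r0 _ _ _ q4
              have e5 : 2 * (1 / 2) * u + 2 * b2 * W - Y = s * W - x1 := by rw [hYu, es]; ring
              rw [e5] at q5
              have z5 := z1n (h.z1 q5 (by linarith only [hu1])).1
              have hWp : 0 < W := by
                have : 0 < s * W := by linarith only [zz, z5]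
                exact (mul_pos_iff_of_pos_left hs0).1 this
              have q6 := h.r1 _ _ _ q5
              have e6 : 2 * (1 / 2) * (s * W - x1) + 2 * 0 * W - u = s * W - Y := by rw [hYu]; ring
              rw [e6] at q6
              have z6 := z1n (h.z2 q6 hWp).2.1
              linarith only [z6]
          · exact J4R.t_8 hs0 rfl h5 h4.le (J5R.e8 h5 he he0 he1) hw2' hYu p1 hu1 hH hN hU hCe

/-- **index 5** -/
theorem real5 {b2 : ℝ} {R : ℝ → ℝ → ℝ → Prop} (h : RT (1 / 2) b2 0 R) {s : ℝ} (es : s = 2 * b2) (hs0 : 0 < s)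
    (hs3 : 3 < s ^ 2) (hs2 : s ≤ 2) {τ g x1 x2 f1 f2 r1 r2 : ℝ} (hR : R g x1 x2) (p1 : 1 ≤ x1) (p2 : 1 ≤ x2)
    (hc : 2 * g ≤ x1 + s * x2) (hd1 : 2 * x1 ≤ g) (hf : g + x1 * f1 + x2 * f2 = 0)
    (hW' : 1 + f1 + s * f2 < 0) (hτ : (s ^ 2 + s - 1) * τ = s + 1)
    (hP : (s ^ 3 - 2 * s) * f2 + (s ^ 2 - 1) < 0) (hQ : 0 < (s ^ 4 - 3 * s ^ 2 + 1) * f2 + (s ^ 3 - 2 * s))
    (hF : -f2 * (1 + ((x1 + s * x2) / 2 - g)) - τ < x2 - s * g / 2) (hr2 : -τ < r2)
    (hS : Str ((s ^ 2 - 1) / 2) (1 + f1 + s * f2) (1 + r1 + s * r2))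
    (hX : g + x1 * r1 + x2 * r2 ≤ 1) : False := by
  have n0 := h.n _ _ _ hR
  have n0' : g ^ 2 + x1 ^ 2 + x2 ^ 2 - g * x1 - s * g * x2 = 1 := by
    rw [es]
    linarith only [n0]
  have hg0 : 0 ≤ g := z1n (h.z1 hR (by linarith only [p1])).1
  have hsl := slope hs0 p1 p2 hg0 n0' hc hd1
  -- coordinates
  have q1 := h.r2 _ _ _ hR
  have e1 : 2 * b2 * g + 2 * 0 * x1 - x2 = s * g - x2 := by rw [es]; ring
  rw [e1] at q1
  obtain ⟨w2, hw2⟩ : ∃ w2, w2 = s * g - x2 := ⟨_, rfl⟩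
  rw [← hw2] at q1
  have q2 := h.r0 _ _ _ q1
  have e2 : 2 * (1 / 2) * x1 + 2 * b2 * w2 - g = x1 + s * w2 - g := by rw [es]; ring
  rw [e2] at q2
  obtain ⟨w3, hw3⟩ : ∃ w3, w3 = x1 + s * w2 - g := ⟨_, rfl⟩
  rw [← hw3] at q2
  have q3 := h.r2 _ _ _ q2
  have e3 : 2 * b2 * w3 + 2 * 0 * x1 - w2 = s * w3 - w2 := by rw [es]; ring
  rw [e3] at q3
  obtain ⟨Y, hY⟩ : ∃ Y, Y = s * w3 - w2 := ⟨_, rfl⟩
  rw [← hY] at q3
  have q4 := h.r0 _ _ _ q3
  have e4 : 2 * (1 / 2) * x1 + 2 * b2 * Y - w3 = x1 + s * Y - w3 := by rw [es]; ring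
  rw [e4] at q4
  obtain ⟨W, hW⟩ : ∃ W, W = x1 + s * Y - w3 := ⟨_, rfl⟩
  rw [← hW] at q4
  have n4 := h.n _ _ _ q4
  have zz := h.z1 q4 (by linarith only [p1])
  have hW0 := z1n zz.1
  have hY0 := z1n zz.2.2
  -- `P`
  obtain ⟨P, hPd⟩ : ∃ P, P = -((s ^ 3 - 2 * s) * f2 + (s ^ 2 - 1)) := ⟨_, rfl⟩
  obtain ⟨Q, hQd⟩ : ∃ Q, Q = (s ^ 4 - 3 * s ^ 2 + 1) * f2 + (s ^ 3 - 2 * s) := ⟨_, rfl⟩
  have hP0 : 0 < P := by linarith only [hP, hPd]
  have hQ0 : 0 < Q := by linarith only [hQ, hQd]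
  have hPQ : (s ^ 4 - 3 * s ^ 2 + 1) * P + (s ^ 3 - 2 * s) * Q = 1 := by
    rw [hPd, hQd]
    ring
  have hl : 2 < s ^ 2 - 1 := by linarith only [hs3]
  obtain ⟨al, hal⟩ : ∃ al, al = -(1 + f1 + s * f2) := ⟨_, rfl⟩
  have hal0 : 0 < al := by linarith only [hW', hal]
  have hal1 : x1 * al = (g - x1) + f2 * (x2 - s * x1) := by
    rw [hal]
    linear_combination (-1 : ℝ) * hf
  have hal2 : x1 * al = (W - x1) * P + Y * Q := by
    rw [hal1, hPd, hQd, hW, hY, hw3, hw2]
    ring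
  have hWp : 0 < W := by
    rcases hW0.lt_or_eq with h5 | h5
    · exact h5
    · exfalso
      rw [← h5] at n4 hal2
      have k1 : Y ^ 2 + x1 ^ 2 = 1 := by linarith only [n4]
      have k3 : Y = 0 := by
        have : Y ^ 2 = 0 := by nlinarith only [n4, zz]
        exact pow_eq_zero_iff (two_ne_zero) |>.1 this
      rw [k3] at hal2
      have k4 := mul_pos (by linarith only [zz] : 0 < x1) hal0
      have k5 := mul_pos (by linarith only [zz] : 0 < x1) hP0
      linarith only [hal2, k4, k5]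
  have q5 := h.r1 _ _ _ q4
  have e5 : 2 * (1 / 2) * W + 2 * 0 * Y - x1 = W - x1 := by ring
  rw [e5] at q5
  obtain ⟨u, hu⟩ : ∃ u, u = W - x1 := ⟨_, rfl⟩
  rw [← hu] at q5 hal2
  have hzu : Z1 u := (h.z0 q5 hWp).2.1
  have hu0 := z1n hzu
  have hN : W ^ 2 + Y ^ 2 - s * W * Y = 1 + x1 * u := by
    rw [hu]
    rw [es]
    linarith only [n4]
  have hs17 : 1.73 < s := by nlinarith only [hs0, hs3]
  have hs4 : 0 < s ^ 3 - 2 * s := by
    have : s ^ 3 - 2 * s = s * (s ^ 2 - 2) := by ring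
    rw [this]
    exact mul_pos hs0 (by linarith only [hl])
  have hs5 : 0 < s ^ 4 - 3 * s ^ 2 + 1 := by nlinarith only [hl]
  have hH : x1 + 2 * u + 2 * τ < s * Y := by
    have k1 := mul_lt_mul_of_pos_left hF hs4
    have k2 : (s ^ 3 - 2 * s) * (x2 - s * g / 2) =
        (s * Y - x1 - 2 * u) / 2 + (s ^ 2 - 1) * ((x1 + s * x2) / 2 - g) := by
      rw [hu, hW, hY, hw3, hw2]
      ring
    have k3 : (s ^ 3 - 2 * s) * (-f2 * (1 + ((x1 + s * x2) / 2 - g)) - τ) =
        (P + (s ^ 2 - 1)) * (1 + ((x1 + s * x2) / 2 - g)) - (s ^ 3 - 2 * s) * τ := by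
      rw [hPd]
      ring
    rw [k2, k3] at k1
    have k4 : 0 ≤ P * (1 + ((x1 + s * x2) / 2 - g)) := mul_nonneg hP0.le (by linarith only [hc])
    have k5 : (s ^ 3 - 2 * s + 1) * τ = s ^ 2 - 1 := by
      linear_combination (s - 1) * hτ
    linarith only [k1, k4, k5]
  have hl7 := lab7 h es hs0 hs3
  have hs18 : 1.8 ≤ s := by
    rcases hl7 with ⟨-, h5, -⟩ | h5
    · linarith only [h5]
    · nlinarith only [hs4, h5]
  have hS' := strips (l := s ^ 2 - 1) (al := al) hS rfl hl (by linarith only [hal]) hal0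
  obtain ⟨r, hr⟩ : ∃ r, r = 1 + r1 + s * r2 := ⟨_, rfl⟩
  rw [← hr] at hS'
  -- the corner
  have hcor : Y - τ * u + x1 * r < 1 := by
    have k1 : g + x1 * r1 + x2 * r2 = (g - x1) + x1 * r + (x2 - s * x1) * r2 := by
      rw [hr]
      ring
    have k2 := mul_lt_mul_of_pos_left hr2 hsl
    have k3 : Y - τ * u = (g - x1) - (x2 - s * x1) * τ := by
      rw [hu, hW, hY, hw3, hw2]
      linear_combination (-(g * (s ^ 2 - s - 1) - (s - 1) * x2 + x1)) * hτ
    linarith only [hX, k1, k2, k3]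
  rcases lt_or_ge ((s ^ 2 - 1) * al) 1 with hA | hA
  · -- index 1
    have hr0 := hS'.1 hA
    have k2 : 0 < x1 * r := mul_pos (by linarith only [zz]) hr0
    exact J5R.t0 hs18 hs2 hτ p1 hu0 hH (by linarith only [hcor, k2])
  · have hA' : x1 * ((s ^ 4 - 3 * s ^ 2 + 1) * P + (s ^ 3 - 2 * s) * Q) ≤ (s ^ 2 - 1) * (u * P + Y * Q) := by
      rw [hPQ, ← hal2]
      have := mul_le_mul_of_nonneg_left hA (by linarith only [zz] : 0 ≤ x1)
      linarith only [this]
    rcases lt_or_ge (((s ^ 2 - 1) ^ 2 - 1) * al) (s ^ 2 - 1) with hB | hB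
    · -- index 2
      have k1 := hS'.2.1 hA hB
      have k2 : s ^ 2 - 1 + 1 = s ^ 2 := by ring
      rw [k2] at k1
      have k3 := mul_lt_mul_of_pos_left k1 (by linarith only [zz] : 0 < x1)
      have k4 := mul_lt_mul_of_pos_left hcor (by positivity : 0 < s ^ 2)
      rcases hzu with h5 | h5
      · rw [h5] at hN hA' k4 hu
        have hWx : W = x1 := by linarith only [hu]
        rw [hWx] at hN
        refine J5R.t20 hs18 hs2 p1 (by linarith only [hN] : x1 ^ 2 + Y ^ 2 - s * x1 * Y = 1) ?_ (by linarith only [k3, k4])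
        have k5 : 0 < x1 * ((s ^ 4 - 3 * s ^ 2 + 1) * P) := mul_pos (by linarith only [hWp, hu]) (mul_pos hs5 hP0)
        have k6 : Q * (s * (s ^ 2 - 2) * x1) < Q * ((s ^ 2 - 1) * Y) := by nlinarith only [hA', k5]
        exact lt_of_mul_lt_mul_left k6 hQ0.le
      · exact J5R.t2 hs18 hs2 hτ p1 h5 hH (by linarith only [k3, k4])
    · -- index ≥ 3
      obtain ⟨e, he, he0, he1⟩ := G3.exists_e (l := s ^ 2 - 1) (by linarith only [hl])
      have k1 := hS'.2.2.2 e he he0 he1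
      have hCe : Y < 1 + τ * u + e * x1 := by
        have k2 : x1 * (-e) ≤ x1 * r := mul_le_mul_of_nonneg_left k1 (by linarith only [zz])
        linarith only [hcor, k2]
      have hB' : (s ^ 2 - 1) * (x1 * ((s ^ 4 - 3 * s ^ 2 + 1) * P + (s ^ 3 - 2 * s) * Q)) ≤
          s * (s ^ 3 - 2 * s) * (u * P + Y * Q) := by
        rw [hPQ, ← hal2]
        have k2 : (s ^ 2 - 1) ^ 2 - 1 = s * (s ^ 3 - 2 * s) := by ring
        rw [k2] at hB
        have := mul_le_mul_of_nonneg_left hB (by linarith only [zz] : 0 ≤ x1)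
        linarith only [this]
      have hse : s * e ≤ 1.1087 := by
        rcases hl7 with ⟨-, h5, h6⟩ | h5
        · have := J5R.e7 h5 he he0 he1
          nlinarith only [he, he0, he1, h5]
        · have := J5R.se8 hs0 h5 he he0 he1
          linarith only [this]
      rcases hzu with h5 | h5
      · rw [h5] at hN hB' hCe hu
        have hWx : W = x1 := by linarith only [hu]
        rw [hWx] at hN
        refine J5R.te0 hs18 hs2 p1 (by linarith only [hN] : x1 ^ 2 + Y ^ 2 - s * x1 * Y = 1) he he0 hse ?_ (by linarith only [hCe])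
        have k5 : 0 < (s ^ 2 - 1) * (x1 * ((s ^ 4 - 3 * s ^ 2 + 1) * P)) :=
          mul_pos (by linarith only [hl]) (mul_pos (by linarith only [hWp, hu]) (mul_pos hs5 hP0))
        have k6 : ((s ^ 3 - 2 * s) * Q) * ((s ^ 2 - 1) * x1) < ((s ^ 3 - 2 * s) * Q) * (s * Y) := by linarith only [hB', k5]
        exact lt_of_mul_lt_mul_left k6 (mul_pos hs4 hQ0).le
      · rcases hl7 with ⟨-, h6, h7⟩ | h6
        · refine J5R.te7 h6 h7 hτ p1 h5 (J5R.e7 h6 he he0 he1) he0 hH ?_ hCe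
          intro h8
          have k6 : ((s ^ 3 - 2 * s) * Q) * ((s ^ 2 - 1) * x1) ≤ ((s ^ 3 - 2 * s) * Q) * (s * Y) := by
            have k7 : 0 ≤ P * ((s ^ 2 - 1) * (s ^ 4 - 3 * s ^ 2 + 1) * x1 - s * (s ^ 3 - 2 * s) * u) := by
              refine mul_nonneg hP0.le ?_
              have k8 : (s ^ 2 - 1) * (s ^ 4 - 3 * s ^ 2 + 1) * (2.8 * u) ≤
                  (s ^ 2 - 1) * (s ^ 4 - 3 * s ^ 2 + 1) * x1 :=
                mul_le_mul_of_nonneg_left h8 (mul_nonneg (by linarith only [hl]) hs5.le)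
              have k9 : s * (s ^ 3 - 2 * s) ≤ (s ^ 2 - 1) * (s ^ 4 - 3 * s ^ 2 + 1) * 2.8 := by
                have k10 : s * (s ^ 3 - 2 * s) = s ^ 2 * (s ^ 2 - 2) := by ring
                rw [k10]
                nlinarith only [hs17, hs4, hs5]
              have k11 := mul_le_mul_of_nonneg_right k9 hu0
              linarith only [k8, k11]
            linarith only [hB', k7]
          exact le_of_mul_le_mul_left k6 (mul_pos hs4 hQ0)
        · exact J5R.te1 hs18 hs2 hτ p1 h5 (J5R.se8 hs0 h6 he he0 he1) hH hCe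

end Pool.Agent.Helper64.DY.J45
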