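import Pool.Agent.Helper64.DY.G3G
import Pool.Agent.Helper64.DY.J45

/-!
# Part (a) of [GAP2] (MP_d13a5e_al)
-/

set_option autoImplicit false

namespace Pool.Agent.Helper64.DY

open _root_.DY (Z1 C01 Tri rf sq Str Loc Canon Xs Good G2a GP2)
open Pool.Agent.Helper62.DY (RT rt_of_tri xs_Bd1 xs_hz sq_rec sq_zero)
open Pool.Agent.Helper64.DY.G3 (gap2_neg3 str_w str_2)

variable {E : Type*} [AddCommGroup E] [Module ℝ E] {Ψ : Set E} {B : E →ₗ[ℝ] E →ₗ[ℝ] ℝ}

/-- **(a)** of [GAP2] -/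
theorem g2a : G2a Ψ B := by
  intro ρ φ t d1 d2 x x' g x1 x2 g' x1' x2' X h0 hb1 hb2 ⟨hq, hW, hG⟩
  rcases hG with hG | ⟨h5, hG⟩ | ⟨h5, h6, hG⟩
  · exact gap2_neg3 X h0 hb1 hb2 hW hG
  · -- index 4
    have hT := X.L.tri
    have hR0 : RT (-B t d1) (-B t d2) 0 (fun g x1 x2 => g • t + x1 • d1 + x2 • d2 ∈ Ψ) := by
      have := rt_of_tri hT
      rw [h0, neg_zero] at this
      exact this
    have hR1 : RT (1 / 2) (-B t d2) 0 (fun g x1 x2 => g • t + x1 • d1 + x2 • d2 ∈ Ψ) := by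
      rw [← h5]
      exact hR0
    have hx : g • t + x1 • d1 + x2 • d2 ∈ Ψ := by
      rw [← X.e]
      exact X.L.xm
    have hsw := str_w X h0 hb1 hb2
    have hs2 := str_2 X
    have hcR := X.cR_nonneg
    have hBd1 := xs_Bd1 X
    have hnz := xs_hz X _ _ (hR0.pencil 2).1
    have hnk := hG.nk hs2 X.h2
    have g4 := hG.hm 2 (by norm_num)
    have g5 := hG.hpos
    have fx : g + x1 * φ d1 + x2 * φ d2 = 0 := by
      have := X.c.fz
      linarith
    rw [X.Bxt] at hcR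
    rw [X.Bxd1, h0] at hBd1
    rw [h5] at hsw hcR hBd1 hW hq
    obtain ⟨s, es⟩ : ∃ s, s = 2 * -B t d2 := ⟨_, rfl⟩
    have eb : -B t d2 = s / 2 := by linarith
    have sq1 : sq (-B t d2) 1 = 1 := rfl
    have sq2 : sq (-B t d2) 2 = s := by
      rw [sq_rec, sq1, sq_zero, es]
      ring
    have sq3 : sq (-B t d2) 3 = s ^ 2 - 1 := by
      rw [sq_rec, sq1, sq2, es]
      ring
    have sq4 : sq (-B t d2) 4 = s ^ 3 - 2 * s := by
      rw [sq_rec, sq3, sq2, es]
      ring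
    have e2 : (2 : ℕ) + 1 = 3 := rfl
    have e3 : (3 : ℕ) + 1 = 4 := rfl
    rw [e2, sq3, sq2] at g4 hnz
    rw [e3, sq4, sq3] at g5 hnk
    have hs0 : 0 < s := by linarith
    have hs3 : 3 < s ^ 2 := by
      rw [eb] at hq
      linarith
    have hr2 : -1 < s * ρ d2 := by
      have k1 : 0 < (s ^ 2 - 2) * (s * ρ d2 + 1) := by linarith
      have := (mul_pos_iff_of_pos_left (by linarith : 0 < s ^ 2 - 2)).1 k1
      linarith
    have hF := X.F1' (τ := 1 / s) (by
      rw [neg_lt, ← sub_pos]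
      have k1 : 0 < s * (1 / s - -ρ d2) := by
        have : s * (1 / s - -ρ d2) = 1 + s * ρ d2 := by
          rw [mul_sub, mul_one_div_cancel hs0.ne']
          ring
        rw [this]
        linarith
      exact (mul_pos_iff_of_pos_left hs0).1 k1)
    rw [X.Bxt, X.Bxd2, h0, h5] at hF
    have hF' := mul_lt_mul_of_pos_left hF hs0
    refine J45.real4 (f1 := φ d1) (f2 := φ d2) (r1 := ρ d1) (r2 := ρ d2) hR1 es hs0 hs3 hx X.p1 X.p2 ?_ ?_ fx X.h1 ?_
      g5 ?_ hr2 ?_ X.le_one.1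
    · rw [eb] at hcR
      linarith
    · linarith
    · rcases g4.lt_or_eq with h7 | h7
      · exact h7
      · exfalso
        apply hnz
        linarith
    · have k1 : s * (-φ d2 * (1 + -(g - 1 / 2 * x1 - -B t d2 * x2)) - 1 / s) =
          -(s * φ d2) * (1 + ((x1 + s * x2) / 2 - g)) - 1 := by
        rw [eb]
        field_simp
        ring
      rw [k1] at hF'
      have k2 : s * (x2 - -B t d2 * g - -0 * x1) = s * (x2 - s * g / 2) := by
        rw [eb]
        ring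
      rw [k2] at hF'
      exact hF'
    · have k1 : ((2 * (1 / 2 : ℝ)) ^ 2 + (2 * -B t d2) ^ 2) / 2 - 1 = (s ^ 2 - 1) / 2 := by
        rw [← es]
        ring
      have k2 : 1 + 2 * (1 / 2) * φ d1 + 2 * -B t d2 * φ d2 = 1 + φ d1 + s * φ d2 := by
        rw [← es]
        ring
      have k3 : 1 + 2 * (1 / 2) * ρ d1 + 2 * -B t d2 * ρ d2 = 1 + ρ d1 + s * ρ d2 := by
        rw [← es]
        ring
      rw [k1, k2, k3] at hsw
      exact hsw
  · -- index 5
    have hT := X.L.tri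
    have hR0 : RT (-B t d1) (-B t d2) 0 (fun g x1 x2 => g • t + x1 • d1 + x2 • d2 ∈ Ψ) := by
      have := rt_of_tri hT
      rw [h0, neg_zero] at this
      exact this
    have hR1 : RT (1 / 2) (-B t d2) 0 (fun g x1 x2 => g • t + x1 • d1 + x2 • d2 ∈ Ψ) := by
      rw [← h5]
      exact hR0
    have hx : g • t + x1 • d1 + x2 • d2 ∈ Ψ := by
      rw [← X.e]
      exact X.L.xm
    have hsw := str_w X h0 hb1 hb2
    have hs2 := str_2 X
    have hcR := X.cR_nonneg
    have hBd1 := xs_Bd1 X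
    have hnz := xs_hz X _ _ (hR0.pencil 3).1
    have hnk := hG.nk hs2 X.h2
    have g4 := hG.hm 3 (by norm_num)
    have g5 := hG.hpos
    have fx : g + x1 * φ d1 + x2 * φ d2 = 0 := by
      have := X.c.fz
      linarith
    rw [X.Bxt] at hcR
    rw [X.Bxd1, h0] at hBd1
    rw [h5] at hsw hcR hBd1 hW hq
    obtain ⟨s, es⟩ : ∃ s, s = 2 * -B t d2 := ⟨_, rfl⟩
    have eb : -B t d2 = s / 2 := by linarith
    have sq1 : sq (-B t d2) 1 = 1 := rfl
    have sq2 : sq (-B t d2) 2 = s := by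
      rw [sq_rec, sq1, sq_zero, es]
      ring
    have sq3 : sq (-B t d2) 3 = s ^ 2 - 1 := by
      rw [sq_rec, sq1, sq2, es]
      ring
    have sq4 : sq (-B t d2) 4 = s ^ 3 - 2 * s := by
      rw [sq_rec, sq3, sq2, es]
      ring
    have sq5 : sq (-B t d2) 5 = s ^ 4 - 3 * s ^ 2 + 1 := by
      rw [sq_rec, sq4, sq3, es]
      ring
    have e2 : (3 : ℕ) + 1 = 4 := rfl
    have e3 : (4 : ℕ) + 1 = 5 := rfl
    rw [e2, sq4, sq3] at g4 hnz
    rw [e3, sq5, sq4] at g5 hnk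
    have hs0 : 0 < s := by linarith
    have hs3 : 3 < s ^ 2 := by
      rw [eb] at hq
      linarith
    have hs17 : 1.73 < s := by nlinarith
    have hd : 0 < s ^ 2 + s - 1 := by nlinarith
    obtain ⟨τ, hτ⟩ : ∃ τ, τ = (s + 1) / (s ^ 2 + s - 1) := ⟨_, rfl⟩
    have hτ1 : (s ^ 2 + s - 1) * τ = s + 1 := by
      rw [hτ]
      exact mul_div_cancel₀ _ hd.ne'
    have hr2 : -τ < ρ d2 := by
      have k1 : 0 < (s ^ 2 - s - 1) * ((s ^ 2 + s - 1) * ρ d2 + (s + 1)) := by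
        have e : (s ^ 2 - s - 1) * ((s ^ 2 + s - 1) * ρ d2 + (s + 1)) =
          (s ^ 4 - 3 * s ^ 2 + 1) * ρ d2 + (s ^ 3 - 2 * s) - 1 := by ring
        rw [e]
        linarith
      have k2 : 0 < s ^ 2 - s - 1 := by nlinarith
      have k3 := (mul_pos_iff_of_pos_left k2).1 k1
      have k4 : 0 < (s ^ 2 + s - 1) * (ρ d2 + τ) := by
        have : (s ^ 2 + s - 1) * (ρ d2 + τ) = (s ^ 2 + s - 1) * ρ d2 + (s ^ 2 + s - 1) * τ := by ring
        rw [this, hτ1]
        exact k3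
      have := (mul_pos_iff_of_pos_left hd).1 k4
      linarith
    have hF := X.F1' hr2
    rw [X.Bxt, X.Bxd2, h0, h5] at hF
    refine J45.real5 (f1 := φ d1) (f2 := φ d2) (r1 := ρ d1) (r2 := ρ d2) hR1 es hs0 hs3 (by linarith) hx X.p1 X.p2
      ?_ ?_ fx ?_ hτ1 ?_ g5 ?_ hr2 ?_ X.le_one.1
    · rw [eb] at hcR
      linarith
    · linarith
    · rw [← es] at hW
      linarith
    · rcases g4.lt_or_eq with h7 | h7
      · exact h7
      · exfalso
        apply hnz
        linarith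
    · have k1 : -φ d2 * (1 + -(g - 1 / 2 * x1 - -B t d2 * x2)) - τ =
          -φ d2 * (1 + ((x1 + s * x2) / 2 - g)) - τ := by
        rw [eb]
        ring
      rw [k1] at hF
      have k2 : x2 - -B t d2 * g - -0 * x1 = x2 - s * g / 2 := by
        rw [eb]
        ring
      rw [k2] at hF
      exact hF
    · have k1 : ((2 * (1 / 2 : ℝ)) ^ 2 + (2 * -B t d2) ^ 2) / 2 - 1 = (s ^ 2 - 1) / 2 := by
        rw [← es]
        ring
      have k2 : 1 + 2 * (1 / 2) * φ d1 + 2 * -B t d2 * φ d2 = 1 + φ d1 + s * φ d2 := by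
        rw [← es]
        ring
      have k3 : 1 + 2 * (1 / 2) * ρ d1 + 2 * -B t d2 * ρ d2 = 1 + ρ d1 + s * ρ d2 := by
        rw [← es]
        ring
      rw [k1, k2, k3] at hsw
      exact hsw

end Pool.Agent.Helper64.DY
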