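import Mathlib

/-!
# GAP2, `j = 3`, `φ(w) < 0`: the real inequalities (MP_d13a5e_al)

`a = 2 b1`, `A = a^2 - 2`, `s = 2 b2`, `w = e_2`, `V = x1 / a`, `ζ = z / a`, `V + ζ = e_3`.
Norm: `V^2 + ζ^2 + w^2 - s w (V + ζ) - A V ζ = 1`.
-/

set_option autoImplicit false

namespace Pool.Agent.Helper64.DY.G3

/-- `T = 0`, `A (A + 1) ≥ 1` -/
theorem zero_a {A s w V ζ : ℝ} (hs0 : 0 < s) (hs : 2 ≤ s ^ 2) (hA : 0 < A) (hA1 : 1 ≤ A * (A + 1))
    (hw : 1 ≤ w) (hV : 0 < V) (hN : V ^ 2 + ζ ^ 2 + w ^ 2 - s * w * (V + ζ) - A * V * ζ = 1)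
    (hy : 2 * ζ ≤ s * w + A * V) : ζ ≤ (s + 1) * (w - 1) + A * V := by
  by_contra hcon
  rw [not_le] at hcon
  set o := w - 1 with ho
  have hw' : w = 1 + o := by rw [ho]; ring
  have ho0 : 0 ≤ o := by linarith only [hw]
  rw [hw'] at hN hy
  have h1 : (s + 2) * o + A * V < s := by nlinarith only [hy, hcon]
  have h2 : 0 < (ζ - ((s + 1) * o + A * V)) * ((s * (1 + o) + A * V) - (ζ + ((s + 1) * o + A * V))) := by
    apply mul_pos (by linarith only [hcon]) (by linarith only [hy, hcon])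
  have h3 : 0 < -(o * ((s ^ 2 + s - 2) + (s - A) * V - (s + 2) * o)) + V * (V - s * (1 + A)) := by
    nlinarith only [hN, h2]
  have h4 : V ≤ s * (1 + A) := by
    have h5 : A * V < s * (A * (1 + A)) := by nlinarith only [hs0, hA1, ho0, h1]
    have h6 : A * V < A * (s * (1 + A)) := by nlinarith only [h5]
    exact (lt_of_mul_lt_mul_left h6 hA.le).le
  have h5 : 0 ≤ (s ^ 2 + s - 2) + (s - A) * V - (s + 2) * o := by
    have := mul_pos hs0 hV
    nlinarith only [hs0, hs, hV, hy, hcon]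
  have h6 := mul_nonneg ho0 h5
  have h7 : V * (V - s * (1 + A)) ≤ 0 := mul_nonpos_of_nonneg_of_nonpos hV.le (by linarith only [h4])
  linarith only [h3, h6, h7]

/-- `T = 0`, `A = 0` -/
theorem zero_0 {s w V ζ : ℝ} (hs0 : 0 < s) (hs : 2 ≤ s ^ 2)
    (hw : 1 ≤ w) (hV : 0 < V) (hN : V ^ 2 + ζ ^ 2 + w ^ 2 - s * w * (V + ζ) = 1)
    (hy : 1 ≤ (s + 1) * (s * w / 2 - ζ)) (hv : V ≤ s * w - ζ) : ζ ≤ (s + 1) * (w - 1) := by
  by_contra hcon
  rw [not_le] at hcon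
  have hs1 : 1 ≤ s := by nlinarith only [hs0, hs]
  have h0 : 0 < ζ := lt_of_le_of_lt (mul_nonneg (by linarith only [hs1]) (by linarith only [hw])) hcon
  have h1 : 0 ≤ V * (s * w - V) := mul_nonneg hV.le (by linarith only [hv, h0])
  have h2 : ζ * (s * w - ζ) ≤ (w - 1) * (w + 1) := by nlinarith only [hN, h1]
  have h3 : (s + 1) * (w - 1) * (w + 1) ≤ ζ * (w + 1) :=
    mul_le_mul_of_nonneg_right hcon.le (by linarith only [hw])
  have h4 : ζ * ((s + 1) * (s * w - ζ)) ≤ ζ * (w + 1) := by nlinarith only [hs1, h2, h3]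
  have h5 : (s + 1) * (s * w - ζ) ≤ w + 1 := le_of_mul_le_mul_left h4 h0
  have h6 : (s + 1) * (s * w) ≤ 2 * w := by nlinarith only [hy, h5]
  nlinarith only [hs0, hs, hw, h6]

/-- the criterion K, multiplied by `s + 1` -/
def KK (A s w V ζ : ℝ) : Prop :=
  0 < (s + 1) * (s * (A + 3) * w + (A ^ 2 + A - s ^ 2) * V - (2 * A + 2 + s ^ 2) * ζ - 2) - 2 * (A + s ^ 2)

theorem KK_of {A s w V ζ p c y : ℝ} (hs0 : 0 < s) (hl : 0 < A + s ^ 2) (hp : 1 ≤ (A + s ^ 2) * p) (hc : 0 ≤ c)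
    (hy : y = (s * w + A * V) / 2 - ζ)
    (hcc : c = V * (s ^ 2 * (A + 1) / 2 - A / 2) + w * (s ^ 3 - 3 * s) / 2 - (s ^ 2 / 2 - 1) * ζ)
    (hK : (s + 1) * p * (1 + c) < (s + 1) * y - 1) : KK A s w V ζ := by
  have h1 : (s + 1) * (1 + c) ≤ (A + s ^ 2) * ((s + 1) * p * (1 + c)) := by
    have h2 : 0 ≤ (s + 1) * (1 + c) := by positivity
    nlinarith only [mul_le_mul_of_nonneg_left hp h2]
  have h2 : (A + s ^ 2) * ((s + 1) * p * (1 + c)) < (A + s ^ 2) * ((s + 1) * y - 1) :=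
    mul_lt_mul_of_pos_left hK hl
  unfold KK
  rw [hy] at h2
  rw [hcc] at h1 h2
  nlinarith only [h1, h2]

/-- bounds for `e`, `e + 1 / e = l` -/
theorem e_le {e l e0 : ℝ} (he : e ^ 2 - l * e + 1 = 0) (he1 : e ≤ 1) (hl : 2 < l) (he01 : e0 ≤ 1)
    (h0 : e0 ^ 2 - l * e0 + 1 ≤ 0) : e ≤ e0 := by
  by_contra hcon
  rw [not_le] at hcon
  have h1 : 0 < (e - e0) * (l - e - e0) := mul_pos (by linarith only [hcon]) (by linarith only [he1, hl, hcon])
  nlinarith only [he, h0, h1]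

theorem e_le' {e l e0 : ℝ} (he : e ^ 2 - l * e + 1 = 0) (he0 : 0 < e) (h : e ≤ e0) : e * (l - e0) ≤ 1 := by
  nlinarith only [he, he0, h]

/-- `ζ ≥ 1 / a`, `a = √2` -/
theorem big_0 {s w V ζ e : ℝ} (hs0 : 0 < s) (hs : s + 1 ≤ s ^ 2) (hV : 1 ≤ 2 * V ^ 2) (hV0 : 0 < V)
    (hζ : 1 ≤ 2 * ζ ^ 2) (hζ0 : 0 < ζ) (he : e ^ 2 - s ^ 2 * e + 1 = 0) (he0 : 0 < e) (he1 : e ≤ 1)
    (hK : KK 0 s w V ζ) (hC : (s + 1) * (w - 1) + (0 - (s + 1) * e) * V < ζ) : False := by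
  have hs1 : 1.618 < s := by nlinarith only [hs0, hs]
  have e1 : e ≤ 0.47 := e_le he he1 (by nlinarith only [hs1]) (by norm_num) (by nlinarith only [hs1])
  unfold KK at hK
  have v1 : 0.7 ≤ V := by nlinarith only [hV, hV0]
  have z1 : 0.7 ≤ ζ := by nlinarith only [hζ, hζ0]
  have h1 : s * (s + 1) * (s - 3 * e) * V + (s ^ 3 + s ^ 2 - s + 2) * ζ < s ^ 2 + s - 2 := by
    nlinarith only [hK, mul_lt_mul_of_pos_left hC (by linarith only [hs1] : 0 < 3 * s)]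
  have h2 : 0 ≤ s * (s + 1) * (s - 3 * e) * V := by
    have : 0 ≤ s - 3 * e := by linarith only [hs1, e1]
    positivity
  have h3 : 0 < s ^ 3 + s ^ 2 - s + 2 := by nlinarith only [mul_pos hs0 (mul_pos hs0 hs0)]
  have h4 := mul_le_mul_of_nonneg_left z1 h3.le
  nlinarith only [h1, h2, h4, mul_pos hs0 (mul_pos hs0 hs0)]

/-- combination with multiplier `A + 3` -/
theorem comb_m {A s w V ζ e : ℝ} (hs0 : 0 < s) (hA : 0 ≤ A) (hw : 1 ≤ w)
    (hK : KK A s w V ζ) (hC : (s + 1) * (w - 1) + (A - (s + 1) * e) * V < ζ) :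
    (s + 1) * ((2 * A + s ^ 2 - (A + 3) * ((s + 1) * e)) * V + (A + s ^ 2 - 1) * ζ) <
      (A + 1) * (s ^ 2 + s - 2) := by
  unfold KK at hK
  have h1 := mul_lt_mul_of_pos_left hC (by positivity : 0 < (A + 3) * (s + 1))
  have h2 : 0 ≤ (s + 1) * (A + 3) * (w - 1) := mul_nonneg (by positivity) (by linarith only [hw])
  nlinarith only [hw, hK, hC, h1]

theorem comb_fin {A a s V ζ g : ℝ} (hs0 : 0 < s) (ha0 : 0 < a)
    (hV : 1 ≤ a * V) (hζ : 1 ≤ a * ζ) (h1 : 0 ≤ 2 * A + s ^ 2 - g) (h2 : 0 ≤ A + s ^ 2 - 1)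
    (h : (s + 1) * ((2 * A + s ^ 2 - g) * V + (A + s ^ 2 - 1) * ζ) < (A + 1) * (s ^ 2 + s - 2))
    (hf : a * ((A + 1) * (s ^ 2 + s - 2)) ≤ (s + 1) * (3 * A + 2 * s ^ 2 - 1 - g)) : False := by
  have k1 := mul_lt_mul_of_pos_left h ha0
  have k2 := mul_le_mul_of_nonneg_left hV h1
  have k3 := mul_le_mul_of_nonneg_left hζ h2
  have k4 : (s + 1) * (3 * A + 2 * s ^ 2 - 1 - g) ≤
      a * ((s + 1) * ((2 * A + s ^ 2 - g) * V + (A + s ^ 2 - 1) * ζ)) := by
    have : a * ((s + 1) * ((2 * A + s ^ 2 - g) * V + (A + s ^ 2 - 1) * ζ)) =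
        (s + 1) * ((2 * A + s ^ 2 - g) * (a * V) + (A + s ^ 2 - 1) * (a * ζ)) := by ring
    rw [this]
    apply mul_le_mul_of_nonneg_left _ (by linarith only [hs0])
    linarith only [k2, k3]
  linarith only [hf, k1, k4]

/-- `ζ ≥ 1 / a`, `√3 ≤ a ≤ 2` -/
theorem big_m {A a s w V ζ e : ℝ} (hs0 : 0 < s) (hs : 2 ≤ s ^ 2) (hA1 : 1 ≤ A) (hA2 : A ≤ 2)
    (ha0 : 0 < a) (ha : a ^ 2 = A + 2) (hw : 1 ≤ w) (hV : 1 ≤ a * V)
    (hζ : 1 ≤ a * ζ) (he : e ^ 2 - (A + s ^ 2) * e + 1 = 0) (he0 : 0 < e) (he1 : e ≤ 1)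
    (hK : KK A s w V ζ) (hC : (s + 1) * (w - 1) + (A - (s + 1) * e) * V < ζ) : False := by
  have hs1 : 1.4142 < s := by nlinarith only [hs0, hs]
  have e1 : e ≤ 0.382 := e_le he he1 (by nlinarith only [hs, hA1]) (by norm_num) (by nlinarith only [hs, hA1])
  have e2 := e_le' he he0 e1
  have e3 : (A + 3) * ((s + 1) * e) ≤ 3.7 := by
    have h1 : (A + 3) * (s + 1) ≤ 3.7 * (A + s ^ 2 - 0.382) := by
      rcases le_or_gt s 2.7 with h | h
      · nlinarith only [hs1, mul_nonneg (sub_nonneg.2 hA1) (sub_nonneg.2 h)]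
      · nlinarith only [h, mul_nonneg (sub_nonneg.2 hA2) (sub_nonneg.2 h.le)]
    have h2 : (A + 3) * ((s + 1) * e) = ((A + 3) * (s + 1)) * e := by ring
    rw [h2]
    have h3 := mul_le_mul_of_nonneg_right h1 he0.le
    linarith only [e2, h3]
  have h1 := comb_m hs0 (by linarith only [hA1]) hw hK hC
  refine comb_fin hs0 ha0 hV hζ (by linarith only [hs, hA1, e3]) (by linarith only [hs, hA1]) h1 ?_
  have h2 : a ≤ 1.4434 + 0.2887 * A := by
    by_contra hcon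
    rw [not_le] at hcon
    nlinarith only [hA1, ha, hcon, sq_nonneg (A - 1)]
  have h3 : 0 ≤ (A + 1) * (s ^ 2 + s - 2) := by
    apply mul_nonneg (by linarith only [hA1])
    linarith only [hs0, hs]
  have h4 : a * ((A + 1) * (s ^ 2 + s - 2)) ≤ (1.4434 + 0.2887 * A) * ((A + 1) * (s ^ 2 + s - 2)) :=
    mul_le_mul_of_nonneg_right h2 h3
  have h5 : (1.4434 + 0.2887 * A) * ((A + 1) * (s ^ 2 + s - 2)) ≤ (s + 1) * (3 * A + 2 * s ^ 2 - 1 - 3.7) := by
    have k1 : 0 ≤ (s ^ 2 + s - 2) * ((A - 1) * (2 - A)) :=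
      mul_nonneg (by linarith only [hs0, hs]) (mul_nonneg (by linarith only [hA1]) (by linarith only [hA2]))
    have k2 : 0 ≤ (2 - A) * (2 * s ^ 3 - 1.4642 * s ^ 2 - 5.1642 * s + 5.2284) := by
      apply mul_nonneg (by linarith only [hA2])
      nlinarith only [mul_nonneg hs0.le (sq_nonneg (s - 1.3)), sq_nonneg (s - 1.3)]
    have k3 : 0 ≤ (A - 1) * (2 * s ^ 3 - 4.0624 * s ^ 2 - 4.7624 * s + 13.4248) := by
      apply mul_nonneg (by linarith only [hA1])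
      nlinarith only [mul_nonneg hs0.le (sq_nonneg (s - 1.9)), sq_nonneg (s - 1.9)]
    nlinarith only [k1, k2, k3]
  have h6 : (s + 1) * (3 * A + 2 * s ^ 2 - 1 - 3.7) ≤
      (s + 1) * (3 * A + 2 * s ^ 2 - 1 - (A + 3) * ((s + 1) * e)) :=
    mul_le_mul_of_nonneg_left (by linarith only [e3]) (by linarith only [hs1])
  linarith only [h4, h5, h6]

/-- `ζ ≥ 1 / a`, `a = (1 + √5) / 2`, `s ≥ a` -/
theorem big_5 {A a s w V ζ e : ℝ} (hs0 : 0 < s) (hs : s + 1 ≤ s ^ 2) (hA0 : 0 < A) (hA : A ^ 2 + A = 1)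
    (ha0 : 0 < a) (ha : a ^ 2 = A + 2) (hw : 1 ≤ w) (hV : 1 ≤ a * V)
    (hζ : 1 ≤ a * ζ) (he : e ^ 2 - (A + s ^ 2) * e + 1 = 0) (he0 : 0 < e) (he1 : e ≤ 1)
    (hK : KK A s w V ζ) (hC : (s + 1) * (w - 1) + (A - (s + 1) * e) * V < ζ) : False := by
  have hs1 : 1.618 < s := by nlinarith only [hs0, hs]
  have hA1 : 0.618 < A := by nlinarith only [hA0, hA]
  have hA2 : A < 0.6181 := by nlinarith only [hA]
  have e1 : e ≤ 0.382 := e_le he he1 (by nlinarith only [hs1, hA1]) (by norm_num) (by nlinarith only [hs1, hA1])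
  have e2 := e_le' he he0 e1
  have e3 : (A + 3) * ((s + 1) * e) ≤ 3.7 := by
    have h1 : (A + 3) * (s + 1) ≤ 3.7 * (A + s ^ 2 - 0.382) := by
      nlinarith only [hs1, hA1, hA2]
    have h2 : (A + 3) * ((s + 1) * e) = ((A + 3) * (s + 1)) * e := by ring
    rw [h2]
    have h3 := mul_le_mul_of_nonneg_right h1 he0.le
    linarith only [e2, h3]
  have h1 := comb_m hs0 (by linarith only [hA1]) hw hK hC
  refine comb_fin hs0 ha0 hV hζ (by nlinarith only [hs1, hA1, e3]) (by nlinarith only [hs1, hA1]) h1 ?_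
  have h2 : a * (A + 1) = A + 2 := by
    have h3 : (a * (A + 1)) ^ 2 = (A + 2) ^ 2 := by
      have : (a * (A + 1)) ^ 2 = a ^ 2 * (A ^ 2 + A + A + 1) := by ring
      rw [this, ha, hA]
      ring
    have h4 : 0 < a * (A + 1) := by positivity
    nlinarith only [hA1, h3, h4]
  have h3 : a * ((A + 1) * (s ^ 2 + s - 2)) = (A + 2) * (s ^ 2 + s - 2) := by
    rw [← h2]
    ring
  rw [h3]
  have h6 : (s + 1) * (3 * A + 2 * s ^ 2 - 1 - 3.7) ≤
      (s + 1) * (3 * A + 2 * s ^ 2 - 1 - (A + 3) * ((s + 1) * e)) :=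
    mul_le_mul_of_nonneg_left (by linarith only [e3]) (by linarith only [hs1])
  have h7 : (A + 2) * (s ^ 2 + s - 2) ≤ (s + 1) * (3 * A + 2 * s ^ 2 - 1 - 3.7) := by
    have k2 : (A + 2) * (s ^ 2 + s - 2) ≤ 2.6181 * (s ^ 2 + s - 2) :=
      mul_le_mul_of_nonneg_right (by linarith only [hA2]) (by nlinarith only [hs1])
    have k3 : (s + 1) * (2 * s ^ 2 - 2.846) ≤ (s + 1) * (3 * A + 2 * s ^ 2 - 1 - 3.7) :=
      mul_le_mul_of_nonneg_left (by linarith only [hA1]) (by linarith only [hs1])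
    nlinarith only [hs1, hA1, hA2, mul_nonneg hs0.le (sq_nonneg (s - 1.6)), sq_nonneg (s - 1.6)]
  linarith only [h6, h7]

/-- `a ≥ 2` -/
theorem big_2 {A a s w V ζ e : ℝ} (hs0 : 0 < s) (hs : 2 ≤ s ^ 2) (hA2 : 2 ≤ A)
    (ha0 : 0 < a) (ha : a ^ 2 = A + 2) (hw : 1 ≤ w) (hV : 1 ≤ a * V)
    (he : e ^ 2 - (A + s ^ 2) * e + 1 = 0) (he0 : 0 < e) (he1 : e ≤ 1)
    (hK : KK A s w V ζ) (hC : (s + 1) * (w - 1) + (A - (s + 1) * e) * V < ζ) : False := by
  have hs1 : 1.4142 < s := by nlinarith only [hs0, hs]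
  have ha2 : 2 ≤ a := by nlinarith only [hA2, ha0, ha]
  have e1 : e ≤ 0.27 := e_le he he1 (by nlinarith only [hs, hA2]) (by norm_num) (by nlinarith only [hs, hA2])
  have e2 := e_le' he he0 e1
  have e3 : (2 * A + 2 + s ^ 2) * e ≤ 2.15 := by
    nlinarith only [hA2, hs1, e2]
  unfold KK at hK
  have h1 : 0 < (A + 1) * (s ^ 2 + s - 2) +
      (s + 1) * (-((A + 1) * (A + s ^ 2)) + (2 * A + 2 + s ^ 2) * ((s + 1) * e)) * V := by
    have k1 := mul_lt_mul_of_pos_left hC (by positivity : 0 < (2 * A + 2 + s ^ 2) * (s + 1))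
    have k2 : 0 ≤ ((2 * A + 2 + s ^ 2) * (s + 1) - s * (A + 3)) * (w - 1) := by
      apply mul_nonneg _ (by linarith only [hw])
      nlinarith only [hs1, mul_pos hs0 (mul_pos hs0 hs0), mul_pos hs0 (by linarith only [hA2] : 0 < A)]
    nlinarith only [hK, hs1, k1, k2]
  have V0 : 0 < V := by
    by_contra h
    rw [not_lt] at h
    nlinarith only [hV, mul_nonneg ha0.le (neg_nonneg.2 h)]
  have h2 : (s + 1) * (-((A + 1) * (A + s ^ 2)) + (2 * A + 2 + s ^ 2) * ((s + 1) * e)) * V ≤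
      (s + 1) * (-((A + 1) * (A + s ^ 2)) + 2.15 * (s + 1)) * V := by
    apply mul_le_mul_of_nonneg_right _ V0.le
    apply mul_le_mul_of_nonneg_left _ (by linarith only [hs1])
    nlinarith only [hs1, e3]
  have h3 : 0 ≤ (A + 1) * (A + s ^ 2) - 2.15 * (s + 1) := by nlinarith only [hA2, hs1]
  have h4 : (s + 1) * ((A + 1) * (A + s ^ 2) - 2.15 * (s + 1)) < a * ((A + 1) * (s ^ 2 + s - 2)) := by
    have k1 : (s + 1) * ((A + 1) * (A + s ^ 2) - 2.15 * (s + 1)) * V < (A + 1) * (s ^ 2 + s - 2) := by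
      linarith only [h1, h2]
    have k2 := mul_lt_mul_of_pos_left k1 ha0
    have k3 := mul_le_mul_of_nonneg_left hV (mul_nonneg (by linarith only [hs1] : 0 ≤ s + 1) h3)
    linarith only [k2, k3]
  have h5 : a * ((A + 1) * (s ^ 2 + s - 2)) ≤ (s + 1) * ((A + 1) * (A + s ^ 2) - 2.15 * (s + 1)) := by
    have hAa : A = a ^ 2 - 2 := by linarith only [ha]
    have k1 : 2.15 * (s + 1) ^ 2 ≤ 3 * ((a ^ 2 - 2 + s ^ 2) * (s + 1) - a * (s ^ 2 + s - 2)) := by
      rcases le_or_gt s 4 with h | h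
      · have k2 : 0 ≤ (a - 2) * ((a + 2) * (s + 1) - (s ^ 2 + s - 2)) := by
          apply mul_nonneg (by linarith only [ha2])
          nlinarith only [hs1, ha2, h]
        nlinarith only [k2, mul_nonneg hs0.le (sq_nonneg (s - 1.6)), sq_nonneg (s - 1.6)]
      · nlinarith only [h, mul_nonneg (by linarith only [h] : 0 ≤ s + 1) (sq_nonneg (a - s / 2)), mul_pos ha0 hs0,
          mul_nonneg hs0.le (sq_nonneg (s - 4))]
    have k2 : 3 * ((a ^ 2 - 2 + s ^ 2) * (s + 1) - a * (s ^ 2 + s - 2)) ≤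
        (A + 1) * ((a ^ 2 - 2 + s ^ 2) * (s + 1) - a * (s ^ 2 + s - 2)) := by
      apply mul_le_mul_of_nonneg_right (by linarith only [hA2])
      nlinarith only [k1, sq_nonneg (s + 1)]
    rw [hAa] at k2 ⊢
    nlinarith only [k1, k2]
  linarith only [h4, h5]

/-- `ζ ≥ 1 / a`, `a = (1 + √5) / 2`, `s = √2` -/
theorem big_54 {A a s w V ζ e : ℝ} (hs0 : 0 < s) (hs : s ^ 2 = 2) (hA0 : 0 < A) (hA : A ^ 2 + A = 1)
    (ha0 : 0 < a) (ha : a ^ 2 = A + 2) (hw : 1 ≤ w) (hV0 : 0 < V)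
    (hζ : 1 ≤ a * ζ) (he : e ^ 2 - (A + s ^ 2) * e + 1 = 0) (he1 : e ≤ 1)
    (hN : V ^ 2 + ζ ^ 2 + w ^ 2 - s * w * (V + ζ) - A * V * ζ = 1)
    (hK : KK A s w V ζ) (hC : (s + 1) * (w - 1) + (A - (s + 1) * e) * V < ζ) : False := by
  have hs1 : 1.4142 < s := by nlinarith only [hs0, hs]
  have hs2 : s < 1.4143 := by nlinarith only [hs]
  have hA1 : 0.618 < A := by nlinarith only [hA0, hA]
  have hA2 : A < 0.6181 := by nlinarith only [hA]
  have ha1 : a < 1.6181 := by nlinarith only [ha, hA2]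
  have z1 : 0.618 < ζ := by
    by_contra h
    rw [not_lt] at h
    nlinarith only [hζ, ha1, mul_nonneg ha0.le (sub_nonneg.2 h)]
  have e1 : e ≤ 0.4644 := e_le he he1 (by nlinarith only [hs1, hA1]) (by norm_num) (by nlinarith only [hs1, hA1])
  unfold KK at hK
  rw [hs] at hK
  have hA' : A ^ 2 + A - 2 = -1 := by linarith only [hA]
  rw [hA'] at hK
  have h1 : s * (A + 3) ≤ 5.1175 := by nlinarith only [hs2, hA1, hA2]
  have h1' : 5.116 ≤ s * (A + 3) := by nlinarith only [hs1, hA1]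
  have hf : (A - (s + 1) * e) * V ≥ -(0.5032 * V) := by
    have : -(0.5032 : ℝ) ≤ A - (s + 1) * e := by nlinarith only [hs2, hA1, e1, hA', h1']
    nlinarith only [mul_le_mul_of_nonneg_right this hV0.le]
  have hC' : (s + 1) * (w - 1) < ζ + 0.5032 * V := by linarith only [hC, hf]
  have hK' : (s + 1) * V + (s + 1) * ((2 * A + 4) * ζ) <
      (s + 1) * (s * (A + 3) - 2) - 2 * (A + 2) + s * (A + 3) * ((s + 1) * (w - 1)) := by nlinarith only [hK]
  have h2 : s * (A + 3) * ((s + 1) * (w - 1)) ≤ 5.1175 * (ζ + 0.5032 * V) := by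
    have k1 : 0 ≤ (s + 1) * (w - 1) := mul_nonneg (by linarith only [hs1]) (by linarith only [hw])
    have k2 := mul_le_mul_of_nonneg_right h1 k1
    have k3 : 5.1175 * ((s + 1) * (w - 1)) ≤ 5.1175 * (ζ + 0.5032 * V) := by linarith only [hC']
    linarith only [hC', k2]
  have h3 : (s + 1) * (s * (A + 3) - 2) - 2 * (A + 2) ≤ 2.2925 := by nlinarith only [hs1, hA1, h1]
  have h4 : 12.64 * ζ ≤ (s + 1) * ((2 * A + 4) * ζ) := by
    have k1 : 12.64 ≤ (s + 1) * (2 * A + 4) := by nlinarith only [hA1, hA', h1']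
    have k2 := mul_le_mul_of_nonneg_right k1 (by linarith only [z1] : 0 ≤ ζ)
    linarith only [k2]
  have h5 : 2.4142 * V ≤ (s + 1) * V := mul_le_mul_of_nonneg_right (by linarith only [hs1]) hV0.le
  have h6 : 7.5225 * ζ ≤ 2.2925 + 0.1613 * V := by linarith only [z1, hK', h2, h3, h4, h5]
  have h7 : 14 < V := by linarith only [z1, h6]
  have h8 : ζ ≤ 0.045 * V := by linarith only [h6, h7]
  have h9 : w ≤ 0.299 * V := by
    have k1 : 2.4142 * (w - 1) ≤ (s + 1) * (w - 1) := mul_le_mul_of_nonneg_right (by linarith only [hs1]) (by linarith only [hw])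
    linarith only [hC', h7, h8, k1]
  have h10 : s * w * (V + ζ) ≤ 0.45 * V ^ 2 := by
    have k1 : s * w ≤ 0.423 * V := by nlinarith only [hA', h1, h1', hC', h3, h5, h7, h8, h9]
    have k2 : V + ζ ≤ 1.045 * V := by linarith only [h8]
    have k3 := mul_le_mul k1 k2 (by linarith only [z1, k2]) (by linarith only [h7])
    nlinarith only [k3]
  have h11 : A * V * ζ ≤ 0.03 * V ^ 2 := by
    have k1 : A * V ≤ 0.6181 * V := mul_le_mul_of_nonneg_right hA2.le hV0.le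
    have k3 := mul_le_mul k1 h8 (by linarith only [z1]) (by linarith only [h7])
    nlinarith only [k3]
  nlinarith only [hN, h7, h10, h11]

/-! ### `ζ = 0` -/

/-- `A ≥ 1` -/
theorem z0_a {A s w V e : ℝ} (hs0 : 0 < s) (hs : 2 ≤ s ^ 2) (hA1 : 1 ≤ A) (hw : 1 ≤ w) (hV : 0 < V)
    (he : e ^ 2 - (A + s ^ 2) * e + 1 = 0) (he0 : 0 < e) (he1 : e ≤ 1) :
    0 ≤ (s + 1) * (w - 1) + (A - (s + 1) * e) * V := by
  have hs1 : 1.4142 < s := by nlinarith only [hs0, hs]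
  have e1 : e ≤ 0.382 := e_le he he1 (by nlinarith only [hs, hA1]) (by norm_num) (by nlinarith only [hs, hA1])
  have e2 := e_le' he he0 e1
  have e3 : (s + 1) * e ≤ 1 := by
    have h1 : s + 1 ≤ A + s ^ 2 - 0.382 := by nlinarith only [hs, hA1]
    have := mul_le_mul_of_nonneg_left h1 he0.le
    linarith only [e2, this]
  have h2 : 0 ≤ (A - (s + 1) * e) * V := mul_nonneg (by linarith only [hA1, e3]) hV.le
  have h3 : 0 ≤ (s + 1) * (w - 1) := mul_nonneg (by linarith only [hs1]) (by linarith only [hw])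
  linarith only [h2, h3]

/-- `A = 0`, `s ≥ √3` -/
theorem z0_b {s w V e : ℝ} (hs0 : 0 < s) (hs : 3 ≤ s ^ 2) (hV : 1 ≤ V)
    (he : e ^ 2 - s ^ 2 * e + 1 = 0) (he0 : 0 < e) (he1 : e ≤ 1) (hK : KK 0 s w V 0)
    (hC : (s + 1) * (w - 1) + (0 - (s + 1) * e) * V < 0) : False := by
  have hs1 : 1.732 < s := by nlinarith only [hs0, hs]
  have e1 : e ≤ 0.382 := e_le he he1 (by nlinarith only [hs1]) (by norm_num) (by nlinarith only [hs1])
  unfold KK at hK
  have h1 : s * (s + 1) * (s - 3 * e) * V < s ^ 2 + s - 2 := by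
    nlinarith only [hK, mul_lt_mul_of_pos_left hC (by linarith only [hs1] : 0 < 3 * s)]
  have h2 : 0 ≤ s * (s + 1) * (s - 3 * e) := by
    have : 0 ≤ s - 3 * e := by linarith only [hs1, e1]
    positivity
  have h3 := mul_le_mul_of_nonneg_left hV h2
  have h4 : s * (s * (s + 1) * (s - 3 * e)) < s * (s ^ 2 + s - 2) := mul_lt_mul_of_pos_left (by linarith only [h1, h3]) hs0
  have h5 : s * (s * (s + 1) * (s - 3 * e)) = s ^ 3 * (s + 1) - 3 * (s + 1) * (1 + e ^ 2) := by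
    have : s ^ 2 * e = 1 + e ^ 2 := by linarith only [he]
    linear_combination (-3 * (s + 1)) * this
  have h6 : e ^ 2 ≤ 0.14593 := by nlinarith only [hs1, e1, h2, h4]
  have h7 : 3 * (s + 1) * (1 + e ^ 2) ≤ 3 * (s + 1) * 1.14593 :=
    mul_le_mul_of_nonneg_left (by linarith only [h6]) (by linarith only [hs1])
  have h8 : 0 ≤ s ^ 4 - s ^ 2 + 2 * s - 3 * (s + 1) * 1.14593 := by
    have k1 : 1.73205 < s := by nlinarith only [hs0, hs]
    have k2 : s ^ 4 - s ^ 2 = s ^ 2 * (s ^ 2 - 1) := by ring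
    have k3 : 3 * 2 ≤ s ^ 2 * (s ^ 2 - 1) := by nlinarith only [h1, h2, h3, h5, h7, k1]
    have k4 : 5 * s ≤ s ^ 2 * (s ^ 2 - 1) + (5 * 1.7321 - 6) := by
      have k5 : 0 ≤ (s ^ 2 - 3) * (s ^ 2 + 2) := mul_nonneg (by linarith only [hs]) (by positivity)
      nlinarith only [hs, hs1]
    nlinarith only [k3, k4]
  nlinarith only [h4, h5, h7, h8]

/-- `A^2 + A = 1`, `s ≥ 9/5` -/
theorem z0_c {A s w V e : ℝ} (hs : 1.8 ≤ s) (hA0 : 0 < A) (hA : A ^ 2 + A = 1) (hV : 1 ≤ V)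
    (he : e ^ 2 - (A + s ^ 2) * e + 1 = 0) (he0 : 0 < e) (he1 : e ≤ 1) (hK : KK A s w V 0)
    (hC : (s + 1) * (w - 1) + (A - (s + 1) * e) * V < 0) : False := by
  have hA1 : 0.618 < A := by nlinarith only [hA0, hA]
  have hA2 : A < 0.6181 := by nlinarith only [hA]
  have e1 : e ≤ 0.28 := e_le he he1 (by nlinarith only [hs, hA0]) (by norm_num) (by nlinarith only [hs, hA1])
  have e2 := e_le' he he0 e1
  unfold KK at hK
  have h1 : 0 < (A + 1) * (s ^ 2 + s - 2) +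
      ((s + 1) * (1 - s ^ 2) - s * (1 + 2 * A) + s * ((A + 3) * ((s + 1) * e))) * V := by
    have k1 := mul_lt_mul_of_pos_left hC (by positivity : 0 < s * (A + 3))
    have k2 : s * (A + 3) * ((s + 1) * (w - 1) + (A - (s + 1) * e) * V) =
      s * (A + 3) * (s + 1) * (w - 1) + s * (A ^ 2 + A + 2 * A) * V - s * ((A + 3) * ((s + 1) * e)) * V := by ring
    rw [k2] at k1
    rw [hA] at k1 hK
    nlinarith only [hK, k1]
  have h2 : (A + 3) * ((s + 1) * e) ≤ 2.85 := by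
    have k1 : (A + 3) * (s + 1) ≤ 2.85 * (A + s ^ 2 - 0.28) := by nlinarith only [hs, hA0, hA]
    have k2 := mul_le_mul_of_nonneg_right k1 he0.le
    nlinarith only [e2, k2]
  have h3 : (s + 1) * (1 - s ^ 2) - s * (1 + 2 * A) + s * ((A + 3) * ((s + 1) * e)) ≤
      (s + 1) * (1 - s ^ 2) - s * 2.236 + s * 2.85 := by
    have k1 := mul_le_mul_of_nonneg_left h2 (by linarith only [hs] : 0 ≤ s)
    nlinarith only [hs, hA0, hA, k1]
  have h4 : (s + 1) * (1 - s ^ 2) - s * 2.236 + s * 2.85 ≤ 0 := by nlinarith only [hs]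
  have h5 : ((s + 1) * (1 - s ^ 2) - s * (1 + 2 * A) + s * ((A + 3) * ((s + 1) * e))) * V ≤
      (s + 1) * (1 - s ^ 2) - s * 2.236 + s * 2.85 := by
    have k1 := mul_le_mul_of_nonneg_right h3 (by linarith only [hV] : 0 ≤ V)
    nlinarith only [hV, h4, k1]
  have h6 : (A + 1) * (s ^ 2 + s - 2) ≤ 1.6181 * (s ^ 2 + s - 2) :=
    mul_le_mul_of_nonneg_right (by linarith only [hA2]) (by nlinarith only [hA1, h2, h3, h4])
  nlinarith only [h1, h5, h6, mul_nonneg (by linarith only [hs] : 0 ≤ s - 1.8) (sq_nonneg (s - 1.8)), sq_nonneg (s - 1.8)]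

/-- `A^2 + A = 1`, `s ≤ √3` -/
theorem z0_d {A s w V e : ℝ} (hs0 : 0 < s) (hs : 2 ≤ s ^ 2) (hs3 : s ^ 2 ≤ 3) (hA0 : 0 < A)
    (hA : A ^ 2 + A = 1) (hw : 1 ≤ w) (hV : 1 ≤ V) (hN : V ^ 2 + w ^ 2 - s * w * V = 1)
    (hM : s * w - V = 0 ∨ 1 ≤ s * w - V)
    (he : e ^ 2 - (A + s ^ 2) * e + 1 = 0) (he1 : e ≤ 1) (hK : KK A s w V 0)
    (hC : (s + 1) * (w - 1) + (A - (s + 1) * e) * V < 0) : False := by
  have hA1 : 0.618 < A := by nlinarith only [hA0, hA]
  have hA2 : A < 0.6181 := by nlinarith only [hA]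
  have hs1 : 1.4142 < s := by nlinarith only [hs0, hs]
  have hs2 : s < 1.7321 := by nlinarith only [hs3]
  rcases hM with hM | hM
  · have h1 : V = s * w := by linarith only [hM]
    rw [h1] at hN
    have h2 : w = 1 := by nlinarith only [hw, hN]
    rw [h2, mul_one] at h1
    rw [h1, h2] at hK
    unfold KK at hK
    have h3 : (s + 1) * (s * (A + 3) * 1 + (A ^ 2 + A - s ^ 2) * s - (2 * A + 2 + s ^ 2) * 0 - 2) -
        2 * (A + s ^ 2) ≤ 0 := by
      rw [hA]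
      have k1 : s * (s + 1) * (4 + A - s ^ 2) ≤ s * (s + 1) * 2.6181 :=
        mul_le_mul_of_nonneg_left (by linarith only [hs, hA2]) (by positivity)
      nlinarith only [hA1, k1]
    linarith only [hK, h3]
  · have e1 : e ≤ 0.5 := e_le he he1 (by nlinarith only [hA1, hs1]) (by norm_num) (by nlinarith only [hA1, hs1])
    have h1 : V ≤ w ^ 2 - 1 := by nlinarith only [hV, hN, hM]
    have h2 : w ≤ 2 := by nlinarith only [hs3, hN, sq_nonneg (V - s * w / 2)]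
    have h3 : 0 < (s + 1) * e - A := by
      by_contra h
      rw [not_lt] at h
      have k1 : 0 ≤ (A - (s + 1) * e) * V := mul_nonneg (by linarith only [h]) (by linarith only [hV])
      have k2 : 0 ≤ (s + 1) * (w - 1) := mul_nonneg (by linarith only [hs1]) (by linarith only [hw])
      linarith only [hC, k1, k2]
    have h4 := mul_le_mul_of_nonneg_left h1 h3.le
    have h5 : 0 < w - 1 := by nlinarith only [hw, hV, h1]
    have h6 : (w - 1) * (s + 1) < (w - 1) * (((s + 1) * e - A) * (w + 1)) := by nlinarith only [hC, h4]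
    have h7 := lt_of_mul_lt_mul_left h6 h5.le
    have h8 : ((s + 1) * e - A) * (w + 1) ≤ ((s + 1) * e - A) * 3 :=
      mul_le_mul_of_nonneg_left (by linarith only [h2]) h3.le
    nlinarith only [hA1, hs1, hs2, e1, h7, h8]

/-- `A = 0`, `s = (1 + √5) / 2` -/
theorem z0_e {s w V e : ℝ} (hs0 : 0 < s) (hs : s ^ 2 = s + 1) (hw : 1 ≤ w) (hV : 1 ≤ V)
    (hN : V ^ 2 + w ^ 2 - s * w * V = 1) (hM : s * w - V = 0 ∨ 1 ≤ s * w - V)
    (hM' : s * V - w = 0 ∨ 1 ≤ s * V - w)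
    (he : e ^ 2 - s ^ 2 * e + 1 = 0) (he1 : e ≤ 1) (hK : KK 0 s w V 0)
    (hC : (s + 1) * (w - 1) + (0 - (s + 1) * e) * V < 0) : False := by
  have hs1 : 1.618 < s := by nlinarith only [hs0, hs]
  have hs2 : s < 1.6181 := by nlinarith only [hs]
  unfold KK at hK
  rcases hM with hM | hM
  · have h1 : V = s * w := by linarith only [hM]
    rw [h1] at hN
    have h2 : w = 1 := by nlinarith only [hw, hN]
    rw [h2, mul_one] at h1
    rw [h1, h2] at hK
    nlinarith only [hK, hs1]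
  · rcases hM' with hM' | hM'
    · have h1 : w = s * V := by linarith only [hM']
      rw [h1] at hN
      have h2 : V = 1 := by nlinarith only [hV, hN]
      rw [h2, mul_one] at h1
      have e1 : e ≤ 0.5 := e_le he he1 (by nlinarith only [hs1]) (by norm_num) (by nlinarith only [hs1])
      rw [h1, h2] at hC
      nlinarith only [hC, hs1, e1]
    · have h1 : V ≤ w ^ 2 - 1 := by nlinarith only [hV, hN, hM]
      have h2 : w ≤ V ^ 2 - 1 := by nlinarith only [hV, hN, hM', h1]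
      have h3 : s ≤ w ∧ s ≤ V := by
        rcases le_total w V with h | h
        · have : s ≤ w := by nlinarith only [hK, hs1, hs2, hM']
          exact ⟨this, this.trans h⟩
        · have : s ≤ V := by nlinarith only [hK, hs1, hs2, hM, hM', h]
          exact ⟨this.trans h, this⟩
      obtain ⟨h3, h4⟩ := h3
      have h5 : (2 - s) * (V * w) ≤ 1 := by nlinarith only [hN, sq_nonneg (V - w)]
      have h6 : V * w ≤ s + 1 := by nlinarith only [hK, hs1, hs2, hM, hM', h4, h5]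
      have h7 : w ≤ s := by nlinarith only [hs1, h4, h5, h6]
      have h8 : w = s := le_antisymm h7 h3
      rw [h8] at hK h6
      nlinarith only [hK, hs1, hs2, hM', h8]

/-- `A = 0`, `s = √2`, `T = 1/3` -/
theorem aff {s w V ζ : ℝ} (hs0 : 0 < s) (hs : s ^ 2 = 2) (hζ0 : 0 ≤ ζ)
    (hζ : ζ = 0 ∨ 1 ≤ 2 * ζ ^ 2) (hE : ζ = 0 → 1 ≤ V)
    (hN : V ^ 2 + ζ ^ 2 + w ^ 2 - s * w * (V + ζ) = 1) (hM : ζ = 0 → s * w - V = 0 ∨ 1 ≤ s * w - V)
    (hc : 0 ≤ V - s * w / 2) (hK : KK 0 s w V ζ)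
    (hC : (s + 1) * (w - 1) - (s + 1) / 3 * V < ζ) : False := by
  have hs1 : 1.4142 < s := by nlinarith only [hs0, hs]
  have hs2 : s < 1.4143 := by nlinarith only [hs]
  unfold KK at hK
  rw [hs] at hK
  have h1 : 2 * V < 3 * s * w - 4 * ζ - 2 - 4 * (s - 1) := by
    have k1 : (s + 1) * (s - 1) = 1 := by linarith only [hs]
    have k2 : 0 < (s + 1) * (3 * s * w - 2 * V - 4 * ζ - 2 - 4 * (s - 1)) := by nlinarith only [hK, k1]
    have := (mul_pos_iff_of_pos_left (by linarith only [hs1])).1 k2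
    linarith only [this]
  have h2 : 3 * (w - 1) - V < 3 * (s - 1) * ζ := by
    have k1 : (s + 1) * (s - 1) = 1 := by linarith only [hs]
    have k2 : (s + 1) * (3 * (w - 1) - V) < (s + 1) * (3 * (s - 1) * ζ) := by nlinarith only [hs, hζ0, hC]
    exact lt_of_mul_lt_mul_left k2 (by linarith only [hs1])
  have h3 : 4 * ζ + 4 * s - 2 < 2 * s * w := by linarith only [hc, h1]
  have h4 : ζ < 0.02 := by nlinarith only [hs, hs1, hs2, h1, h2, h3]
  rcases hζ with h0 | h0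
  · have hV := hE h0
    rw [h0] at hN h1 h2 h3
    have w1 : 1.29 < w := by nlinarith only [hs1, h3]
    have w2 : w < 1.34 := by nlinarith only [hs2, h1, h2]
    rcases hM h0 with hm | hm
    · have k1 : V = s * w := by linarith only [hm]
      rw [k1] at hN
      nlinarith only [h1, h2, hV, w1, w2, k1]
    · nlinarith only [hs2, hV, w1, w2, hm]
  · nlinarith only [hζ0, h4, h0]

end Pool.Agent.Helper64.DY.G3
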