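import Pool.Agent.Helper9.DY.NG
import Pool.Agent.Helper9.DY.K
import Pool.Agent.Helper9.DY.Sq
import Pool.Agent.Helper62.DY.LemA3
import Pool.Agent.Helper64.DY.G3R

/-!
# GAP2 with `F` good at `V_2` of index `2` (`j = 3`) and `φ(w) < 0`, all labels (MP_d13a5e_al)

`a = 2 b1`, `s = 2 b2`, `w = t + a d1 + s d2`.  Only the strip of `V_2`, the strip of `w` and the criterion K are used.
-/

set_option autoImplicit false

namespace Pool.Agent.Helper64.DY.G3

open _root_.DY (Z1 C01 Tri rf Loc Crd Xs Good Str sq)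
open Pool.Agent.Helper62.DY (RT rt_of_tri)

/-! ### labels -/

/-- classification of a label: `√2`, `(1 + √5) / 2`, `√3` or at least `9 / 5` -/
theorem lab {b1 b2 bO : ℝ} {R : ℝ → ℝ → ℝ → Prop} (h : RT b1 b2 bO R) {s : ℝ} (hs : s = 2 * b2) (hs0 : 0 < s)
    (hs1 : 1 < s ^ 2) : s ^ 2 = 2 ∨ s ^ 2 = s + 1 ∨ s ^ 2 = 3 ∨ (1.8 ≤ s ∧ 3 ≤ s ^ 2) := by
  have e2 := h.e2
  have r1 := h.r0 _ _ _ e2
  have q1 : 2 * b1 * 0 + 2 * b2 * 1 - 0 = s := by rw [hs]; ring
  rw [q1] at r1
  have r2 := h.r2 _ _ _ r1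
  have q2 : 2 * b2 * s + 2 * bO * 0 - 1 = s ^ 2 - 1 := by rw [hs]; ring
  rw [q2] at r2
  have r3 := h.r0 _ _ _ r2
  have q3 : 2 * b1 * 0 + 2 * b2 * (s ^ 2 - 1) - s = s ^ 3 - 2 * s := by rw [hs]; ring
  rw [q3] at r3
  rcases (h.z2 r3 (by linarith only [hs1])).1 with h3 | h3
  · left
    have : s * (s ^ 2 - 2) = 0 := by linarith only [h3]
    rcases mul_eq_zero.1 this with h4 | h4
    · linarith only [hs0, h4]
    · linarith only [h4]
  · right
    have r4 := h.r2 _ _ _ r3
    have q4 : 2 * b2 * (s ^ 3 - 2 * s) + 2 * bO * 0 - (s ^ 2 - 1) = s ^ 4 - 3 * s ^ 2 + 1 := by rw [hs]; ring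
    rw [q4] at r4
    rcases (h.z0 r4 (by linarith only [h3])).2.2 with h4 | h4
    · left
      have : (s ^ 2 - s - 1) * (s ^ 2 + s - 1) = 0 := by linarith only [h4]
      rcases mul_eq_zero.1 this with h5 | h5
      · linarith only [h5]
      · exfalso
        nlinarith only [h5, hs1, hs0]
    · right
      have h5 : 3 ≤ s ^ 2 := by
        have : 0 ≤ s ^ 2 * (s ^ 2 - 3) := by linarith only [h4]
        have h6 := (mul_nonneg_iff_of_pos_left (by positivity : 0 < s ^ 2)).1 this
        linarith only [h6]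
      have r5 := h.r0 _ _ _ r4
      have q5 : 2 * b1 * 0 + 2 * b2 * (s ^ 4 - 3 * s ^ 2 + 1) - (s ^ 3 - 2 * s) = s * (s ^ 2 - 1) * (s ^ 2 - 3) := by
        rw [hs]; ring
      rw [q5] at r5
      rcases (h.z2 r5 (by linarith only [h4])).1 with h6 | h6
      · left
        have h7 : 0 < s * (s ^ 2 - 1) := mul_pos hs0 (by linarith only [h5])
        rcases mul_eq_zero.1 h6 with h8 | h8
        · linarith only [h7, h8]
        · linarith only [h8]
      · right
        refine ⟨?_, h5⟩
        by_contra hcon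
        rw [not_le] at hcon
        have h7 : s ^ 2 < 3.24 := by nlinarith only [hcon, hs0]
        have h8 : s * (s ^ 2 - 1) < 4.04 := by nlinarith only [hcon, hs0, h7, h5]
        nlinarith only [h6, h7, h8, h5, hs0]

/-- the root `e` of `e^2 - l e + 1` -/
theorem exists_e {l : ℝ} (hl : 2 ≤ l) : ∃ e : ℝ, e ^ 2 - l * e + 1 = 0 ∧ 0 < e ∧ e ≤ 1 := by
  have h0 : 0 ≤ l ^ 2 - 4 := by nlinarith only [hl]
  have h1 := Real.sq_sqrt h0
  have h2 := Real.sqrt_nonneg (l ^ 2 - 4)
  set r := √(l ^ 2 - 4) with hr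
  have h3 : r < l := by nlinarith only [h1, h2, hl]
  have h4 : l - 2 ≤ r := by nlinarith only [h1, h2, hl]
  exact ⟨(l - r) / 2, by nlinarith only [h1], by linarith only [h3], by linarith only [h4]⟩

/-- the ultimate strip -/
theorem ult_of {l r e : ℝ} (he : e ^ 2 - l * e + 1 = 0) (he0 : 0 < e) (he1 : e ≤ 1) (hu : 0 ≤ 1 + r ^ 2 + l * r)
    (hf : -l ≤ 2 * r) : -e ≤ r := by
  by_contra hcon
  rw [not_le] at hcon
  have h1 : (r + e) * (r + l - e) = 1 + r ^ 2 + l * r := by linear_combination (-1 : ℝ) * he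
  have h2 : 0 < r + l - e := by
    have : 2 * e < l := by linarith only [hf, hcon]
    linarith only [hf, hcon]
  have h3 : (r + e) * (r + l - e) < 0 := mul_neg_of_neg_of_pos (by linarith only [hcon]) h2
  linarith only [hu, h1, h3]

/-- the real part, with all data -/
theorem fin {A a s w V ζ p al c y r : ℝ} (hA : A = a ^ 2 - 2) (ha0 : 0 < a) (hs0 : 0 < s)
    (la : a ^ 2 = 2 ∨ a ^ 2 = a + 1 ∨ a ^ 2 = 3 ∨ (1.8 ≤ a ∧ 3 ≤ a ^ 2))
    (ls : s ^ 2 = 2 ∨ s ^ 2 = s + 1 ∨ s ^ 2 = 3 ∨ (1.8 ≤ s ∧ 3 ≤ s ^ 2))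
    (hw : 1 ≤ w) (hV : 1 ≤ a * V) (hz : Z1 (a * ζ)) (hE : 1 ≤ V + ζ)
    (hN : V ^ 2 + ζ ^ 2 + w ^ 2 - s * w * (V + ζ) - A * V * ζ = 1)
    (hy : y = (s * w + A * V) / 2 - ζ) (hv : 2 * V ≤ s * w + (A + 1) * V - ζ)
    (hM : ζ = 0 → Z1 (s * w - V)) (hM' : ζ = 0 → Z1 (s * V - w))
    (hal : 0 < al) (hap : al ≤ p) (hc : 0 ≤ c)
    (hcc : c = V * (s ^ 2 * (A + 1) / 2 - A / 2) + w * (s ^ 3 - 3 * s) / 2 - (s ^ 2 / 2 - 1) * ζ)
    (hK : (s + 1) * p * (1 + c) < (s + 1) * y - 1)
    (hT0 : (A + s ^ 2) * al < 1 → 0 < r)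
    (hTe : ∀ e, e ^ 2 - (A + s ^ 2) * e + 1 = 0 → 0 < e → e ≤ 1 → -e ≤ r)
    (hT3 : A + s ^ 2 = 2 → 1 ≤ 2 * al → 3 * al < 2 → -1 < 3 * r)
    (hC : (s + 1) * (w - 1) + (A + (s + 1) * r) * V < ζ) : False := by
  have hV0 : 0 < V := by
    by_contra h
    rw [not_lt] at h
    linarith only [mul_nonneg ha0.le (neg_nonneg.2 h), hV]
  have hζ0 : 0 ≤ ζ := by
    by_contra h
    rw [not_le] at h
    have := mul_neg_of_pos_of_neg ha0 h
    rcases hz with hz | hz <;> linarith only [this, hz]
  have hp0 : 0 < p := by linarith only [hal, hap]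
  have hs2 : 2 ≤ s ^ 2 := by
    rcases ls with h | h | h | h
    · linarith only [h]
    · nlinarith only [h, hs0]
    · linarith only [h]
    · linarith only [h.2]
  have ha2 : 2 ≤ a ^ 2 := by
    rcases la with h | h | h | h
    · linarith only [h]
    · nlinarith only [h, ha0]
    · linarith only [h]
    · linarith only [h.2]
  have hA0 : 0 ≤ A := by linarith only [hA, ha2]
  have hy1 : 1 ≤ (s + 1) * y := by
    have : 0 ≤ (s + 1) * p * (1 + c) := by positivity
    linarith
  -- `T = T` in general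
  have hCT : ∀ T, -T ≤ r → (s + 1) * (w - 1) + (A - (s + 1) * T) * V < ζ := by
    intro T hT
    have h1 : (s + 1) * (-T) * V ≤ (s + 1) * r * V :=
      mul_le_mul_of_nonneg_right (mul_le_mul_of_nonneg_left hT (by linarith only [hs0])) hV0.le
    linarith only [h1, hC]
  have hzz : ζ = 0 ∨ 1 ≤ a * ζ := by
    rcases hz with h | h
    · left
      rcases mul_eq_zero.1 h with h1 | h1
      · linarith only [ha0, h1]
      · exact h1
    · exact Or.inr h
  rcases lt_or_ge ((A + s ^ 2) * al) 1 with hT | hT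
  · -- `T = 0`
    have hr := hT0 hT
    have h0 := hCT 0 (by linarith only [hr])
    have h0' : (s + 1) * (w - 1) + A * V < ζ := by
      have : (s + 1) * (w - 1) + (A - (s + 1) * 0) * V = (s + 1) * (w - 1) + A * V := by ring
      linarith only [h0]
    rcases eq_or_lt_of_le ha2 with h2 | h2
    · have hA' : A = 0 := by linarith only [hA, h2]
      have n1 : V ^ 2 + ζ ^ 2 + w ^ 2 - s * w * (V + ζ) = 1 := by
        rw [hA'] at hN
        linear_combination hN
      have n2 : y = s * w / 2 - ζ := by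
        rw [hy, hA']
        ring
      have n3 : V ≤ s * w - ζ := by
        rw [hA'] at hv
        linarith only [hv]
      have n4 : (s + 1) * (w - 1) < ζ := by
        rw [hA'] at h0'
        linarith only [h0']
      have h1 := zero_0 hs0 hs2 hw hV0 n1 (by rw [← n2]; exact hy1) n3
      linarith only [n4, h1]
    · have hA1 : 1 ≤ A * (A + 1) := by
        rcases la with h | h | h | h
        · linarith only [h2, h]
        · rw [hA]
          have e1 : a ^ 2 - 2 = a - 1 := by linarith only [h]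
          rw [e1]
          linarith only [h]
        · rw [hA]
          rw [h]
          norm_num
        · have e1 : 1 ≤ A := by linarith only [hA, h.2]
          nlinarith only [e1]
      have hAp : 0 < A := by linarith only [hA, h2]
      have hy2 : 2 * ζ ≤ s * w + A * V := by
        have : 0 < y := by
          by_contra h
          rw [not_lt] at h
          linarith only [mul_nonneg (by linarith only [hs0] : (0 : ℝ) ≤ s + 1) (neg_nonneg.2 h), hy1]
        linarith only [hy, this]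
      have h1 := zero_a hs0 hs2 hAp hA1 hw hV0 hN hy2
      linarith only [h0', h1]
  · -- `T = e`
    have hlp : 0 < A + s ^ 2 := by linarith only [hs2, hA0]
    have hKK : KK A s w V ζ := by
      refine KK_of hs0 hlp ?_ hc hy hcc hK
      have := mul_le_mul_of_nonneg_left hap hlp.le
      linarith only [hT, this]
    obtain ⟨e, he, he0, he1⟩ := exists_e (l := A + s ^ 2) (by linarith only [hs2, hA0])
    have hCe := hCT e (hTe e he he0 he1)
    have h2V : a ^ 2 = 2 → 1 ≤ 2 * V ^ 2 := by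
      intro h
      have : 1 ≤ (a * V) ^ 2 := by nlinarith only [hV]
      have e1 : (a * V) ^ 2 = 2 * V ^ 2 := by rw [mul_pow, h]
      linarith only [this, e1]
    have h2ζ : a ^ 2 = 2 → 1 ≤ a * ζ → 1 ≤ 2 * ζ ^ 2 := by
      intro h h'
      have : 1 ≤ (a * ζ) ^ 2 := by nlinarith only [h']
      have e1 : (a * ζ) ^ 2 = 2 * ζ ^ 2 := by rw [mul_pow, h]
      linarith only [this, e1]
    have hζp : 1 ≤ a * ζ → 0 < ζ := by
      intro h
      rcases hζ0.lt_or_eq with h1 | h1
      · exact h1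
      · rw [← h1] at h
        norm_num at h
    have haa : a ^ 2 = A + 2 := by linarith only [hA]
    rcases la with h | h | h
    · -- `a = √2`
      have hA' : A = 0 := by linarith only [haa, h]
      subst hA'
      rcases eq_or_lt_of_le hs2 with hs | hs
      · -- `s = √2`
        have hs' : s ^ 2 = 2 := hs.symm
        have hc' : c = V - s * w / 2 := by
          rw [hcc]
          have : s ^ 3 = s * s ^ 2 := by ring
          rw [this, hs']
          ring
        have hy' : y ≤ 1 := by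
          have h1 : (V - s * w / 2) ^ 2 + y ^ 2 = 1 := by
            rw [hy]
            have : (V - s * w / 2) ^ 2 + ((s * w + 0 * V) / 2 - ζ) ^ 2 =
              V ^ 2 + ζ ^ 2 + s ^ 2 * w ^ 2 / 2 - s * w * (V + ζ) := by ring
            rw [this, hs']
            linarith only [hN]
          nlinarith only [h1, sq_nonneg (V - s * w / 2)]
        have hal1 : 3 * al < 2 := by
          have h1 : (s + 1) * p ≤ (s + 1) * p * (1 + c) := by
            have : 0 ≤ (s + 1) * p * c := by positivity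
            linarith only [this]
          have h2 : (s + 1) * p < s := by
            have k := mul_le_mul_of_nonneg_left hy' (by linarith only [hs0] : (0 : ℝ) ≤ s + 1)
            linarith only [k, h1, hK]
          have h3 : s < 1.4143 := by nlinarith only [hs', hs0]
          nlinarith only [h2, hap, h3, hs0]
        have hal2 : 1 ≤ 2 * al := by
          rw [hs'] at hT
          linarith only [hT]
        have h3 := hT3 (by linarith only [hs']) hal2 hal1
        have h4 := hCT (1 / 3) (by linarith only [h3])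
        refine aff hs0 hs' hζ0 ?_ ?_ (by linarith only [hN]) ?_ (by linarith only [hc, hc']) hKK (by linarith only [h4])
        · rcases hzz with hz | hz
          · exact Or.inl hz
          · exact Or.inr (h2ζ h hz)
        · intro h5
          linarith only [hE, h5]
        · intro h5
          exact hM h5
      · have hs' : s + 1 ≤ s ^ 2 := by
          rcases ls with h1 | h1 | h1 | h1
          · linarith only [hs, h1]
          · linarith only [h1]
          · have k : s ≤ 2 := by nlinarith only [h1]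
            linarith only [k, h1]
          · nlinarith only [h1.1]
        rcases hzz with hz | hz
        · subst hz
          rcases ls with h1 | h1 | h1
          · linarith only [hs, h1]
          · exact z0_e hs0 h1 hw (by linarith only [hE]) (by linarith only [hN]) (hM rfl) (hM' rfl) (by linarith only [he]) he1 hKK hCe
          · have h3 : 3 ≤ s ^ 2 := by
              rcases h1 with h1 | h1
              · linarith only [h1]
              · exact h1.2
            exact z0_b hs0 h3 (by linarith only [hE]) (by linarith only [he]) he0 he1 hKK hCe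
        · exact big_0 hs0 hs' (h2V h) hV0 (h2ζ h hz) (hζp hz) (by linarith only [he]) he0 he1 hKK hCe
    · -- `a = (1 + √5) / 2`
      have hAp : 0 < A := by
        have k : 1 < a := by nlinarith only [h, ha0]
        linarith only [k, h, haa]
      have hAA : A ^ 2 + A = 1 := by
        rw [hA, h]
        linarith only [h]
      rcases hzz with hz | hz
      · subst hz
        have hN' : V ^ 2 + w ^ 2 - s * w * V = 1 := by linarith only [hN]
        rcases ls with h1 | h1 | h1 | h1
        · exact z0_d hs0 hs2 (by linarith only [h1]) hAp hAA hw (by linarith only [hE]) hN' (hM rfl) he he1 hKK hCe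
        · exact z0_d hs0 hs2 (by nlinarith only [h1, hs0]) hAp hAA hw (by linarith only [hE]) hN' (hM rfl) he he1 hKK hCe
        · exact z0_d hs0 hs2 (by linarith only [h1]) hAp hAA hw (by linarith only [hE]) hN' (hM rfl) he he1 hKK hCe
        · exact z0_c h1.1 hAp hAA (by linarith only [hE]) he he0 he1 hKK hCe
      · rcases eq_or_lt_of_le hs2 with hs | hs
        · exact big_54 hs0 hs.symm hAp hAA ha0 haa hw hV0 hz he he1 hN hKK hCe
        · have hs' : s + 1 ≤ s ^ 2 := by
            rcases ls with h1 | h1 | h1 | h1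
            · linarith only [hs, h1]
            · linarith only [h1]
            · have k : s ≤ 2 := by nlinarith only [h1]
              linarith only [k, h1]
            · nlinarith only [h1.1]
          exact big_5 hs0 hs' hAp hAA ha0 haa hw hV hz he he0 he1 hKK hCe
    · have hA1 : 1 ≤ A := by
        rcases h with h | h
        · linarith only [haa, h]
        · linarith only [haa, h.2]
      rcases hzz with hz | hz
      · have := z0_a hs0 hs2 hA1 hw hV0 he he0 he1
        linarith only [hCe, hz, this]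
      · rcases le_total A 2 with h2 | h2
        · exact big_m hs0 hs2 hA1 h2 ha0 haa hw hV hz he he0 he1 hKK hCe
        · exact big_2 hs0 hs2 h2 ha0 haa hw hV he he0 he1 hKK hCe

theorem hd1_of {a s g x1 x2 g' x1' x2' f1 f2 : ℝ} 
    (n0 : g ^ 2 + x1 ^ 2 + x2 ^ 2 - a * g * x1 - s * g * x2 = 1)
    (hf : g = -f1 * x1 + -f2 * x2) (hf' : g' = -f1 * x1' + -f2 * x2')
    (hD : 0 < x2 * x1' - x1 * x2') (hc : 2 * g ≤ a * x1 + s * x2) (h1 : 0 ≤ f1) (p2 : 0 ≤ x2) (p2' : 0 ≤ x2')
    (hbb : 2 * (g * g' + x1 * x1' + x2 * x2') ≤ a * (g * x1' + x1 * g') + s * (g * x2' + x2 * g')) :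
    2 * x1 ≤ a * g := by
  have k1 : (x2 * x1' - x1 * x2') * (2 * x1 - a * g) =
      -(f1 * (x2 * x1' - x1 * x2') * (a * x1 + s * x2 - 2 * g)) + 
      x2 * (2 * (g * g' + x1 * x1' + x2 * x2') -
        (a * (g * x1' + x1 * g') + s * (g * x2' + x2 * g'))) - 2 * x2' := by
    have k0 : x2 * g' - x2' * g = -f1 * (x2 * x1' - x1 * x2') := by
      rw [hf, hf']
      ring
    linear_combination (-2 * x2') * n0 + (a * x1 + s * x2 - 2 * g) * k0
  have k2 : 0 ≤ f1 * (x2 * x1' - x1 * x2') * (a * x1 + s * x2 - 2 * g) :=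
    mul_nonneg (mul_nonneg h1 hD.le) (by linarith only [hc])
  have k3 : x2 * (2 * (g * g' + x1 * x1' + x2 * x2') -
        (a * (g * x1' + x1 * g') + s * (g * x2' + x2 * g'))) ≤ 0 :=
    mul_nonpos_of_nonneg_of_nonpos p2 (by linarith only [hbb])
  by_contra hcon
  rw [not_le] at hcon
  have := mul_pos hD (by linarith only [hcon] : 0 < 2 * x1 - a * g)
  linarith only [p2', k1, k2, k3, this]

theorem corner_of {a s g x1 x2 r1 r2 w V ζ : ℝ} (hs : 0 < s + 1) (hr2 : -1 < (s + 1) * r2)
    (hslope : 0 < s * g - w - s * V) (hX : g + x1 * r1 + x2 * r2 ≤ 1) (hx2 : x2 = s * g - w)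
    (hx1 : x1 = a * V) (hgg : g = s * w + (a ^ 2 - 2 + 1) * V - ζ) :
    (s + 1) * (w - 1) + (a ^ 2 - 2 + (s + 1) * (1 + a * r1 + s * r2)) * V < ζ := by
  have k1 : (s + 1) * (g + x1 * r1 + x2 * r2) = (s + 1) * (g - V + V * (1 + a * r1 + s * r2)) +
      (s * g - w - s * V) * ((s + 1) * r2) := by
    rw [hx1, hx2]
    ring
  have k2 := mul_lt_mul_of_pos_left hr2 hslope
  have k3 := mul_le_mul_of_nonneg_left hX hs.le
  have k4 : (s + 1) * (w - 1) + (a ^ 2 - 2 + (s + 1) * (1 + a * r1 + s * r2)) * V - ζ =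
    g - V + (s + 1) * V * (1 + a * r1 + s * r2) + w - (s + 1) := by
    rw [hgg]
    ring
  linarith only [k1, k2, k3, k4]

theorem phi_of {a s g f1 f2 x1 x2 : ℝ} (hf : g = -f1 * x1 + -f2 * x2) :
    (a * x1 + s * (s * g - x2) - g) * (-(s * f2) - 1) + (s * g - x2) * ((s ^ 2 - 1) * f2 + s) +
      x1 * (f1 - a * (-(s * f2) - 1)) = 0 := by
  linear_combination (1 : ℝ) * hf

/-- the real statement -/
theorem real_part {b1 b2 : ℝ} {R : ℝ → ℝ → ℝ → Prop} (h : RT b1 b2 0 R) {a s : ℝ} (ea : a = 2 * b1)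
    (es : s = 2 * b2) {g x1 x2 g' x1' x2' f1 f2 r1 r2 : ℝ} (hR : R g x1 x2) (p1 : 1 ≤ x1) (p2 : 1 ≤ x2)
    (p1' : 1 ≤ x1') (p2' : 0 ≤ x2') (st : x1 * x2' < x2 * x1') (obt : 2 * g ≤ a * x1 + s * x2)
    (hf : g = -f1 * x1 + -f2 * x2) (hf' : g' = -f1 * x1' + -f2 * x2') (h1 : 0 ≤ f1)
    (hbb : 2 * (g * g' + x1 * x1' + x2 * x2') ≤ a * (g * x1' + x1 * g') + s * (g * x2' + x2 * g'))
    (g1 : 0 < s) (g2 : 1 < s ^ 2) (g3 : s * f2 + 1 ≤ 0) (g4 : 0 < (s ^ 2 - 1) * f2 + s)
    (hK : (1 - ((s ^ 2 - 1) * f2 + s)) * (x2 * x1' - x1 * x2') < (s ^ 2 - 1) * x1')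
    (hW : 1 + a * f1 + s * f2 < 0) (nk2 : 1 < (s ^ 2 - 1) * r2 + s)
    (hS : Str ((a ^ 2 + s ^ 2) / 2 - 1) (1 + a * f1 + s * f2) (1 + a * r1 + s * r2))
    (hX : g + x1 * r1 + x2 * r2 ≤ 1) : False := by
  -- labels
  have ls := lab h es g1 g2
  have hs2 : 2 ≤ s ^ 2 := by
    rcases ls with h | h | h | h
    · linarith only [h]
    · nlinarith only [h, g1]
    · linarith only [h]
    · linarith only [h.2]
  have hs1 : 1 < s := by nlinarith only [hs2, g1]
  -- norm
  have n0 := h.n _ _ _ hR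
  have n0' : g ^ 2 + x1 ^ 2 + x2 ^ 2 - a * g * x1 - s * g * x2 = 1 := by
    rw [ea, es]
    linarith
  -- reflection in `d1`
  have q1 := h.r1 _ _ _ hR
  have e1 : 2 * b1 * g + 2 * 0 * x2 - x1 = a * g - x1 := by rw [ea]; ring
  rw [e1] at q1
  have zag : 0 ≤ a * g - x1 := by
    rcases (h.z2 q1 (by linarith only [p2])).2.1 with h5 | h5 <;> linarith
  -- `w`
  have q2 := h.r2 _ _ _ hR
  have e2 : 2 * b2 * g + 2 * 0 * x1 - x2 = s * g - x2 := by rw [es]; ring
  rw [e2] at q2
  have zw := (h.z1 q2 (by linarith only [p1])).2.2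
  have zg := (h.z1 hR (by linarith only [p1])).1
  have hg0 : 0 ≤ g := by rcases zg with h5 | h5 <;> linarith only [h5]
  have ha1 : 1 ≤ a := by
    rcases h.b1z with h5 | h5
    · rw [← ea] at h5
      rw [h5] at zag
      linarith only [p1, zag]
    · rw [ea]
      exact h5
  have hgp : 0 < g := by
    rcases hg0.lt_or_eq with h5 | h5
    · exact h5
    · rw [← h5] at zag
      linarith only [p1, zag]
  have hD : 0 < x2 * x1' - x1 * x2' := by linarith only [st]
  set D := x2 * x1' - x1 * x2' with hDd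
  have hf1 : x2 * g' - x2' * g = -f1 * D := by
    rw [hf, hf', hDd]
    ring
  have hf2 : x1' * g - x1 * g' = -f2 * D := by
    rw [hf, hf', hDd]
    ring
  -- `c`
  set c := (a * x1 + s * x2) / 2 - g with hcd
  have hc0 : 0 ≤ c := by rw [hcd]; linarith
  -- `B(x, d1) ≤ 0`
  have hd1 : 2 * x1 ≤ a * g := hd1_of n0' hf hf' hD obt h1 (by linarith only [p2]) p2' hbb
  -- `x2 > b2 g`
  have hx2 : 0 < 2 * x2 - s * g := by
    have k1 : x2 * (2 * x2 - s * g) = 2 + g * (2 * c) + x1 * (a * g - 2 * x1) := by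
      rw [hcd]
      linear_combination 2 * n0'
    have k2 : 0 ≤ g * (2 * c) := by positivity
    have k3 : 0 ≤ x1 * (a * g - 2 * x1) := mul_nonneg (by linarith only [p1]) (by linarith only [hd1])
    by_contra hcon
    rw [not_lt] at hcon
    have := mul_nonpos_of_nonneg_of_nonpos (by linarith only [p2] : 0 ≤ x2) hcon
    linarith only [k1, k2, k3, this]
  have hslope : 0 < a * x2 - s * x1 := by
    have k1 : a * (s * g) < a * (2 * x2) := mul_lt_mul_of_pos_left (by linarith only [hx2]) (by linarith only [ha1])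
    have k2 : s * (2 * x1) ≤ s * (a * g) := mul_le_mul_of_nonneg_left hd1 g1.le
    linarith
  -- `p`, `al`
  set p := -(s * f2) - 1 with hpd
  set al := -(1 + a * f1 + s * f2) with hald
  have hal : 0 < al := by rw [hald]; linarith only [hW]
  have haf : 0 ≤ a * f1 := mul_nonneg (by linarith only [ha1]) h1
  have hpal : p = al + a * f1 := by rw [hpd, hald]; ring
  have hap : al ≤ p := by linarith
  -- `w ≥ 1`
  set w := s * g - x2 with hwd
  have hgpw : g * p = f1 * x1 + -f2 * w := by
    rw [hpd, hwd]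
    linear_combination (-1 : ℝ) * hf
  have hw1 : 1 ≤ w := by
    rcases zw with h5 | h5
    · exfalso
      rw [h5, mul_zero, add_zero] at hgpw
      have k1 : g * (a * f1) < g * p := mul_lt_mul_of_pos_left (by linarith only [hal]) hgp
      have k2 : f1 * (2 * x1) ≤ f1 * (a * g) := mul_le_mul_of_nonneg_left hd1 h1
      have k3 : 0 ≤ f1 * x1 := mul_nonneg h1 (by linarith only [p1])
      linarith only [hgpw, k1, k2, k3]
    · exact h5
  -- `E`
  have q3 := h.r0 _ _ _ q2
  have e3 : 2 * b1 * x1 + 2 * b2 * w - g = a * x1 + s * w - g := by rw [ea, es]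
  rw [e3] at q3
  set Ee := a * x1 + s * w - g with hEd
  have hgE : g * Ee = w ^ 2 + x1 ^ 2 - 1 := by
    rw [hEd, hwd]
    linear_combination (-1 : ℝ) * n0'
  have hE0 : 0 < Ee := by
    have : 0 < g * Ee := by rw [hgE]; nlinarith only [hw1, p1]
    exact (mul_pos_iff_of_pos_left hgp).1 this
  have hE1 := (h.z0 q3 hE0).1
  -- `z`
  have q4 := h.r1 _ _ _ q3
  have e4 : 2 * b1 * Ee + 2 * 0 * w - x1 = a * Ee - x1 := by rw [ea]; ring
  rw [e4] at q4
  have hz := (h.z0 q4 hE0).2.1
  set z := a * Ee - x1 with hzd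
  -- label `a`
  have hphi : Ee * p + w * ((s ^ 2 - 1) * f2 + s) + x1 * (f1 - a * p) = 0 := phi_of hf
  have la : a ^ 2 = 2 ∨ a ^ 2 = a + 1 ∨ a ^ 2 = 3 ∨ (1.8 ≤ a ∧ 3 ≤ a ^ 2) := by
    refine lab h.swap ea (by linarith only [ha1]) ?_
    have ha1' : 1 < a := by
      rcases ha1.lt_or_eq with h5 | h5
      · exact h5
      · exfalso
        rw [← h5] at hphi hpal hzd
        have hz0 : 0 ≤ z := by rcases hz with h6 | h6 <;> linarith only [h6]
        have k1 : 0 < p - f1 := by linarith only [hal, hpal]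
        have k2 : 0 ≤ z * (p - f1) := mul_nonneg hz0 k1.le
        have k3 : 0 ≤ Ee * f1 := mul_nonneg hE0.le h1
        have k4 : 0 < w * ((s ^ 2 - 1) * f2 + s) := mul_pos (by linarith only [hw1]) g4
        have k5 : x1 = Ee - z := by rw [hzd]; ring
        rw [k5] at hphi
        linarith only [hphi, k2, k3, k4]
    nlinarith only [ha1']
  -- the variables of `fin`
  have ha0 : 0 < a := by linarith only [ha1]
  have ha0' : a ≠ 0 := ha0.ne'
  have hV : a * (x1 / a) = x1 := by field_simp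
  have hζ : a * (z / a) = z := by field_simp
  set V := x1 / a with hVd
  set ζ := z / a with hζd
  have hEe : Ee = V + ζ := by
    have k1 : a * Ee = a * (V + ζ) := by
      rw [mul_add, hV, hζ, hzd]
      ring
    exact mul_left_cancel₀ ha0' k1
  have hgg : g = s * w + (a ^ 2 - 2 + 1) * V - ζ := by
    have k1 : g = a * x1 + s * w - Ee := by rw [hEd]; ring
    rw [k1, hEe, ← hV]
    ring
  have hx1 : x1 = a * V := hV.symm
  have hNN : V ^ 2 + ζ ^ 2 + w ^ 2 - s * w * (V + ζ) - (a ^ 2 - 2) * V * ζ = 1 := by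
    have k1 := hgE
    rw [hgg, hEe, hx1] at k1
    linear_combination (-1 : ℝ) * k1
  have hx2' : x2 = s * g - w := by rw [hwd]; ring
  -- K
  have hKc : (s + 1) * (2 * x2 - s * g - 2 * (-f2) * c) > 2 * ((s + 1) * (-f2) - 1) := by
    have k1 : D * (2 * x2 - s * g - 2 * (-f2) * c) = 2 * x1' - x1 * (2 * (g * g' + x1 * x1' + x2 * x2') -
        (a * (g * x1' + x1 * g') + s * (g * x2' + x2 * g'))) := by
      have k2 : D * (2 * x2 - s * g - 2 * (-f2) * c) = D * (2 * x2 - s * g) - 2 * (-f2 * D) * c := by ring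
      rw [k2, ← hf2, hDd, hcd]
      linear_combination (2 * x1') * n0'
    have k3 : x1 * (2 * (g * g' + x1 * x1' + x2 * x2') -
        (a * (g * x1' + x1 * g') + s * (g * x2' + x2 * g'))) ≤ 0 :=
      mul_nonpos_of_nonneg_of_nonpos (by linarith only [p1]) (by linarith only [hbb])
    have k4 : (s - 1) * (((s + 1) * (-f2) - 1) * D) < (s - 1) * ((s + 1) * x1') := by
      have e5 : (1 - ((s ^ 2 - 1) * f2 + s)) * D = (s - 1) * (((s + 1) * (-f2) - 1) * D) := by ring
      have e6 : (s ^ 2 - 1) * x1' = (s - 1) * ((s + 1) * x1') := by ring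
      rw [e5, e6] at hK
      exact hK
    have k5 := lt_of_mul_lt_mul_left k4 (by linarith only [hs1])
    have k6 : D * (2 * ((s + 1) * (-f2) - 1)) < D * ((s + 1) * (2 * x2 - s * g - 2 * (-f2) * c)) := by
      have e7 : D * ((s + 1) * (2 * x2 - s * g - 2 * (-f2) * c)) =
        (s + 1) * (D * (2 * x2 - s * g - 2 * (-f2) * c)) := by ring
      rw [e7, k1]
      have k8 := mul_nonpos_of_nonneg_of_nonpos (by linarith only [g1] : (0 : ℝ) ≤ s + 1) k3
      linarith only [k5, k8]
    exact lt_of_mul_lt_mul_left k6 hD.le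
  have hKy : (s + 1) * p * (1 + c) < (s + 1) * ((s * w + (a ^ 2 - 2) * V) / 2 - ζ) - 1 := by
    have k1 : (s * w + (a ^ 2 - 2) * V) / 2 - ζ = s * (2 * x2 - s * g) / 2 - c := by
      rw [hcd, hx2', hx1]
      rw [hgg]
      ring
    rw [k1]
    have k2 := mul_lt_mul_of_pos_left hKc g1
    have k3 : p = s * (-f2) - 1 := by rw [hpd]; ring
    rw [k3]
    linarith only [k2]
  have hcc : c = V * (s ^ 2 * (a ^ 2 - 2 + 1) / 2 - (a ^ 2 - 2) / 2) + w * (s ^ 3 - 3 * s) / 2 -
      (s ^ 2 / 2 - 1) * ζ := by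
    rw [hcd, hx2', hx1, hgg]
    ring
  -- the strips
  have hr2 : -1 < (s + 1) * r2 := by
    have k1 : (s - 1) * (-1) < (s - 1) * ((s + 1) * r2) := by linarith only [nk2]
    exact lt_of_mul_lt_mul_left k1 (by linarith only [hs1])
  have ha2 : 2 ≤ a ^ 2 := by
    rcases la with h | h | h | h
    · linarith only [h]
    · nlinarith only [h, ha0]
    · linarith only [h]
    · linarith only [h.2]
  have hlam : 0 < a ^ 2 - 2 + s ^ 2 := by linarith only [hs2, ha2]
  have sq1 : sq ((a ^ 2 + s ^ 2) / 2 - 1) 1 = 1 := rfl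
  have sq0 : sq ((a ^ 2 + s ^ 2) / 2 - 1) 0 = 0 := rfl
  have sq2 : sq ((a ^ 2 + s ^ 2) / 2 - 1) 2 = a ^ 2 - 2 + s ^ 2 := by
    have : sq ((a ^ 2 + s ^ 2) / 2 - 1) 2 = 2 * ((a ^ 2 + s ^ 2) / 2 - 1) * 1 - 0 := rfl
    rw [this]
    ring
  have hW' : 1 + a * f1 + s * f2 < 0 := hW
  refine fin (A := a ^ 2 - 2) (r := 1 + a * r1 + s * r2) rfl ha0 g1 la ls hw1 (by rw [hV]; exact p1)
    (by rw [hζ]; exact hz) (by rw [← hEe]; exact hE1) hNN rfl ?_ ?_ ?_ hal hap hc0 hcc hKy ?_ ?_ ?_ ?_
  · rw [← hgg]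
    have k1 : a * (2 * V) ≤ a * g := by
      have : a * (2 * V) = 2 * (a * V) := by ring
      rw [this, hV]
      exact hd1
    exact le_of_mul_le_mul_left k1 ha0
  · intro h0
    have hz0 : z = 0 := by rw [← hζ, h0, mul_zero]
    rw [hz0] at q4
    have q5 := h.r0 _ _ _ q4
    have e5 : 2 * b1 * 0 + 2 * b2 * w - Ee = s * w - V := by rw [es, hEe, h0]; ring
    rw [e5] at q5
    exact (h.z2 q5 (by linarith only [hw1])).1
  · intro h0
    have hz0 : z = 0 := by rw [← hζ, h0, mul_zero]
    rw [hz0] at q4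
    have q5 := h.r2 _ _ _ q4
    have e5 : 2 * b2 * Ee + 2 * 0 * 0 - w = s * V - w := by rw [es, hEe, h0]; ring
    rw [e5] at q5
    exact (h.z0 q5 hE0).2.2
  · intro h5
    have hG : Good ((a ^ 2 + s ^ 2) / 2 - 1) (1 + a * f1 + s * f2) 1 := by
      refine ⟨?_, ?_, ?_⟩
      · intro i hi
        interval_cases i
        · rw [sq1]; norm_num
        · rw [sq2]; exact hlam
      · intro i hi
        have : i = 0 := by omega
        subst this
        rw [sq1, sq0]
        linarith only [hW']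
      · rw [sq2, sq1]
        rw [hald] at h5
        linarith only [h5]
    exact hG.nk_one hS hW'
  · intro e he he0 he1
    refine ult_of he he0 he1 ?_ ?_
    · have := hS.ult (by linarith only [hs2, ha2])
      linarith only [this]
    · have := hS.foot
      linarith only [this]
  · intro h6 h7 h8
    have hcw : (a ^ 2 + s ^ 2) / 2 - 1 = 1 := by linarith only [h6]
    rw [hcw] at hS
    have s1 : sq 1 1 = 1 := rfl
    have s0 : sq 1 0 = 0 := rfl
    have s2 : sq 1 2 = 2 := by
      have : sq 1 2 = 2 * 1 * 1 - 0 := rfl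
      rw [this]; norm_num
    have s3 : sq 1 3 = 3 := by
      have : sq 1 3 = 2 * 1 * sq 1 2 - sq 1 1 := rfl
      rw [this, s2, s1]; norm_num
    have hG : Good 1 (1 + a * f1 + s * f2) 2 := by
      refine ⟨?_, ?_, ?_⟩
      · intro i hi
        interval_cases i
        · rw [s1]; norm_num
        · rw [s2]; norm_num
        · rw [s3]; norm_num
      · intro i hi
        interval_cases i
        · rw [s1, s0]
          linarith only [h7]
        · rw [s2, s1]
          rw [hald] at h7
          linarith only [h7]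
      · rw [s3, s2]
        rw [hald] at h8
        linarith only [h8]
    have := hG.nk hS hW'
    rw [s3, s2] at this
    linarith only [this]
  · -- the corner
    refine corner_of (by linarith only [hs1]) hr2 ?_ hX hx2' hx1 hgg
    have k5 : a * (s * g - w - s * V) = a * x2 - s * x1 := by
      rw [hx2', ← hV]
      ring
    rw [← k5] at hslope
    exact (mul_pos_iff_of_pos_left ha0).1 hslope

end Pool.Agent.Helper64.DY.G3
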