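import Pool.Agent.Helper64.DY.G3
import Pool.Agent.Helper62.DY.G2w3

/-!
# GAP2, `φ(w) < 0`, index 3: geometric form (MP_d13a5e_al)
-/

set_option autoImplicit false

namespace Pool.Agent.Helper64.DY.G3

open _root_.DY (Z1 C01 Tri rf sq Str Loc Canon Xs Good)
open Pool.Agent.Helper62.DY (RT rt_of_tri xs_Bd1 sq_rec sq_zero)

variable {E : Type*} [AddCommGroup E] [Module ℝ E] {Ψ : Set E} {B : E →ₗ[ℝ] E →ₗ[ℝ] ℝ}
variable {ρ φ : E →ₗ[ℝ] ℝ} {t d1 d2 x x' : E} {g x1 x2 g' x1' x2' : ℝ}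

/-- the strip of `w = t + 2 b1 d1 + 2 b2 d2` -/
theorem str_w (X : Xs Ψ B ρ φ t d1 d2 x x' g x1 x2 g' x1' x2') (h0 : B d1 d2 = 0)
    (hb1 : 1 / 2 ≤ -B t d1) (hb2 : 1 / 2 ≤ -B t d2) :
    Str (((2 * -B t d1) ^ 2 + (2 * -B t d2) ^ 2) / 2 - 1)
      (1 + 2 * -B t d1 * φ d1 + 2 * -B t d2 * φ d2) (1 + 2 * -B t d1 * ρ d1 + 2 * -B t d2 * ρ d2) := by
  have hT := X.L.tri
  have hR0 : RT (-B t d1) (-B t d2) 0 (fun g x1 x2 => g • t + x1 • d1 + x2 • d2 ∈ Ψ) := by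
    have := rt_of_tri hT
    rw [h0, neg_zero] at this
    exact this
  have hwm := hR0.r1 _ _ _ (hR0.r2 _ _ _ hR0.e0)
  obtain ⟨u, hue⟩ : ∃ u : E, u = (1 : ℝ) • t + (2 * -B t d1) • d1 + (2 * -B t d2) • d2 := ⟨_, rfl⟩
  have hum : u ∈ Ψ := by
    have e4 : u = (1 : ℝ) • t + (2 * -B t d1 * 1 + 2 * 0 * (2 * -B t d2 * 1 + 2 * 0 * 0 - 0) - 0) • d1 +
        (2 * -B t d2 * 1 + 2 * 0 * 0 - 0) • d2 := by
      rw [hue]
      module
    rw [e4]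
    exact hwm
  have hut : u ≠ t := by
    intro h
    have := (hT.indep 0 (2 * -B t d1) (2 * -B t d2) (by
      have e1 : (0 : ℝ) • t + (2 * -B t d1) • d1 + (2 * -B t d2) • d2 =
        ((1 : ℝ) • t + (2 * -B t d1) • d1 + (2 * -B t d2) • d2) - t := by module
      rw [e1, ← hue, h, sub_self])).2.1
    linarith
  have huc : u ∈ C01 t d1 d2 :=
    ⟨1, 2 * -B t d1, 2 * -B t d2, hue, Or.inr le_rfl, Or.inr (by linarith), Or.inr (by linarith)⟩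
  have hS := X.L.str u hum huc hut
  have hBu : -B t u = ((2 * -B t d1) ^ 2 + (2 * -B t d2) ^ 2) / 2 - 1 := by
    rw [hue]
    simp only [map_add, map_smul, smul_eq_mul, hT.one t hT.ha]
    ring
  have hru : ρ u = 1 + 2 * -B t d1 * ρ d1 + 2 * -B t d2 * ρ d2 := by
    rw [hue, X.L.val_ρ]
  have hpu : φ u = 1 + 2 * -B t d1 * φ d1 + 2 * -B t d2 * φ d2 := by
    rw [hue, X.L.val_φ]
  rw [hBu, hru, hpu] at hS
  exact hS

/-- the strip of `d2` -/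
theorem str_2 (X : Xs Ψ B ρ φ t d1 d2 x x' g x1 x2 g' x1' x2') : Str (-B t d2) (φ d2) (ρ d2) := by
  refine X.L.str d2 X.L.tri.hc ⟨0, 0, 1, by module, Or.inl rfl, Or.inl rfl, Or.inr le_rfl⟩ ?_
  intro h
  have := (X.L.tri.indep 1 0 (-1) (by rw [h]; module)).1
  exact one_ne_zero this

/-- `2 B(x, x') ≤ 0` in coordinates -/
theorem bxx (X : Xs Ψ B ρ φ t d1 d2 x x' g x1 x2 g' x1' x2') (h0 : B d1 d2 = 0) :
    2 * (g * g' + x1 * x1' + x2 * x2') ≤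
      2 * -B t d1 * (g * x1' + x1 * g') + 2 * -B t d2 * (g * x2' + x2 * g') := by
  have h := X.cxx
  rw [X.e, X.e', X.L.val_B, h0] at h
  linarith

/-- **(a), index 3** -/
theorem gap2_neg3 (X : Xs Ψ B ρ φ t d1 d2 x x' g x1 x2 g' x1' x2') (h0 : B d1 d2 = 0)
    (hb1 : 1 / 2 ≤ -B t d1) (hb2 : 1 / 2 ≤ -B t d2)
    (hW : 1 + 2 * -B t d1 * φ d1 + 2 * -B t d2 * φ d2 < 0) (hG : Good (-B t d2) (φ d2) 2) : False := by
  have hT := X.L.tri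
  have hR0 : RT (-B t d1) (-B t d2) 0 (fun g x1 x2 => g • t + x1 • d1 + x2 • d2 ∈ Ψ) := by
    have := rt_of_tri hT
    rw [h0, neg_zero] at this
    exact this
  have hx : g • t + x1 • d1 + x2 • d2 ∈ Ψ := by
    rw [← X.e]
    exact X.L.xm
  have q1 : sq (-B t d2) 1 = 1 := rfl
  have q2 : sq (-B t d2) 2 = 2 * -B t d2 := by
    rw [sq_rec, q1, sq_zero]
    ring
  have q3 : sq (-B t d2) 3 = (2 * -B t d2) ^ 2 - 1 := by
    rw [sq_rec, q2, q1]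
    ring
  have g2 := hG.hs 1 (by norm_num)
  have g3 := hG.hs 2 le_rfl
  have g4 := hG.hm 1 (by norm_num)
  have g5 := hG.hpos
  have hnk := hG.nk (str_2 X) X.h2
  have e2 : (1 : ℕ) + 1 = 2 := rfl
  have e3 : (2 : ℕ) + 1 = 3 := rfl
  rw [e2, q2] at g2
  rw [e3, q3] at g3
  rw [e2, q2, q1] at g4
  rw [e3, q3, q2] at g5 hnk
  have fx : g + x1 * φ d1 + x2 * φ d2 = 0 := by
    have := X.c.fz
    linarith
  have fx' : g' + x1' * φ d1 + x2' * φ d2 = 0 := by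
    have := X.c'.fz
    linarith
  refine real_part (f1 := φ d1) (f2 := φ d2) (r1 := ρ d1) (r2 := ρ d2) hR0 rfl rfl hx X.p1 X.p2 X.p1' X.p2' X.st
    ?_ (by linarith) (by linarith) X.h1 (bxx X h0) g2 (by linarith) (by linarith) g5 ?_ hW hnk
    (str_w X h0 hb1 hb2) X.le_one.1
  · linarith [X.c.obt]
  · by_contra hcon
    rw [not_lt] at hcon
    refine X.kcrit (k := 2) hG.hs hG.hm hG.hpos ?_
    rw [e3, q3, q2]
    exact hcon

end Pool.Agent.Helper64.DY.G3
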